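import Pool.Agent.Lib.MP_ca56d1_nt.AR.All

/-! Fields of odd class number: elements of even valuation and unramified quadratic extensions. -/

set_option autoImplicit false

namespace Pool.Agent.C17

open NumberField IsDedekindDomain Pool.Agent.Stark Pool.Agent.Stark.AR
open scoped IsMulCommutative

variable {L : Type} [Field L] [NumberField L]

/-- A divisor whose double is principal is principal. -/
theorem prin_of_two (h : Odd (classNumber L)) {D : Dv L} (hD : 2 • D ∈ prin L) : D ∈ prin L := by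
  obtain ⟨k, hk⟩ := h
  have h1 := (prin L).nsmul_index_mem D
  rw [index_prin, hk, add_nsmul, one_nsmul, mul_nsmul] at h1
  exact (add_mem_cancel_left (nsmul_mem hD k)).1 h1

/-- An element of even valuation everywhere is a unit times a square. -/
theorem unit_of_even (h : Odd (classNumber L)) {x : L} (hx : x ≠ 0)
    (he : ∀ q : Pr L, Even (og q x)) :
    ∃ (u : (𝓞 L)ˣ) (r : L), r ≠ 0 ∧ x = ((u : 𝓞 L) : L) * r ^ 2 := by
  have h1 : 2 • hD x = dv x := Finsupp.ext fun q => by
    obtain ⟨k, hk⟩ := he q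
    rw [Finsupp.smul_apply, hD_apply, dv_apply, hk, nsmul_eq_mul]
    omega
  obtain ⟨r, hr, e⟩ := mem_prin.1 (prin_of_two h (h1 ▸ mem_prin.2 ⟨x, hx, rfl⟩))
  obtain ⟨u, hu⟩ := isU_iff.1 (⟨div_ne_zero hx (pow_ne_zero 2 hr), fun q => by
    have h2 := DFunLike.congr_fun e q
    obtain ⟨k, hk⟩ := he q
    rw [dv_apply, hD_apply] at h2
    rw [SUnitAux.og_div q hx (pow_ne_zero 2 hr), SUnitAux.og_sq, h2, hk]
    omega⟩ : IsU (x / r ^ 2))
  exact ⟨u, r, hr, by rw [hu]; field_simp⟩

/-- Clearing denominators in a congruence modulo four. -/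
theorem int_of_val (q : Pr L) (u : 𝓞 L) (c : L)
    (h : q.valuation L (c ^ 2 - u) ≤ q.valuation L 4) :
    ∃ c t d : 𝓞 L, t ∉ q.asIdeal ∧ c ^ 2 - u * t ^ 2 = 4 * d := by
  have h4 : q.valuation L 4 ≤ 1 := q.valuation_le_one (K := L) (4 : 𝓞 L)
  have hc : q.valuation L c ≤ 1 := by
    have h1 : q.valuation L (c ^ 2 - u + u) ≤ 1 :=
      Valuation.map_add_le _ (h.trans h4) (q.valuation_le_one u)
    rw [sub_add_cancel, map_pow] at h1
    exact (pow_le_one_iff two_ne_zero).1 h1
  have hd : q.valuation L ((c ^ 2 - u) / 4) ≤ 1 := by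
    rw [map_div₀]
    exact div_le_one_of_le₀ h zero_le
  obtain ⟨n, t, ht⟩ := q.exists_primeCompl_mul_eq_of_integer c hc
  obtain ⟨m, s, hs⟩ := q.exists_primeCompl_mul_eq_of_integer _ hd
  refine ⟨n * s, t * s, m * t ^ 2 * s, (t * s).2, RingOfIntegers.coe_injective ?_⟩
  simp only [map_sub, map_mul, map_pow, map_ofNat]
  rw [← ht, ← hs]
  change _ - (u : L) * _ = _
  ring

/-- A unit that is positive at the real places and a square modulo four is a square. -/
theorem sq_of_unr (h : Odd (classNumber L)) (u : (𝓞 L)ˣ)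
    (hp : ∀ φ : L →+* ℝ, 0 < φ ((u : 𝓞 L) : L))
    (h4 : ∀ q : Pr L, (2 : 𝓞 L) ∈ q.asIdeal →
      ∃ c : L, q.valuation L (c ^ 2 - ((u : 𝓞 L) : L)) ≤ q.valuation L 4) :
    IsSquare ((u : 𝓞 L) : L) := by
  by_contra hn
  obtain ⟨K, _, _, _, ⟨E⟩⟩ := exists_quad hn
  have hG := E.isGalois
  have hA : IsAbelianGalois L K :=
    { hG with
      is_comm := ⟨fun g k => by
        rcases E.aut_eq g with rfl | rfl
        · simp
        · rcases E.aut_eq k with rfl | rfl <;> simp⟩ }
  have hU : UnrO K (∅ : Finset (Pr L)) := fun Q _ => by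
    refine ((hFr L K).inert hG Q).2 fun g hg => (E.aut_eq g).resolve_right fun e => ?_
    subst e
    obtain ⟨c, t, d, ht, e⟩ : ∃ c t d : 𝓞 L, t ∉ (below L Q).asIdeal ∧
        c ^ 2 - u * t ^ 2 = 4 * d := by
      by_cases h2 : (2 : 𝓞 L) ∈ (below L Q).asIdeal
      · obtain ⟨c, hc⟩ := h4 _ h2
        exact int_of_val _ _ c hc
      · exact ⟨0, 2, -u, h2, by ring⟩
    have e1 : (algebraMap L K c) ^ 2 - E.rt ^ 2 * (algebraMap L K t) ^ 2 =
        4 * algebraMap L K d := by
      have := congrArg (fun z : 𝓞 L => algebraMap L K (z : L)) e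
      simp only [map_sub, map_mul, map_pow, map_ofNat] at this
      rw [E.sq]
      exact this
    have hi : IsIntegral ℤ ((algebraMap L K c + algebraMap L K t * E.rt) / 2) := by
      have hi1 : IsIntegral (𝓞 L) ((algebraMap L K c + algebraMap L K t * E.rt) / 2) := by
        refine ⟨Polynomial.X ^ 2 - Polynomial.C c * Polynomial.X + Polynomial.C d, ?_, ?_⟩
        · monicity!
        · simp only [Polynomial.eval₂_add, Polynomial.eval₂_sub, Polynomial.eval₂_mul,
            Polynomial.eval₂_pow, Polynomial.eval₂_X, Polynomial.eval₂_C]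
          change _ - algebraMap L K c * _ + algebraMap L K d = 0
          linear_combination (-1 / 4) * e1
      exact isIntegral_trans _ hi1
    obtain ⟨z, hz⟩ : ∃ z : 𝓞 K, (z : K) = (algebraMap L K c + algebraMap L K t * E.rt) / 2 :=
      ⟨⟨_, hi⟩, rfl⟩
    have h2 := Q.asIdeal.pow_mem_of_mem (hg z) 2 two_pos
    have h3 : (E.tau • z - z) ^ 2 = algebraMap (𝓞 L) (𝓞 K) (t ^ 2 * u) := by
      apply RingOfIntegers.coe_injective
      rw [map_pow, map_sub]
      change (E.tau (z : K) - (z : K)) ^ 2 = algebraMap L K ((t ^ 2 * u : 𝓞 L) : L)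
      have e2 : ((t ^ 2 * u : 𝓞 L) : L) = (t : L) ^ 2 * ((u : 𝓞 L) : L) := by push_cast; rfl
      rw [hz, map_div₀, E.tau_mk, map_ofNat, e2, map_mul (algebraMap L K) _ ((u : 𝓞 L) : L),
        map_pow, ← E.sq]
      ring
    rw [h3] at h2
    have h5 : t ^ 2 * u ∈ (below L Q).asIdeal := h2
    rw [Ideal.mul_unit_mem_iff_mem _ u.isUnit] at h5
    exact ht ((below L Q).isPrime.mem_of_pow_mem 2 h5)
  have hR : ∀ φ : L →+* ℝ, ¬ RamR K φ := fun φ hφ => by
    refine ((gal L K).ramR_iff hG φ).1 hφ fun w hw => (E.iact_ne_iff w).1 fun e => ?_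
    obtain ⟨ψ, -, h2⟩ := (E.iact_eq_iff w).1 e
    exact h2.not_gt (hp ψ)
  obtain ⟨N, hN⟩ := hRec L K ∅ hU
  have hF : ∀ q : Pr L, fr L K q = 1 := fun q => by
    have h1 := (prin L).nsmul_index_mem (Finsupp.single q (1 : ℤ))
    obtain ⟨a, ha, e⟩ := mem_prin.1 h1
    have h2 := hN a ⟨ha, by simp⟩ fun φ hφ => absurd hφ (hR φ)
    obtain ⟨k, hk⟩ := h
    rw [e, index_prin, hk, Finsupp.smul_single, ev_single] at h2
    rcases E.aut_eq (fr L K q) with h3 | h3
    · exact h3
    · have h5 : fr L K q ^ 2 = 1 := by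
        rw [h3, sq]
        exact AlgEquiv.ext fun z => E.tau_tau z
      have h6 : fr L K q ^ (2 * k + 1) = 1 := by
        rw [← zpow_natCast]
        simpa using h2
      rwa [pow_succ, pow_mul, h5, one_pow, one_mul] at h6
  have h7 := (hSpl L K).gen hA ∅ hU ⊤
  have h8 : E.tau ∈ (⊥ : Subgroup (K ≃ₐ[L] K)) := by
    refine (Subgroup.closure_le _).2 ?_ (h7.symm ▸ Subgroup.mem_top _)
    rintro _ ⟨q, -, rfl⟩
    exact hF q
  exact E.tau_ne_one h8

end Pool.Agent.C17
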