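import Pool.Agent.Lib.MP_02f36d_nt.C17.Defs
import Pool.Agent.Lib.MP_02f36d_nt.C17.Rk
import Pool.Agent.Lib.MP_02f36d_nt.C17.NoUnr

/-! Two-descent on `y ^ 2 = x (x + 1) (x - 16)` over complex cubic fields of odd class number. -/

set_option autoImplicit false

namespace Pool.Agent.C17

open NumberField IsDedekindDomain Pool.Agent.Stark

namespace A1

section Loc

variable {k : Type} [Field k] [CharZero k] {w : Valuation k (WithZero (Multiplicative ℤ))}

theorem ord_sq_sub {z : k} (h : z ^ 2 - 1 ≠ 0) :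
    Even (ord w (z ^ 2 - 1)) ∨ 2 * ord w 2 ≤ ord w (z ^ 2 - 1) := by
  have e : z ^ 2 - 1 = (z - 1) * (z - 1 + 2) := by ring
  rw [e] at h ⊢
  have h1 := left_ne_zero_of_mul h
  have h2 := right_ne_zero_of_mul h
  rw [ord_mul h1 h2]
  by_cases h3 : ord w (z - 1) < ord w 2
  · rw [(ord_add_of_lt h1 two_ne_zero h3).2]
    exact Or.inl ⟨_, rfl⟩
  · have := min_le_ord_add (w := w) h1 two_ne_zero h2
    right
    omega

theorem ord_16 : ord w (16 : k) = 4 * ord w 2 := by
  rw [show (16 : k) = 2 ^ 4 by norm_num, ord_pow]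
  rfl

theorem ne_of {x y : k} (hy : y ≠ 0) (e : y ^ 2 = x * (x + 1) * (x - 16)) :
    x ≠ 0 ∧ x + 1 ≠ 0 ∧ x - 16 ≠ 0 := by
  have h := pow_ne_zero 2 hy
  rw [e] at h
  exact ⟨left_ne_zero_of_mul (left_ne_zero_of_mul h), right_ne_zero_of_mul (left_ne_zero_of_mul h),
    right_ne_zero_of_mul h⟩

theorem ord_eqn {x y : k} (hy : y ≠ 0) (e : y ^ 2 = x * (x + 1) * (x - 16)) :
    2 * ord w y = ord w x + ord w (x + 1) + ord w (x - 16) := by
  obtain ⟨h0, h1, h2⟩ := ne_of hy e
  rw [← ord_mul h0 h1, ← ord_mul (mul_ne_zero h0 h1) h2, ← e, ord_pow]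
  rfl

theorem even_x (h2 : 0 ≤ ord w 2) {x y : k} (hy : y ≠ 0) (e : y ^ 2 = x * (x + 1) * (x - 16)) :
    Even (ord w x) := by
  obtain ⟨h0, h1, h3⟩ := ne_of hy e
  have h4 := ord_eqn (w := w) hy e
  have h16 := ord_16 (w := w)
  have n16 : (-16 : k) ≠ 0 := by norm_num
  have a1 : ord w x < 4 * ord w 2 → ord w (x - 16) = ord w x := fun h => by
    rw [sub_eq_add_neg]
    exact (ord_add_of_lt h0 n16 (by rw [ord_neg]; omega)).2
  have a2 : 4 * ord w 2 < ord w x → ord w (x - 16) = 4 * ord w 2 := fun h => by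
    rw [sub_eq_neg_add, (ord_add_of_lt n16 h0 (by rw [ord_neg]; omega)).2, ord_neg, h16]
  have a3 : ord w x < 0 → ord w (x + 1) = ord w x := fun h =>
    (ord_add_of_lt h0 one_ne_zero (by rw [ord_one]; omega)).2
  have a4 : 0 < ord w x → ord w (x + 1) = 0 := fun h => by
    rw [add_comm, (ord_add_of_lt one_ne_zero h0 (by rw [ord_one]; omega)).2, ord_one]
  rw [Int.even_iff]
  by_contra hodd
  have b1 : 0 < ord w x := by omega
  have b2 : ord w x < 4 * ord w 2 := by omega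
  have c0 : (-16 / x : k) ≠ 0 := div_ne_zero n16 h0
  have c1 : ord w (-16 / x) = 4 * ord w 2 - ord w x := by rw [ord_div n16 h0, ord_neg, h16]
  have c2 : (y / x) ^ 2 - 1 = (x - 16) + -16 / x := by
    field_simp
    linear_combination e
  have c3 := a1 b2
  rcases lt_or_gt_of_ne (show ord w x ≠ 2 * ord w 2 by omega) with h | h
  · obtain ⟨d1, d2⟩ := ord_add_of_lt (w := w) h3 c0 (by omega)
    have := ord_sq_sub (w := w) (c2 ▸ d1)
    rw [c2, d2, Int.even_iff] at this
    omega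
  · obtain ⟨d1, d2⟩ := ord_add_of_lt (w := w) c0 h3 (by omega)
    rw [add_comm] at d1 d2
    have := ord_sq_sub (w := w) (c2 ▸ d1)
    rw [c2, d2, Int.even_iff] at this
    omega

theorem even_x1 (h2 : 0 ≤ ord w 2) (h17 : ord w 17 = 0) {x y : k} (hy : y ≠ 0)
    (e : y ^ 2 = x * (x + 1) * (x - 16)) : Even (ord w (x + 1)) := by
  obtain ⟨h0, h1, h3⟩ := ne_of hy e
  have h4 := ord_eqn (w := w) hy e
  have h5 := even_x h2 hy e
  have n1 : (-1 : k) ≠ 0 := by norm_num
  have n17 : (-17 : k) ≠ 0 := by norm_num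
  rcases lt_trichotomy (ord w (x + 1)) 0 with h | h | h
  · have := (ord_add_of_lt (w := w) h1 n1 (by rw [ord_neg, ord_one]; exact h)).2
    rwa [← this, add_neg_cancel_right]
  · rw [h]
    exact Even.zero
  · have a1 := (ord_add_of_lt (w := w) n1 h1 (by rw [ord_neg, ord_one]; exact h)).2
    have a2 := (ord_add_of_lt (w := w) n17 h1 (by rw [ord_neg, h17]; exact h)).2
    rw [show -1 + (x + 1) = x by ring, ord_neg, ord_one] at a1
    rw [show -17 + (x + 1) = x - 16 by ring, ord_neg, h17] at a2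
    exact ⟨ord w y, by omega⟩

/-- `z` is a square times an element congruent to one modulo four. -/
def S4 (w : Valuation k (WithZero (Multiplicative ℤ))) (z : k) : Prop :=
  ∃ c m : k, z = c ^ 2 * m ∧ w (m - 1) ≤ w 4

theorem s4_x1 (h4 : w 4 ≤ 1) {x y : k} (hy : y ≠ 0) (e : y ^ 2 = x * (x + 1) * (x - 16)) :
    S4 w (x + 1) := by
  obtain ⟨h0, h1, h3⟩ := ne_of hy e
  by_cases h : w x ≤ w 4
  · exact ⟨1, x + 1, by ring, by rwa [add_sub_cancel_right]⟩
  · rw [not_le] at h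
    have h16 : w 16 = w 4 * w 4 := by rw [← map_mul]; norm_num
    have h5 : w 16 < w x := by
      rw [h16]
      exact (mul_le_of_le_one_left' h4).trans_lt h
    have h6 : w (x - 16) = w x := w.map_sub_eq_of_lt_left h5
    refine ⟨y / x, x / (x - 16), ?_, ?_⟩
    · field_simp
      linear_combination -e
    · rw [show x / (x - 16) - 1 = 16 / (x - 16) by field_simp; ring, map_div₀, h6, h16,
        div_le_iff₀ (zero_le.trans_lt h)]
      exact mul_le_mul' le_rfl h.le

theorem S4.mul17 (h4 : w 4 ≤ 1) {z : k} (h : S4 w z) : S4 w (z * 17) := by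
  obtain ⟨c, m, e, hm⟩ := h
  refine ⟨c, m * 17, by rw [e]; ring, ?_⟩
  have h16 : w 16 ≤ w 4 := by
    rw [show (16 : k) = 4 * 4 by norm_num, map_mul]
    exact mul_le_of_le_one_left' h4
  have h17 : w 17 ≤ 1 := by
    rw [show (17 : k) = 16 + 1 by norm_num]
    exact w.map_add_le (h16.trans h4) w.map_one.le
  rw [show m * 17 - 1 = (m - 1) * 17 + 16 by ring]
  refine w.map_add_le ?_ h16
  rw [map_mul]
  exact (mul_le_of_le_one_right' h17).trans hm

omit [CharZero k] in
theorem S4.unit (h4 : w 4 < 1) {u r : k} (hr : r ≠ 0) (hu : w u = 1) (h : S4 w (u * r ^ 2)) :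
    ∃ c : k, w (c ^ 2 - u) ≤ w 4 := by
  obtain ⟨c, m, e, hm⟩ := h
  have h1 : w m = 1 := by
    rw [show m = 1 + (m - 1) by ring]
    exact w.map_one_add_of_lt (hm.trans_lt h4)
  have h2 : u = (c / r) ^ 2 * m := by
    field_simp
    linear_combination e
  have h3 : w ((c / r) ^ 2) = 1 := by
    rw [h2, map_mul, h1, mul_one] at hu
    exact hu
  refine ⟨c / r, ?_⟩
  rw [show (c / r) ^ 2 - u = -((c / r) ^ 2 * (m - 1)) by rw [h2]; ring, w.map_neg, map_mul, h3,
    one_mul]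
  exact hm

end Loc

variable {L : Type} [Field L] [NumberField L]

theorem places (h3 : Module.finrank ℚ L = 3) (hd : discr L < 0) :
    InfinitePlace.nrRealPlaces L = 1 ∧ InfinitePlace.nrComplexPlaces L = 1 := by
  have h1 := InfinitePlace.card_add_two_mul_card_eq_rank L
  have h2 := sign_discr L
  have h4 : InfinitePlace.nrComplexPlaces L ≠ 0 := fun h => by
    rw [h, Int.sign_eq_neg_one_of_neg hd] at h2
    omega
  omega

theorem rank_eq (h3 : Module.finrank ℚ L = 3) (hd : discr L < 0) : Units.rank L = 1 := by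
  obtain ⟨h1, h2⟩ := places h3 hd
  rw [Units.rank, InfinitePlace.card_eq_nrRealPlaces_add_nrComplexPlaces, h1, h2]

/-- Units modulo squares. -/
theorem units_cls (h3 : Module.finrank ℚ L = 3) (hd : discr L < 0) :
    ∃ ε : L, ε ≠ 0 ∧ ∀ u : (𝓞 L)ˣ, ∃ s : L, (s = 1 ∨ s = -1) ∧ ∃ j : Fin 2,
      IsSquare (((u : 𝓞 L) : L) * (ε ^ (j : ℕ) * s)) := by
  have hr := rank_eq h3 hd
  have hs : Subsingleton (Fin (Units.rank L)) := by rw [hr]; infer_instance
  let i : Fin (Units.rank L) := ⟨0, by omega⟩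
  refine ⟨Units.fundSystem L i, Units.coe_ne_zero _, fun u => ?_⟩
  obtain ⟨⟨ζ, n⟩, e, -⟩ := Units.exist_unique_eq_mul_prod L u
  rw [Fintype.prod_subsingleton _ i] at e
  have e0 : ((Units.fundSystem L i : 𝓞 L) : L) ≠ 0 := Units.coe_ne_zero _
  have e1 : ((u : 𝓞 L) : L) = (((ζ : (𝓞 L)ˣ) : 𝓞 L) : L) *
      ((Units.fundSystem L i : 𝓞 L) : L) ^ n i := by
    rw [e]
    exact (Units.coe_mul _ _).trans (congrArg _ (Units.coe_zpow _ _))
  have hz : (((ζ : (𝓞 L)ˣ) : 𝓞 L) : L) = 1 ∨ (((ζ : (𝓞 L)ˣ) : 𝓞 L) : L) = -1 := by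
    rcases Units.torsion_eq_one_or_neg_one_of_odd_finrank (h3 ▸ (by decide : Odd 3)) ζ with h | h
    · left
      rw [h]
      simp
    · right
      rw [h]
      simp
  refine ⟨_, hz, ?_⟩
  rw [e1]
  change ∃ j : Fin 2, IsSquare (_ * (((Units.fundSystem L i : 𝓞 L) : L) ^ (j : ℕ) * _))
  generalize ((Units.fundSystem L i : 𝓞 L) : L) = ε at e0
  generalize (((ζ : (𝓞 L)ˣ) : 𝓞 L) : L) = s
  rcases Int.even_or_odd' (n i) with ⟨m, hm | hm⟩ <;> rw [hm]
  · refine ⟨0, s * ε ^ m, ?_⟩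
    rw [two_mul, zpow_add₀ e0]
    simp only [Fin.val_zero, pow_zero]
    ring
  · refine ⟨1, s * ε ^ m * ε, ?_⟩
    rw [zpow_add₀ e0, two_mul, zpow_add₀ e0]
    simp only [Fin.val_one, pow_one, zpow_one]
    ring

theorem og_two (q : Pr L) : 0 ≤ ord (q.valuation L) 2 := og_nonneg q 2

theorem cls_x (hh : Odd (classNumber L)) {x y : L} (hy : y ≠ 0)
    (e : y ^ 2 = x * (x + 1) * (x - 16)) :
    ∃ (u : (𝓞 L)ˣ) (r : L), r ≠ 0 ∧ x = ((u : 𝓞 L) : L) * r ^ 2 :=
  unit_of_even hh (ne_of hy e).1 fun q => even_x (og_two q) hy e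

theorem sq_of_s4 (hh : Odd (classNumber L)) {z : L} (hz : z ≠ 0) (h1 : ∀ q : Pr L, Even (og q z))
    (h2 : ∀ φ : L →+* ℝ, 0 < φ z) (h4 : ∀ q : Pr L, S4 (q.valuation L) z) : IsSquare z := by
  obtain ⟨u, r, hr, rfl⟩ := unit_of_even hh hz h1
  refine (sq_of_unr hh u (fun φ => ?_) fun q hq => ?_).mul ⟨r, sq r⟩
  · have := h2 φ
    rw [map_mul, map_pow] at this
    exact lt_of_not_ge fun h => this.not_ge (mul_nonpos_of_nonpos_of_nonneg h (sq_nonneg _))
  · refine (h4 q).unit ?_ hr ?_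
    · refine (q.valuation_lt_one_iff_mem (K := L) (4 : 𝓞 L)).2 ?_
      rw [show (4 : 𝓞 L) = 2 * 2 by norm_num]
      exact q.asIdeal.mul_mem_left _ hq
    · rw [val_eq_exp (Units.coe_ne_zero u)]
      have := (isU_iff.2 ⟨u, rfl⟩).2 q
      rw [og] at this
      rw [this]
      rfl

theorem cls_x1 (h17 : (Ideal.span {(17 : 𝓞 L)}).IsPrime) (hh : Odd (classNumber L)) {x y : L}
    (hy : y ≠ 0) (e : y ^ 2 = x * (x + 1) * (x - 16)) :
    IsSquare ((x + 1) * 1) ∨ IsSquare ((x + 1) * 17) := by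
  obtain ⟨h0, h1, h3⟩ := ne_of hy e
  have n17 : (17 : 𝓞 L) ≠ 0 := by norm_num
  have m17 : (17 : L) ≠ 0 := by norm_num
  let p : Pr L := ⟨_, h17, by simp⟩
  have a1 : og p 17 = 1 := by
    have : p.valuation L 17 = WithZero.exp (-1 : ℤ) :=
      (p.valuation_of_algebraMap (K := L) 17).trans (p.intValuation_singleton n17 rfl)
    rw [og, ord, this]
    rfl
  have a2 : ∀ q : Pr L, q ≠ p → og q 17 = 0 := fun q hq => by
    refine le_antisymm (not_lt.1 fun h => hq (HeightOneSpectrum.ext ?_)) (og_nonneg q 17)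
    have := (og_pos_iff q n17).1 h
    exact (p.isMaximal.eq_of_le q.isPrime.ne_top ((Ideal.span_singleton_le_iff_mem _).2 this)).symm
  have a3 : ∀ q : Pr L, q ≠ p → Even (og q (x + 1)) := fun q hq =>
    even_x1 (og_two q) (a2 q hq) hy e
  have a4 : ∀ φ : L →+* ℝ, 0 < φ (x + 1) := fun φ => by
    have b1 := congrArg φ e
    have b2 : 0 < φ y ^ 2 := pow_pos (abs_pos.2 ((map_ne_zero φ).2 hy)) 2 |>.trans_eq (sq_abs _)
    simp only [map_mul, map_pow, map_add, map_sub, map_one, map_ofNat] at b1 ⊢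
    by_contra h
    rw [not_lt] at h
    have b3 : 0 ≤ φ x * (φ x - 16) := mul_nonneg_of_nonpos_of_nonpos (by linarith) (by linarith)
    nlinarith [mul_nonneg b3 (neg_nonneg.2 h)]
  have a5 : ∀ q : Pr L, q.valuation L 4 ≤ 1 := fun q => q.valuation_le_one (K := L) (4 : 𝓞 L)
  by_cases hp : Even (og p (x + 1))
  · left
    rw [mul_one]
    refine sq_of_s4 hh h1 (fun q => ?_) a4 fun q => s4_x1 (a5 q) hy e
    by_cases hq : q = p
    · rwa [hq]
    · exact a3 q hq
  · right
    refine sq_of_s4 hh (mul_ne_zero h1 m17) (fun q => ?_) (fun φ => ?_)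
      fun q => (s4_x1 (a5 q) hy e).mul17 (a5 q)
    · rw [SUnitAux.og_mul q h1 m17]
      by_cases hq : q = p
      · rw [hq, a1]
        exact Int.even_add_one.2 hp
      · rw [a2 q hq, add_zero]
        exact a3 q hq
    · rw [map_mul, map_ofNat]
      exact mul_pos (a4 φ) (by norm_num)

open Rk WeierstrassCurve WeierstrassCurve.Affine WeierstrassCurve.Affine.Point

instance ell {k : Type} [Field k] [CharZero k] : (cv (-15 : k) (-16)).IsElliptic := by
  refine ⟨isUnit_iff_ne_zero.2 ?_⟩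
  have : (cv (-15 : k) (-16)).Δ = 1088 ^ 2 := by
    simp [cv, Δ, b₂, b₄, b₆, b₈]
    norm_num
  rw [this]
  norm_num

variable [DecidableEq L]

/-- The descent class of `P` is `(b, c)`. -/
def Has (P : G (-15 : L) (-16)) (b c : L) : Prop :=
  IsSquare (al 0 P * b) ∧ IsSquare (al (-1) P * c)

theorem Has.add {P Q : G (-15 : L) (-16)} {b c u v : L} (h1 : Has P b c) (h2 : Has Q u v) :
    Has (P + Q) (b * u) (c * v) :=
  ⟨al_mul (by ring) (by norm_num) h1.1 h2.1, al_mul (by ring) (by norm_num) h1.2 h2.2⟩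

omit [NumberField L] in
theorem Has.sq {P : G (-15 : L) (-16)} {b c u v : L} (hu : u ≠ 0) (hv : v ≠ 0)
    (h : Has P (b * (u * u)) (c * (v * v))) : Has P b c := by
  obtain ⟨⟨r, hr⟩, ⟨s, hs⟩⟩ := h
  exact ⟨⟨r / u, by field_simp; linear_combination hr⟩,
    ⟨s / v, by field_simp; linear_combination hs⟩⟩

omit [NumberField L] in
theorem tors {P : G (-15 : L) (-16)} (h : P + P = 0) :
    P ∈ AddCommGroup.torsion (G (-15 : L) (-16)) :=
  isOfFinAddOrder_iff_nsmul_eq_zero.2 ⟨2, two_pos, by rw [two_nsmul, h]⟩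

omit [NumberField L] in
theorem two_tors {x : L} (h : (cv (-15 : L) (-16)).toAffine.Nonsingular x 0) :
    (.some x 0 h : G (-15 : L) (-16)) + .some x 0 h = 0 :=
  add_self_of_Y_eq (by rw [negY_cv, _root_.neg_zero])

omit [NumberField L] [DecidableEq L] in
theorem eqn' {x y : L} (h : (cv (-15 : L) (-16)).toAffine.Nonsingular x y) :
    y ^ 2 = x * (x + 1) * (x - 16) := by
  linear_combination eqn h

theorem mem_H {P : G (-15 : L) (-16)} (h : Has P 1 1) :
    P ∈ (nsmulAddMonoidHom (α := G (-15 : L) (-16)) 2).range ⊔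
      AddCommGroup.torsion (G (-15 : L) (-16)) := by
  match P, h with
  | 0, _ => exact zero_mem _
  | .some x y h, H =>
    by_cases hy : y = 0
    · subst hy
      exact AddSubgroup.mem_sup_right (tors (two_tors h))
    obtain ⟨h0, h1, -⟩ := ne_of hy (eqn' h)
    obtain ⟨a1, a2⟩ := H
    rw [al_some, if_neg h0, sub_zero, mul_one] at a1
    rw [al_some, if_neg fun e => h1 (by rw [e]; ring), mul_one] at a2
    obtain ⟨Q, hQ⟩ := half (p := -1) (q := 16) (by norm_num) (by norm_num) (by norm_num)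
      (by norm_num) (by norm_num) h hy a1 a2
    exact AddSubgroup.mem_sup_left ⟨Q, by rw [nsmulAddMonoidHom_apply, two_nsmul, hQ]⟩

theorem cls (h17 : (Ideal.span {(17 : 𝓞 L)}).IsPrime) (hh : Odd (classNumber L)) {ε : L}
    (hε : ∀ u : (𝓞 L)ˣ, ∃ s : L, (s = 1 ∨ s = -1) ∧ ∃ j : Fin 2,
      IsSquare (((u : 𝓞 L) : L) * (ε ^ (j : ℕ) * s))) (P : G (-15 : L) (-16)) :
    ∃ j : Fin 2, ∃ t ∈ AddCommGroup.torsion (G (-15 : L) (-16)), Has (P + t) (ε ^ (j : ℕ)) 1 := by
  have triv : ∀ P : G (-15 : L) (-16), P + P = 0 → ∃ j : Fin 2,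
      ∃ t ∈ AddCommGroup.torsion (G (-15 : L) (-16)), Has (P + t) (ε ^ (j : ℕ)) 1 := fun P h =>
    ⟨0, P, tors h, by rw [h]; exact ⟨⟨1, by simp [al_zero]⟩, ⟨1, by simp [al_zero]⟩⟩⟩
  have t0 : (cv (-15 : L) (-16)).toAffine.Nonsingular 0 0 := mkNS (by ring)
  have t2 : (cv (-15 : L) (-16)).toAffine.Nonsingular 16 0 := mkNS (by ring)
  have s0 : Has (.some 0 0 t0) (-1) 1 := by
    refine ⟨⟨4, ?_⟩, ⟨1, ?_⟩⟩
    · rw [al_some, if_pos rfl]; ring
    · rw [al_some, if_neg (by norm_num)]; ring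
  have s2 : Has (.some 16 0 t2) 1 17 := by
    refine ⟨⟨4, ?_⟩, ⟨17, ?_⟩⟩
    · rw [al_some, if_neg (by norm_num)]; ring
    · rw [al_some, if_neg (by norm_num)]; ring
  match P with
  | 0 => exact triv 0 (add_zero _)
  | .some x y h =>
    by_cases hy : y = 0
    · subst hy
      exact triv _ (two_tors h)
    have e := eqn' h
    obtain ⟨h0, h1, -⟩ := ne_of hy e
    obtain ⟨u, r, hr, hx⟩ := cls_x hh hy e
    obtain ⟨s, hs, j, hj⟩ := hε u
    have a1 : IsSquare (al 0 (.some x y h : G (-15 : L) (-16)) * (ε ^ (j : ℕ) * s)) := by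
      rw [al_some, if_neg h0, sub_zero, hx, mul_right_comm]
      exact hj.mul ⟨r, sq r⟩
    have a2 : al (-1) (.some x y h : G (-15 : L) (-16)) = x + 1 := by
      rw [al_some, if_neg fun e => h1 (by rw [e]; ring), sub_neg_eq_add]
    have a3 := cls_x1 h17 hh hy e
    rw [← a2] at a3
    refine ⟨j, ?_⟩
    rcases hs with rfl | rfl <;> rcases a3 with a3 | a3
    · exact ⟨0, zero_mem _, by rw [add_zero]; exact ⟨by rwa [mul_one] at a1, a3⟩⟩
    · refine ⟨_, tors (two_tors t2), Has.sq one_ne_zero (v := 17) (by norm_num) ?_⟩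
      have := Has.add ⟨a1, a3⟩ s2
      simpa only [mul_one, one_mul] using this
    · refine ⟨_, tors (two_tors t0), ?_⟩
      have := Has.add ⟨a1, a3⟩ s0
      simpa only [mul_one, one_mul, mul_neg, neg_neg] using this
    · refine ⟨_, add_mem (tors (two_tors t0)) (tors (two_tors t2)),
        Has.sq one_ne_zero (v := 17) (by norm_num) ?_⟩
      have := (Has.add ⟨a1, a3⟩ s0).add s2
      rw [add_assoc] at this
      simpa only [mul_one, one_mul, mul_neg, neg_neg] using this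

end A1

open A1 Rk in
/-- The Mordell-Weil group is finitely generated of rank at most one. -/
theorem a1 {L : Type} [Field L] [NumberField L] [DecidableEq L] (h3 : Module.finrank ℚ L = 3)
    (hd : discr L < 0) (h17 : (Ideal.span {(17 : 𝓞 L)}).IsPrime) (hh : Odd (classNumber L)) :
    Module.Finite ℤ (EL L).toAffine.Point ∧ Module.finrank ℤ (EL L).toAffine.Point ≤ 1 ∧
      Finite (AddCommGroup.torsion (EL L).toAffine.Point) := by
  obtain ⟨ε, h0, hε⟩ := units_cls h3 hd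
  choose j t ht h1 using cls h17 hh hε
  let H := (nsmulAddMonoidHom (α := G (-15 : L) (-16)) 2).range ⊔
    AddCommGroup.torsion (G (-15 : L) (-16))
  have hi : Function.Injective fun q : G (-15 : L) (-16) ⧸ H => j q.out := by
    intro p q e
    have e' : j p.out = j q.out := e
    have h3 : p.out + t p.out + (q.out + t q.out) ∈ H := by
      refine mem_H (Has.sq (pow_ne_zero (j p.out) h0) one_ne_zero ?_)
      have := (h1 p.out).add (h1 q.out)
      rw [← e'] at this
      simpa only [one_mul] using this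
    rw [← p.out_eq', ← q.out_eq', QuotientAddGroup.eq]
    have h4 : 2 • p.out ∈ H := AddSubgroup.mem_sup_left ⟨_, rfl⟩
    have h5 := sub_mem (sub_mem (sub_mem h3 h4) (AddSubgroup.mem_sup_right (ht p.out)))
      (AddSubgroup.mem_sup_right (ht q.out))
    rwa [show p.out + t p.out + (q.out + t q.out) - 2 • p.out - t p.out - t q.out =
      -p.out + q.out by abel] at h5
  have := Finite.of_injective _ hi
  refine rank_le (a := (-15 : L)) (b := -16) AddSubgroup.index_ne_zero_of_finite ?_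
  have h3 := Nat.card_le_card_of_injective _ hi
  rwa [Nat.card_eq_fintype_card (α := Fin 2), Fintype.card_fin] at h3

/-- The rank is one as soon as there is a point of infinite order. -/
theorem rank_one {L : Type} [Field L] [NumberField L] [DecidableEq L] (hF : Fam L)
    (h : ∃ P : (EL L).toAffine.Point, ¬ IsOfFinAddOrder P) :
    Module.finrank ℤ (EL L).toAffine.Point = 1 := by
  obtain ⟨h1, h2, -⟩ := a1 hF.1 hF.2.1 hF.2.2.2.1 hF.2.2.2.2
  obtain ⟨P, hP⟩ := h
  refine le_antisymm h2 (Nat.pos_of_ne_zero fun h => hP ?_)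
  obtain ⟨k, hk⟩ := Module.finrank_eq_zero_iff.1 h P
  exact isOfFinAddOrder_iff_zsmul_eq_zero.2 ⟨k, hk⟩

/-- The rank is one as soon as there are infinitely many points. -/
theorem rank_one_of_infinite {L : Type} [Field L] [NumberField L] [DecidableEq L] (hF : Fam L)
    (h : Infinite (EL L).toAffine.Point) : Module.finrank ℤ (EL L).toAffine.Point = 1 := by
  obtain ⟨-, -, h2⟩ := a1 hF.1 hF.2.1 hF.2.2.2.1 hF.2.2.2.2
  refine rank_one hF (not_forall.1 fun h1 => not_finite_iff_infinite.2 h ?_)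
  exact Finite.of_surjective (Subtype.val : AddCommGroup.torsion (EL L).toAffine.Point → _)
    fun P => ⟨⟨P, h1 P⟩, rfl⟩

end Pool.Agent.C17
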