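import Pool.Agent.Lib.MP_02f36d_nt.C17.St
import Pool.Agent.Lib.MP_d6ddbd_nt.GF.Gen

/-! The reciprocity law for singular moduli and the cubic class character. -/

open NumberField
open scoped Pointwise
open Pool.Agent.Lib.MP_9177b7_ag.CM
open Pool.Agent.Lib.MP_d6ddbd_nt.GF (cheb frob_sq)

noncomputable section

namespace Pool.Agent.C17

namespace CmP

variable {L : Type} [Field L] [NumberField L] {e : ZMod 3 → L →+* ℂ} {δ : ℂ}
  {χ : Submodule ℤ ℂ → ZMod 3}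

/-- `f` shifts the character by `h`. -/
def Act (δ : ℂ) (χ : Submodule ℤ ℂ → ZMod 3) (f : ℂ → ℂ) (h : ZMod 3) : Prop :=
  ∀ Λ Λ', Stb δ Λ → Stb δ Λ' → f (jL Λ) = jL Λ' → χ Λ' = χ Λ + h

theorem disc (he : Emb e δ) : (1 : ℤ) ^ 2 - 4 * ((1 - discr L) / 4) = discr L := by
  have := he.mod4
  omega

theorem hom (he : Emb e δ) : om δ ^ 2 = (1 : ℤ) * om δ - ((1 - discr L) / 4 : ℤ) := by
  have h1 : ((1 : ℤ) : ℂ) ^ 2 - 4 * ((1 - discr L) / 4 : ℤ) = discr L := by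
    exact_mod_cast disc he
  have h2 := he.sq
  rw [om]
  push_cast at h1 ⊢
  linear_combination h2 / 4 - h1 / 4

theorem him (he : Emb e δ) : (om δ).im ≠ 0 := by
  have := he.im
  simp only [om, Complex.div_ofNat_im, Complex.add_im, Complex.one_im]
  linarith

theorem chi_eq (hc : Lc e δ χ) {Λ Λ' : Submodule ℤ ℂ} (h : Stb δ Λ) (h' : IsLat Λ')
    (e0 : jL Λ = jL Λ') : χ Λ' = χ Λ := by
  obtain ⟨c, h0, rfl⟩ := hyp.eq_smul_of_jL_eq h.1 h' e0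
  exact hc.smul Λ c h h0

theorem Act.comp (he : Emb e δ) {σ : ℂ ≃+* ℂ} {g : ℂ → ℂ} {a b : ZMod 3} (h1 : Act δ χ σ a)
    (h2 : Act δ χ g b) : Act δ χ (g ∘ σ) (a + b) := fun Λ Λ' k1 k2 e0 => by
  obtain ⟨M, c1, c2, c3⟩ := hyp.map_mem_Jset (hom he) (him he) (σ : ℂ →+* ℂ)
    (x := jL Λ) ⟨Λ, k1.1, k1.2, rfl⟩
  have c4 : σ (jL Λ) = jL M := c3
  rw [h2 M Λ' ⟨c1, c2⟩ k2 (by rw [← c4]; exact e0), h1 Λ M k1 ⟨c1, c2⟩ c4, add_assoc]

theorem Act.iterate (he : Emb e δ) (hc : Lc e δ χ) {φ : ℂ ≃+* ℂ} {a : ZMod 3}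
    (h : Act δ χ φ a) (k : ℕ) : Act δ χ φ^[k] (k * a) := by
  induction k with
  | zero => exact fun Λ Λ' k1 k2 e0 => by simpa using chi_eq hc k1 k2.1 e0
  | succ k ih =>
    rw [Function.iterate_succ, show ((k + 1 : ℕ) : ZMod 3) * a = a + k * a by push_cast; ring]
    exact h.comp he ih

theorem Act.uniq (he : Emb e δ) {σ : ℂ ≃+* ℂ} {a b : ZMod 3} (h1 : Act δ χ σ a)
    (h2 : Act δ χ σ b) : a = b := by
  have k1 : Stb δ (sp 1 (om δ)) := ⟨isLat_ord (him he), smul_ord_le (hom he)⟩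
  obtain ⟨M, c1, c2, c3⟩ := hyp.map_mem_Jset (hom he) (him he) (σ : ℂ →+* ℂ)
    (x := jL (sp 1 (om δ))) ⟨_, k1.1, k1.2, rfl⟩
  exact add_left_cancel ((h1 _ M k1 ⟨c1, c2⟩ c3).symm.trans (h2 _ M k1 ⟨c1, c2⟩ c3))

theorem sh_iterate {φ : ℂ ≃+* ℂ} {a : ZMod 3} (h : Sh e φ a) (k : ℕ) (i : ZMod 3) (x : L) :
    φ^[k] (e i x) = e (i + k * a) x := by
  induction k with
  | zero => simp
  | succ k ih =>
    rw [Function.iterate_succ_apply', ih, h]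
    congr 2
    push_cast
    ring

theorem sh_trans {σ τ : ℂ ≃+* ℂ} {a b : ZMod 3} (h1 : Sh e σ a) (h2 : Sh e τ b) :
    Sh e (σ.trans τ) (a + b) := fun i x => by
  rw [RingEquiv.trans_apply, h1, h2, add_assoc]

theorem pm (he : Emb e δ) (hc : Lc e δ χ) {σ : ℂ ≃+* ℂ} {a : ZMod 3} (hσ : Sh e σ a) :
    Act δ χ σ a ∨ Act δ χ σ (-a) := by
  have hω := hom he
  have hi := him he
  obtain ⟨J₀, f1, f2, f3⟩ := hc.frob
  have hsep : ∀ q : ZMod 3 × ZMod 3, ∃ x : L, e q.1 x = e q.2 x → q.1 = q.2 := fun q => by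
    by_contra c
    push Not at c
    exact (c 0).2 (he.inj (RingHom.ext fun x => (c x).1))
  choose θ hθ using hsep
  have hδ : δ ^ 2 = (discr L : ℤ) := he.sq
  have hD : discr L ≠ 0 := by have := he.big; omega
  have hal : IsAlgebraic ℚ δ := IsAlgebraic.of_pow two_pos (hδ ▸ isAlgebraic_intCast _)
  let J : Set ℂ := ({δ, -δ} ∪ Jset (om δ)) ∪ (J₀ ∪ Set.range fun q => e 0 (θ q))
  obtain ⟨l, hl, hlM, φ, A, P, hP, hprime, hJ, hζ, h6, hlP, hfrob, hinj, ⟨k, hk⟩, ⟨k', hk'⟩⟩ :=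
    cheb J (((Set.toFinite _).union (hyp.finite_Jset hi)).union (f1.union (Set.finite_range _))) (by
      rintro x (((rfl | rfl) | hx) | hx | ⟨q, rfl⟩)
      · exact hal
      · exact hal.neg
      · exact hyp.isAlgebraic_of_mem_Jset hω hi hx
      · exact f2 x hx
      · exact ((Algebra.IsAlgebraic.isAlgebraic (R := ℚ) (θ q)).algHom (e 0).toRatAlgHom)) σ
      (2 * (discr L).natAbs) (Nat.mul_ne_zero two_ne_zero (Int.natAbs_ne_zero.2 hD))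
  have := Fact.mk hl
  have m1 : δ ∈ J := Or.inl (Or.inl (by simp))
  have m2 : -δ ∈ J := Or.inl (Or.inl (by simp))
  have m3 : ∀ x ∈ J₀, x ∈ J := fun x hx => Or.inr (Or.inl hx)
  have m4 : ∀ q, e 0 (θ q) ∈ J := fun q => Or.inr (Or.inr ⟨q, rfl⟩)
  have m5 : ∀ x ∈ Jset (om δ), x ∈ J := fun x hx => Or.inl (Or.inr hx)
  have hl2 : l ≠ 2 := by rintro rfl; exact hlM (dvd_mul_right _ _)
  have hlD : ¬ (l : ℤ) ∣ discr L := fun h => hlM ((Int.natCast_dvd.1 h).mul_left _)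
  have hφδ : φ δ = δ := by
    rw [hk' _ m1]
    exact Function.iterate_fixed (he.fix σ a hσ) _
  have hφ : φ (om δ) = om δ := by simp only [om, map_div₀, map_add, map_one, map_ofNat, hφδ]
  obtain ⟨a', ha'⟩ := he.sh φ hφδ
  have hδ0 : δ ≠ 0 := fun e0 => by simpa [e0] using he.im
  have hleg : legendreSym l (discr L) = 1 := by
    have := frob_sq hl2 hP hlP hinj hδ hlD m1 m2 (hJ _ m1) (hfrob _ m1)
    rw [hφδ] at this
    exact_mod_cast (mul_right_cancel₀ hδ0 ((one_mul _).trans this)).symm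
  obtain ⟨r, hr⟩ : ∃ r : ℤ, (l : ℤ) ∣ r ^ 2 - 1 * r + (1 - discr L) / 4 := by
    obtain ⟨u, hu⟩ := (legendreSym.eq_one_iff l
      fun e0 => hlD ((ZMod.intCast_zmod_eq_zero_iff_dvd _ l).1 e0)).1 hleg
    have h2 : (2 : ZMod l) ≠ 0 := Ring.two_ne_zero (by rwa [ZMod.ringChar_zmod_n])
    obtain ⟨r, hr⟩ := ZMod.intCast_surjective (((1 + u) / 2 : ZMod l))
    refine ⟨r, (ZMod.intCast_zmod_eq_zero_iff_dvd _ l).1 ?_⟩
    rw [← disc he] at hu
    generalize (1 - discr L) / 4 = n at hu ⊢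
    push_cast at hu ⊢
    rw [hr]
    field_simp
    linear_combination -hu
  have hχ := f3 l r φ a' A P hl (by simpa using hr) ha' hP hprime (fun x hx => hJ x (m3 x hx)) hlP
    (fun x hx => hfrob x (m3 x hx)) fun x hx y hy => hinj x (m3 x hx) y (m3 y hy)
  have hl0 : (l : ℂ) ≠ 0 := by exact_mod_cast hl.ne_zero
  obtain ⟨hlt1, hlt2⟩ := prime_lt hi hl r
  have hX : IsLat (sp l (om δ - r)) :=
    hyp.isLat_between (hyp.isLat_smul (isLat_ord hi) hl0) (isLat_ord hi) hlt1.le hlt2.le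
  have hX' : Stb δ (sp l (om δ - r)) := ⟨hX, smul_prime_le hω hr⟩
  have j0 : jL (sp 1 (om δ)) ∈ Jset (om δ) := ⟨_, isLat_ord hi, smul_ord_le hω, rfl⟩
  have j1 : jL (sp l (om δ - r)) ∈ Jset (om δ) := ⟨_, hX, hX'.2, rfl⟩
  have hz := hζ _ (Complex.isPrimitiveRoot_exp l hl.ne_zero).pow_eq_one
  have hkr := hyp.kron_lat hl A P hP hz.1 h6 hlP hz.2 (isLat_ord hi) hlt1 hlt2 (hJ _ (m5 _ j0))
    (hJ _ (m5 _ j1))
  have hR : Act δ χ φ (χ (sp l (om δ - r))) ∨ Act δ χ φ (-χ (sp l (om δ - r))) := by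
    rcases hprime _ (A.sub_mem (hJ _ (m5 _ j1)) (A.pow_mem (hJ _ (m5 _ j0)) _)) _
      (A.sub_mem (A.pow_mem (hJ _ (m5 _ j1)) _) (hJ _ (m5 _ j0))) hkr with c | c
    · refine Or.inl fun Λ Λ' h1 h3 e0 => ?_
      have b := P.sub_mem (hfrob _ (m5 _ j0)) c
      rw [show ∀ u v w : ℂ, u - v - (w - v) = u - w from fun u v w => by ring] at b
      have e1 := hinj _ (m5 _ (hyp.map_mem_Jset hω hi (φ : ℂ →+* ℂ) j0)) _ (m5 _ j1) b
      obtain ⟨-, c2⟩ := hyp.acts_of_eq hω hi hφ hX e1 Λ h1.1 (ord_mul_eq_iff.2 h1.2)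
      rw [chi_eq hc (hc.stb _ _ hX' h1) h3.1 (c2.symm.trans e0), hc.mul _ _ hX' h1, add_comm]
    · refine Or.inr fun Λ Λ' h1 h3 e0 => ?_
      have b := P.add_mem (hfrob _ (m5 _ j1)) c
      rw [show ∀ u v w : ℂ, u - v + (v - w) = u - w from fun u v w => by ring] at b
      have e1 := hinj _ (m5 _ (hyp.map_mem_Jset hω hi (φ : ℂ →+* ℂ) j1)) _ (m5 _ j0) b
      have hφ' : φ.symm (om δ) = om δ := by rw [RingEquiv.symm_apply_eq, hφ]
      obtain ⟨-, c2⟩ := hyp.acts_of_eq hω hi hφ' hX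
        (by rw [RingEquiv.symm_apply_eq]; exact e1.symm) Λ' h3.1 (ord_mul_eq_iff.2 h3.2)
      rw [← e0, RingEquiv.symm_apply_apply] at c2
      rw [chi_eq hc (hc.stb _ _ hX' h3) h1.1 c2.symm, hc.mul _ _ hX' h3]
      ring
  have hka : a = k * a' := hθ (a, k * a') (by
    have := (hσ 0 (θ (a, k * a'))).symm.trans ((hk _ (m4 _)).trans (sh_iterate ha' k 0 _))
    simpa only [zero_add] using this)
  have fin : ∀ b, Act δ χ φ b → Act δ χ σ (k * b) := fun b h Λ Λ' h1 h3 e0 =>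
    h.iterate he hc k Λ Λ' h1 h3 ((hk _ (m5 _ ⟨Λ, h1.1, h1.2, rfl⟩)).symm.trans e0)
  rw [hka, ← mul_neg]
  rcases hR with h | h <;> rcases hχ with c | c <;> rw [c] at h
  · exact Or.inl (fin _ h)
  · exact Or.inr (fin _ h)
  · exact Or.inr (fin _ h)
  · exact Or.inl (fin _ (by rwa [neg_neg] at h))

end CmP

open CmP in
theorem cmS : CmSt := fun L _ _ e δ χ he hc => by
  obtain ⟨τ, hτ⟩ := he.ex
  obtain ⟨s, h0, hs⟩ : ∃ s : ZMod 3, s ≠ 0 ∧ Act δ χ τ s := by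
    rcases pm he hc hτ with h | h
    · exact ⟨_, by decide, h⟩
    · exact ⟨_, by decide, h⟩
  refine ⟨s, h0, fun σ a hσ => ?_⟩
  obtain ⟨b, hb⟩ : ∃ b, Act δ χ σ b := (pm he hc hσ).elim (⟨_, ·⟩) (⟨_, ·⟩)
  have z : ∀ {ρ : ℂ ≃+* ℂ} {c c' : ZMod 3}, Sh e ρ c → c = 0 → Act δ χ ρ c' → c' = 0 :=
    fun h e0 h' => by
      subst e0
      exact h'.uniq he ((pm he hc h).elim id fun h'' => by rwa [neg_zero] at h'')
  have h1 : Act δ χ (σ.trans τ) (b + s) := hb.comp he hs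
  have h2 : Act δ χ ((σ.trans τ).trans τ) (b + s + s) := h1.comp he hs
  have key : b = s * a := by
    have h3 := (by decide : ∀ a : ZMod 3, a = 0 ∨ a + 1 = 0 ∨ a + 1 + 1 = 0) a
    have h4 : (3 : ZMod 3) = 0 := rfl
    rcases h3 with c | c | c
    · rw [z hσ c hb, c, mul_zero]
    · linear_combination z (sh_trans hσ hτ) c h1 - s * c
    · linear_combination z (sh_trans (sh_trans hσ hτ) hτ) c h2 - s * c
  exact key ▸ hb

end Pool.Agent.C17
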