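import Pool.Agent.Lib.MP_02f36d_nt.C17.Main
import Pool.Agent.Lib.MP_02f36d_nt.CF.All

set_option autoImplicit false

namespace Pool.Agent.C17.CubicFields

open Filter NumberField IsDedekindDomain Pool.Agent.Lib.MP_02f36d_nt

theorem result (A B : ℝ → Set (IntermediateField ℚ ℝ))
    (hA : ∀ X, A X = {L : IntermediateField ℚ ℝ | ∃ _ : NumberField L,
      Module.finrank ℚ L = 3 ∧ discr L < 0 ∧ -X ≤ discr L})
    (hB : ∀ X, B X = {L : IntermediateField ℚ ℝ | ∃ _ : NumberField L,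
      Module.finrank ℚ L = 3 ∧ discr L < 0 ∧ -X ≤ discr L ∧ Squarefree (discr L) ∧
        (Ideal.span {(17 : 𝓞 L)}).IsPrime ∧ Odd (classNumber L)}) :
    (∀ (L : Type) [Field L] [NumberField L] [DecidableEq L] (E : WeierstrassCurve L),
      E = ⟨0, -15, 0, -16, 0⟩ → Module.finrank ℚ L = 3 → discr L < 0 → Squarefree (discr L) →
      (Ideal.span {(17 : 𝓞 L)}).IsPrime → Odd (classNumber L) →
      (∀ v : HeightOneSpectrum (𝓞 L),
        ¬ (E.minimal (v.valuation L).valuationSubring).HasAdditiveReduction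
          (v.valuation L).valuationSubring) ∧
      Odd ({v : HeightOneSpectrum (𝓞 L) |
        (E.minimal (v.valuation L).valuationSubring).HasSplitMultiplicativeReduction
          (v.valuation L).valuationSubring}.ncard + Fintype.card (InfinitePlace L)) ∧
      Module.finrank ℤ E.toAffine.Point = 1) ∧
    ∃ c : ℝ, 0 < c ∧ ∀ᶠ X : ℝ in atTop,
      (A X).Finite ∧ c * X ≤ (B X).ncard ∧ c * (A X).ncard ≤ (B X).ncard := by
  refine ⟨fun L _ _ i E hE h1 h2 h3 h4 h5 => ?_, ?_⟩
  · obtain rfl : i = fun a b => Classical.propDecidable (a = b) := Subsingleton.elim _ _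
    subst hE
    exact Pool.Agent.C17.hstmt L ⟨h1, h2, h3, h4, h5⟩
  obtain ⟨C, hC⟩ := CF.upAll
  obtain ⟨c, hc, h⟩ := CF.densAll
  have p : 0 < |C| + 1 := by positivity
  refine ⟨c / (|C| + 1), by positivity, ?_⟩
  filter_upwards [h, eventually_ge_atTop 0] with X h1 h0
  obtain ⟨h2, h3⟩ := hC X h0
  rw [show A X = CF.AllF X from hA X, show B X = CF.OddF X from hB X]
  refine ⟨h2, le_trans ?_ h1, le_trans ?_ h1⟩
  · rw [div_mul_eq_mul_div, div_le_iff₀ p]
    nlinarith [mul_nonneg (mul_nonneg hc.le h0) (abs_nonneg C)]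
  · rw [div_mul_eq_mul_div, div_le_iff₀ p]
    nlinarith [mul_le_mul_of_nonneg_left h3 hc.le, mul_nonneg hc.le h0,
      mul_le_mul_of_nonneg_left (le_abs_self C) (mul_nonneg hc.le h0)]

end Pool.Agent.C17.CubicFields
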