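import Mathlib

/-! The curve `17a2` over cubic fields: definitions. -/

namespace Pool.Agent.C17

open NumberField IsDedekindDomain WeierstrassCurve Filter

/-- The curve `y ^ 2 = x (x + 1) (x - 16)` over `L`. -/
def EL (L : Type) [Field L] : WeierstrassCurve L := ⟨0, -15, 0, -16, 0⟩

open scoped Classical in
/-- The curve is semistable over `L`, the number of split multiplicative primes plus the number of
infinite places is odd, and the Mordell-Weil rank is one. -/
def Par (L : Type) [Field L] [NumberField L] : Prop :=
  (∀ v : HeightOneSpectrum (𝓞 L),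
    ¬ ((EL L).minimal (v.valuation L).valuationSubring).HasAdditiveReduction
      (v.valuation L).valuationSubring) ∧
  Odd ({v : HeightOneSpectrum (𝓞 L) |
      ((EL L).minimal (v.valuation L).valuationSubring).HasSplitMultiplicativeReduction
        (v.valuation L).valuationSubring}.ncard + Fintype.card (InfinitePlace L)) ∧
  Module.finrank ℤ (EL L).toAffine.Point = 1

/-- Complex cubic fields of squarefree discriminant and odd class number with `17` inert. -/
def Fam (L : Type) [Field L] [NumberField L] : Prop :=
  Module.finrank ℚ L = 3 ∧ discr L < 0 ∧ Squarefree (discr L) ∧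
    (Ideal.span {(17 : 𝓞 L)}).IsPrime ∧ Odd (classNumber L)

/-- The real number fields. -/
abbrev RF : Type := {F : IntermediateField ℚ ℝ // FiniteDimensional ℚ F}

instance (L : RF) : NumberField L.1 := @NumberField.mk _ _ inferInstance L.2

/-- The pointwise theorem. -/
def HStmt : Prop := ∀ (L : Type) [Field L] [NumberField L], Fam L → Par L

/-- The density theorem. -/
def DStmt : Prop := ∃ c : ℝ, 0 < c ∧ ∀ᶠ X : ℝ in atTop,
  c * X ≤ ({L : RF | Fam L.1 ∧ -X ≤ discr L.1}.ncard : ℝ)

end Pool.Agent.C17
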