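import Pool.Agent.Lib.MP_02f36d_nt.C17.St
import Pool.Agent.Lib.MP_ca56d1_nt.AR.Gal
import Pool.Agent.Lib.MP_ca56d1_nt.AR.Fr
import Pool.Agent.Lib.MP_ca56d1_nt.AR.Tow

/-! The zeta function of a cubic field and the cubic character of its resolvent. -/

open NumberField IsDedekindDomain
open scoped Pointwise Classical
open Pool.Agent.Stark Pool.Agent.Stark.AR

set_option linter.unusedSectionVars false

noncomputable section

namespace Pool.Agent.C17

namespace Eul

theorem zeta_rat {s : ℂ} (hs : 1 < s.re) : dedekindZeta ℚ s = riemannZeta s := by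
  rw [← LSeries_one_eq_riemannZeta hs, dedekindZeta]
  refine LSeries_congr (fun {n} hn => ?_) s
  have h1 : Ideal.absNorm (Ideal.span {(n : 𝓞 ℚ)}) = n := by
    rw [Ideal.absNorm_span_natCast, RingOfIntegers.rank, Module.finrank_self, pow_one]
  have h2 : ∀ I : Ideal (𝓞 ℚ), Ideal.absNorm I = n → I = Ideal.span {(n : 𝓞 ℚ)} := fun I hI => by
    obtain ⟨J, hJ⟩ := Ideal.dvd_iff_le.2 (hI ▸ I.span_singleton_absNorm_le)
    have h3 := congrArg Ideal.absNorm hJ
    rw [h1, map_mul, hI, left_eq_mul₀ hn, Ideal.absNorm_eq_one_iff] at h3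
    rw [hJ, h3, Ideal.mul_top]
  rw [Pi.one_apply, Nat.cast_eq_one, Nat.card_eq_one_iff_exists]
  exact ⟨⟨_, h1⟩, fun I => Subtype.ext (h2 _ I.2)⟩

theorem w3_norm (k : ZMod 3) : ‖w3 k‖ = 1 := by
  rw [w3, Complex.norm_exp]
  generalize k.val = n
  simp

theorem w3_zero : w3 0 = 1 := by simp [w3]

theorem w3_cub (X : ℂ) {a : ZMod 3} (ha : a ≠ 0) :
    (1 - X) * ((1 - w3 a * X) * (1 - w3 (-a) * X)) = 1 - X ^ 3 := by
  have h := Complex.isPrimitiveRoot_exp 3 (by norm_num)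
  have h1 := h.geom_sum_eq_zero (by norm_num)
  have h2 := h.pow_eq_one
  have h3 : ∀ k, w3 k = Complex.exp (2 * Real.pi * Complex.I / (3 : ℕ)) ^ k.val := fun k => by
    rw [w3, ← Complex.exp_nat_mul]
    congr 1
    push_cast
    ring
  simp only [Finset.sum_range_succ, Finset.range_zero, Finset.sum_empty] at h1
  rw [h3, h3]
  generalize Complex.exp _ = w at *
  obtain ⟨e, e'⟩ | ⟨e, e'⟩ : (a.val = 1 ∧ (-a).val = 2) ∨ (a.val = 2 ∧ (-a).val = 1) := by
    revert a
    decide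
  all_goals
    rw [e, e']
    linear_combination (X ^ 2 - X) * h1 + (X ^ 2 - X ^ 3) * h2

theorem prod_small {α : Type} (T : Finset α) (e f : α → ℕ) (X : ℂ)
    (h : ∀ x ∈ T, e x * f x = 1) : ∏ x ∈ T, (1 - X ^ f x) = (1 - X) ^ ∑ x ∈ T, e x * f x := by
  rw [← Finset.prod_pow_eq_pow_sum]
  exact Finset.prod_congr rfl fun x hx => by
    rw [h x hx, Nat.eq_one_of_mul_eq_one_left (h x hx), pow_one, pow_one]

theorem prod_big {α : Type} (T : Finset α) (e f : α → ℕ) (X : ℂ) (h : ∀ x, 0 < e x * f x) {a : α}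
    (ha : a ∈ T) {n : ℕ} (hn : n ≤ 1) (hs : ∑ x ∈ T, e x * f x = e a * f a + n) :
    ∏ x ∈ T, (1 - X ^ f x) = (1 - X ^ f a) * (1 - X) ^ n := by
  rw [← Finset.add_sum_erase _ _ ha, add_right_inj] at hs
  rw [← Finset.mul_prod_erase _ _ ha, prod_small _ e f X fun x hx => le_antisymm
    ((Finset.single_le_sum (f := fun x => e x * f x) (fun _ _ => Nat.zero_le _) hx).trans
      (hs.trans_le hn)) (h x), hs]

variable {L K F : Type} [Field L] [NumberField L] [Field K] [NumberField K] [Field F]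
  [NumberField F]

variable (K) in
/-- The primes above a rational prime. -/
def ab (p : Pr ℚ) : Finset (Pr K) := (below_finite p).toFinset

theorem mem_ab {p : Pr ℚ} {q : Pr K} : q ∈ ab K p ↔ below ℚ q = p := by simp [ab]

variable (K) in
theorem sum_ef (p : Pr ℚ) : ∑ q ∈ ab K p, eI ℚ q * fI ℚ q = Module.finrank ℚ K := by
  have := p.isPrime
  let _ := (IsDedekindDomain.primesOver_finite p.asIdeal (𝓞 K)).fintype
  rw [IsFractionRing.finrank_eq (𝓞 ℚ) ℚ (𝓞 K) K,
    ← Ideal.sum_ramification_inertia_eq_finrank p.asIdeal]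
  refine Finset.sum_bij (fun q hq => ⟨q.asIdeal, q.isPrime, SplitAux.lies_of (mem_ab.1 hq)⟩)
    (fun _ _ => Finset.mem_univ _)
    (fun _ _ _ _ h => HeightOneSpectrum.ext (congrArg Subtype.val h)) (fun P _ => ?_)
    fun _ _ => rfl
  obtain ⟨Q, a, b⟩ := SplitAux.of_mem P.2
  exact ⟨Q, mem_ab.2 b, Subtype.ext a⟩

theorem ef_pos (q : Pr K) : 0 < eI ℚ q * fI ℚ q :=
  mul_pos (SplitAux.eI_pos q) ((gal ℚ K).fI_pos q)

theorem hasProd (c : Pr K → ℂ) {s z : ℂ}
    (h : HasProd (fun q : Pr K => (1 - c q * (Ideal.absNorm q.asIdeal : ℂ) ^ (-s))⁻¹) z) :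
    HasProd (fun p : Pr ℚ => (∏ q ∈ ab K p,
      (1 - c q * ((Ideal.absNorm p.asIdeal : ℂ) ^ (-s)) ^ fI ℚ q))⁻¹) z := by
  refine ((Equiv.sigmaFiberEquiv (below ℚ : Pr K → Pr ℚ)).hasProd_iff.2 h).sigma fun p => ?_
  let i : Fintype {q : Pr K // below ℚ q = p} := (below_finite p).fintype
  rw [← Finset.prod_inv_distrib, Finset.prod_subtype (F := i) (ab K p) fun _ => mem_ab]
  convert hasProd_fintype _ using 2 with q
  obtain ⟨q, rfl⟩ := q
  change _ = (1 - c q * (Ideal.absNorm q.asIdeal : ℂ) ^ (-s))⁻¹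
  rw [(gal ℚ K).norm_eq q, Nat.cast_pow, ← Complex.natCast_cpow_natCast_mul,
    Complex.cpow_nat_mul]

theorem pair (h : Module.finrank ℚ K = 2) {q q' : Pr K} (hq : below ℚ q' = below ℚ q)
    (hn : q ≠ q') : ab K (below ℚ q) = {q, q'} ∧ fI ℚ q = 1 ∧ fI ℚ q' = 1 := by
  have h1 : {q, q'} ⊆ ab K (below ℚ q) :=
    Finset.insert_subset (mem_ab.2 rfl) (Finset.singleton_subset_iff.2 (mem_ab.2 hq))
  have h2 := (sum_ef K (below ℚ q)).trans h
  have h3 := (Finset.sum_le_sum_of_subset (f := fun q => eI ℚ q * fI ℚ q) h1).trans_eq h2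
  rw [Finset.sum_pair hn] at h3
  have := ef_pos q
  have := ef_pos q'
  refine ⟨(Finset.eq_of_subset_of_card_le h1 ?_).symm,
    Nat.eq_one_of_mul_eq_one_left (m := eI ℚ q) (by omega),
    Nat.eq_one_of_mul_eq_one_left (m := eI ℚ q') (by omega)⟩
  rw [Finset.card_pair hn, ← h2, Finset.card_eq_sum_ones]
  exact Finset.sum_le_sum fun x _ => ef_pos x

theorem fI_mul [Algebra K F] (P : Pr F) : fI ℚ P = fI ℚ (below K P) * fI K P :=
  have := SplitAux.lies (F := K) P
  Ideal.inertiaDeg_tower _ _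

variable [Algebra K F] [Algebra L F] {e : ZMod 3 → L →+* ℂ} {δ : ℂ} {j : F →+* ℂ} {d : K}
  {m : ZMod 3 → L →+* F} {s : (F ≃ₐ[K] F) → ZMod 3}

theorem s_one (T : Tw e δ j d m s) : s 1 = 0 := by simpa using T.mul 1 1

theorem s_inv (T : Tw e δ j d m s) (g : F ≃ₐ[K] F) : s g⁻¹ = -s g := by
  have := T.mul g⁻¹ g
  rw [inv_mul_cancel, s_one T] at this
  exact eq_neg_of_add_eq_zero_left this.symm

theorem inv_ne (T : Tw e δ j d m s) {g : F ≃ₐ[K] F} (h : g ≠ 1) : g⁻¹ ≠ g := fun a => by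
  have b := s_inv T g
  rw [a] at b
  exact h (T.inj g (by revert b; generalize s g = x; revert x; decide))

theorem span_d (E : Emb e δ) (T : Tw e δ j d m s) (y : K) : ∃ a b : ℚ, y = a + b * d := by
  have h : LinearIndependent ℚ ![(1 : K), d] := LinearIndependent.pair_iff.2 fun a b hab => by
    have h1 := congrArg (fun z => (j (algebraMap K F z)).im) hab
    simp only [Rat.smul_def, map_add, map_mul, map_ratCast, map_one, map_zero, T.hd] at h1
    obtain rfl : b = 0 := by simpa [E.im.ne'] using h1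
    simpa using hab
  have h2 : y ∈ Submodule.span ℚ (Set.range ![(1 : K), d]) := by
    rw [h.span_eq_top_of_card_eq_finrank (by simp [T.rK])]
    trivial
  rw [Matrix.range_cons_cons_empty, Submodule.mem_span_pair] at h2
  obtain ⟨a, b, rfl⟩ := h2
  exact ⟨a, b, by simp [Rat.smul_def]⟩

theorem tau (E : Emb e δ) (T : Tw e δ j d m s) : ∃ τ : F ≃ₐ[L] F, (∀ h, h = 1 ∨ h = τ) ∧
    (∀ x, τ (τ x) = x) ∧ ∀ (g : F ≃ₐ[K] F) x, τ (g x) = g⁻¹ (τ x) := by
  have := T.gal
  have hc : Nat.card (F ≃ₐ[L] F) = 2 := (IsGalois.card_aut_eq_finrank L F).trans T.rL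
  obtain ⟨τ, h1, h2⟩ := (Nat.card_eq_two_iff' (1 : F ≃ₐ[L] F)).1 hc
  have h3 : ∀ x, τ (τ x) = x := fun x => by
    have := pow_card_eq_one' (x := τ)
    rw [hc, sq] at this
    exact DFunLike.congr_fun this x
  have mi : ∀ i k, (∀ x, m i x = m k x) → i = k := fun i k h =>
    E.inj (RingHom.ext fun x => by rw [← T.hm, ← T.hm, h])
  have h4 : ∀ i, ∃ k, ∀ x, τ (m i x) = m k x := fun i =>
    (E.all (j.comp ((τ : F →+* F).comp (m i)))).imp fun k hk x =>
      j.injective ((DFunLike.congr_fun hk x).trans (T.hm k x).symm)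
  choose π hπ using h4
  have p0 : ∀ x, τ (m 0 x) = m 0 x := fun x => by rw [T.m0, τ.commutes]
  have p1 : π 1 ≠ 1 := fun h => by
    refine absurd (E.inj (RingHom.ext fun x => ?_) : (1 : ZMod 3) = -1) (by decide)
    obtain ⟨y, hy⟩ := (IsGalois.mem_range_algebraMap_iff_fixed (F := L) (m 1 x)).2 fun g => by
      by_cases a : g = 1
      · rw [a, AlgEquiv.one_apply]
      · rw [h2 g a, hπ, h]
    rw [← E.cj, ← T.hm, ← hy, ← T.m0, T.hm, E.cj, neg_zero]
  have p2 : ∀ i, π i = -i :=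
    (by decide : ∀ π : ZMod 3 → ZMod 3, Function.Injective π → π 0 = 0 → π 1 ≠ 1 → ∀ i, π i = -i) π
      (fun i k h => mi i k fun x => τ.injective (by rw [hπ, hπ, h]))
      (mi _ _ fun x => (hπ 0 x).symm.trans (p0 x)) p1
  have k1 : algebraMap K F d ^ 2 = discr L := j.injective (by rw [map_pow, T.hd, E.sq]; simp)
  have k2 : ∀ y : K, ∃ y', τ (algebraMap K F y) = algebraMap K F y' := fun y => by
    obtain ⟨a, b, rfl⟩ := span_d E T y
    rcases sq_eq_sq_iff_eq_or_eq_neg.1 (show τ (algebraMap K F d) ^ 2 = algebraMap K F d ^ 2 by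
      rw [← map_pow, k1, map_intCast]) with h | h
    · exact ⟨a + b * d, by simp [h]⟩
    · exact ⟨a - b * d, by simp [h, sub_eq_add_neg]⟩
  refine ⟨τ, fun h => (em (h = 1)).imp_right (h2 h), h3, fun g x => ?_⟩
  let u : F ≃ₐ[K] F := AlgEquiv.ofRingEquiv
    (f := (τ.toRingEquiv.trans g.toRingEquiv).trans τ.toRingEquiv) fun y => by
      obtain ⟨y', h⟩ := k2 y
      change τ (g (τ _)) = _
      rw [h, g.commutes, ← h, h3]
  have hu : ∀ x, u x = τ (g (τ x)) := fun _ => rfl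
  have k3 : s u = -s g := by
    rw [← zero_add (s u), ← p2, ← zero_add (s g)]
    exact mi _ _ fun x => by rw [← T.act, hu, p0, T.act, hπ]
  have k4 : u = g⁻¹ := eq_inv_of_mul_eq_one_left (T.inj _ (by rw [T.mul, k3, neg_add_cancel]))
  rw [← k4, hu, h3]

section Tau

variable (T : Tw e δ j d m s) {τ : F ≃ₐ[L] F} (h2 : ∀ x, τ (τ x) = x)
  (h3 : ∀ (g : F ≃ₐ[K] F) x, τ (g x) = g⁻¹ (τ x))

include T in
theorem unr (P : Pr F) : eI K P = 1 := T.unr P (Finset.notMem_empty _)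

include T in
theorem tower (P : Pr F) : below ℚ (below K P) = below ℚ (below L P) ∧
    eI ℚ (below K P) = eI L P * eI ℚ (below L P) ∧
    fI ℚ (below K P) * orderOf (fr K F (below K P)) = fI ℚ (below L P) * fI L P ∧
    eI L P * fI L P ∣ 2 := by
  have := T.gal
  refine ⟨by rw [TowAux.below_below, TowAux.below_below], ?_, ?_, ?_⟩
  · rw [← TowAux.eI_mul, TowAux.eI_mul (M := K) P, unr T, one_mul]
  · rw [(frS gal K F).ord T.ab P (unr T P), ← fI_mul, ← fI_mul]
  · rw [← GalAux.card_stab, ← T.rL, ← IsGalois.card_aut_eq_finrank]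
    exact Subgroup.card_subgroup_dvd_card _

include T in
theorem ord_dvd (g : F ≃ₐ[K] F) : orderOf g ∣ 3 := by
  have := T.ab
  rw [← T.rF, ← IsGalois.card_aut_eq_finrank]
  exact orderOf_dvd_natCard g

include T in
theorem below_tau (P : Pr F) : below ℚ (below K (τ • P)) = below ℚ (below K P) := by
  rw [(tower T _).1, (tower T _).1, GalAux.below_smul]

include T h2 h3 in
theorem fr_tau (P : Pr F) : fr K F (below K (τ • P)) = (fr K F (below K P))⁻¹ := by
  have h4 : Ideal.absNorm (below K (τ • P)).asIdeal = Ideal.absNorm (below K P).asIdeal := by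
    by_cases h : below K P = below K (τ • P)
    · rw [← h]
    · obtain ⟨-, a, b⟩ := pair T.rK (below_tau T P) h
      rw [(gal ℚ K).norm_eq, (gal ℚ K).norm_eq (below K P), a, b, below_tau T]
  refine ((frS gal K F).uniq T.ab _ _ (unr T _) fun x => ?_).symm
  have h5 := Ideal.smul_mem_pointwise_smul τ _ _ ((frS gal K F).spec T.ab P (τ • x))
  rw [smul_sub, smul_pow', show τ • τ • x = x from RingOfIntegers.ext (h2 x),
    show τ • fr K F (below K P) • τ • x = (fr K F (below K P))⁻¹ • x from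
      RingOfIntegers.ext ((h3 _ _).trans (congrArg _ (h2 x)))] at h5
  rwa [h4]

include T h2 h3 in
theorem split (P : Pr F) (h : fr K F (below K P) ≠ 1) :
    ab K (below ℚ (below K P)) = {below K P, below K (τ • P)} ∧ below K P ≠ below K (τ • P) ∧
      fI ℚ (below K P) = 1 ∧ fI ℚ (below K (τ • P)) = 1 := by
  have a : below K P ≠ below K (τ • P) := fun a => inv_ne T h (by rw [← fr_tau T h2 h3, ← a])
  obtain ⟨b, c⟩ := pair T.rK (below_tau T P) a
  exact ⟨b, a, c⟩

include T h2 h3 in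
theorem moved (q : Pr K) (h : fr K F q = 1) : ∃ P : Pr F, below K P = q ∧ τ • P ≠ P := by
  obtain ⟨P, rfl⟩ := below_surj (K := F) q
  have := T.ab
  have : Nontrivial (F ≃ₐ[K] F) := Finite.one_lt_card_iff_nontrivial.1 (by
    rw [IsGalois.card_aut_eq_finrank, T.rF]; norm_num)
  obtain ⟨g, hg⟩ := exists_ne (1 : F ≃ₐ[K] F)
  by_contra! hc
  have h4 : τ • g • P = g⁻¹ • τ • P := HeightOneSpectrum.ext (Ideal.ext fun x => by
    simp only [smul_asIdeal, Ideal.mem_pointwise_smul_iff_inv_smul_mem, inv_inv]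
    have a : ∀ y : F, τ⁻¹ y = τ y := fun y => τ.injective (by rw [h2]; exact τ.apply_symm_apply y)
    rw [show g⁻¹ • τ⁻¹ • x = τ⁻¹ • g • x from
      RingOfIntegers.ext ((congrArg _ (a x)).trans ((h3 g x).symm.trans (a _).symm))])
  rw [hc P rfl, hc _ (GalAux.below_smul g P)] at h4
  have h5 := GalAux.card_stab (K := K) P
  rw [unr T, ← (frS gal K F).ord T.ab P (unr T P), h, orderOf_one, mul_one, Subgroup.card_eq_one,
    Subgroup.eq_bot_iff_forall] at h5
  have h6 := h5 (g * g) (by rw [MulAction.mem_stabilizer_iff, mul_smul, h4, smul_inv_smul])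
  exact inv_ne T hg (eq_inv_of_mul_eq_one_left h6).symm

end Tau

theorem loc (hL : Module.finrank ℚ L = 3) (E : Emb e δ) (T : Tw e δ j d m s) (p : Pr ℚ) (X : ℂ) :
    ∏ Q ∈ ab L p, (1 - X ^ fI ℚ Q) =
      (1 - X) * ∏ q ∈ ab K p, (1 - w3 (s (fr K F q)) * X ^ fI ℚ q) := by
  obtain ⟨τ, h1, h2, h3⟩ := tau E T
  have sL := (sum_ef L p).trans hL
  have sK := (sum_ef K p).trans T.rK
  by_cases h : ∃ q ∈ ab K p, fr K F q ≠ 1
  · obtain ⟨q, hq, h⟩ := h
    obtain ⟨P, rfl⟩ := below_surj (K := F) q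
    obtain rfl := mem_ab.1 hq
    obtain ⟨a, b, c, c'⟩ := split T h2 h3 P h
    obtain ⟨t1, -, t3, t4⟩ := tower T P
    rw [c, ((Nat.dvd_prime Nat.prime_three).1 (ord_dvd T _)).resolve_left
      (mt orderOf_eq_one_iff.1 h)] at t3
    have k1 : fI L P = 1 := Nat.eq_one_of_dvd_coprimes (by norm_num : Nat.Coprime 2 3)
      ((Dvd.intro_left _ rfl).trans t4) (Dvd.intro_left _ t3.symm)
    have k2 : fI ℚ (below L P) = 3 := by rw [k1] at t3; omega
    have k3 := (Finset.single_le_sum (f := fun Q => eI ℚ Q * fI ℚ Q) (fun _ _ => Nat.zero_le _)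
      (mem_ab.2 t1.symm)).trans_eq sL
    have k4 := SplitAux.eI_pos (F := ℚ) (below L P)
    rw [prod_big _ (eI ℚ) (fI ℚ) X ef_pos (mem_ab.2 t1.symm) zero_le_one
      (by rw [sL]; simp only [k2] at k3 ⊢; omega), a, Finset.prod_pair b, c, c', fr_tau T h2 h3,
      s_inv T, k2, pow_one, w3_cub X (mt (T.inj _) h), pow_zero, mul_one]
  push Not at h
  rw [Finset.prod_congr rfl (s₂ := ab K p) (g := fun q => 1 - X ^ fI ℚ q) fun q hq => by
    rw [h q hq, s_one T, w3_zero, one_mul]]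
  by_cases h' : ∀ q ∈ ab K p, eI ℚ q * fI ℚ q = 1
  · rw [prod_small _ _ _ X h', prod_small _ (eI ℚ) _ X fun Q hQ => ?_, sL, sK]
    · ring
    obtain ⟨P, rfl⟩ := below_surj (K := F) Q
    obtain ⟨t1, t2, t3, -⟩ := tower T P
    have a := mem_ab.2 (t1.trans (mem_ab.1 hQ))
    obtain ⟨b, c⟩ := mul_eq_one.1 (h' _ a)
    rw [h _ a, orderOf_one, c] at t3
    rw [(mul_eq_one.1 (t2.symm.trans b)).2, (mul_eq_one.1 t3.symm).1, one_mul]
  push Not at h'
  obtain ⟨q, hq, h'⟩ := h'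
  obtain ⟨P, rfl, hP⟩ := moved T h2 h3 q (h q hq)
  obtain ⟨t1, t2, t3, -⟩ := tower T P
  have := T.gal
  obtain ⟨k1, k2⟩ := mul_eq_one.1 ((GalAux.card_stab (K := L) P).symm.trans
    (Subgroup.card_eq_one.2 ((Subgroup.eq_bot_iff_forall _).2 fun g hg =>
      (h1 g).resolve_right fun a => hP (a ▸ hg))))
  rw [k1, one_mul] at t2
  rw [k2, h _ hq, orderOf_one, mul_one, mul_one] at t3
  have k3 := (Finset.single_le_sum (f := fun q => eI ℚ q * fI ℚ q) (fun _ _ => Nat.zero_le _)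
    hq).trans_eq sK
  have k4 := ef_pos (below K P)
  rw [prod_big _ (eI ℚ) (fI ℚ) X ef_pos hq zero_le_one (by rw [sK]; omega),
    prod_big _ (eI ℚ) (fI ℚ) X ef_pos (mem_ab.2 (t1.symm.trans (mem_ab.1 hq))) le_rfl
      (by rw [sL, ← t2, ← t3]; omega), t3]
  ring

end Eul

open Eul

theorem eul : EulSt := by
  intro L K F _ _ _ _ _ _ _ _ e δ j d m s hL _ E T t ht
  have hs : 1 < (t : ℂ).re := by simpa using ht
  have h1 := hasProd (K := L) (fun _ => 1) (by simpa using zI_hasProd hs)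
  have h2 := hasProd (K := K) (fun q => w3 (s (fr K F q))) (by
    simpa [fr] using Lfun_hasProd ∅ (fun P => w3 (s (StarkStmt.frob K F P)))
      (fun _ _ => (w3_norm _).le) hs)
  rw [← zI_eq hs, ← zeta_rat hs, ← zI_eq hs]
  refine h1.unique ?_
  convert (zI_hasProd hs).mul h2 using 2 with p
  simp only [one_mul]
  rw [loc hL E T, mul_inv]

theorem sev : SevSt := by
  rintro L K F _ _ _ _ _ _ _ _ e δ j d m s ⟨hL, -, -, h17, -⟩ E T
  have h0 : Ideal.span {(17 : 𝓞 L)} ≠ ⊥ := by simp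
  constructor
  · refine (not_dvd_discr_iff_forall_liesOver L (𝓞 L) (Nat.prime_iff_prime_int.1
      (by norm_num : Nat.Prime 17))).2 fun P hP hl => ?_
    have a : (Ideal.span {((17 : ℕ) : ℤ)}).map (algebraMap ℤ (𝓞 L)) = Ideal.span {17} := by
      simp [Ideal.map_span]
    obtain rfl : Ideal.span {17} = P := (h17.isMaximal h0).eq_of_le hP.ne_top
      (a ▸ Ideal.map_le_of_le_comap hl.over.le)
    rw [← Ideal.ramificationIdx_eq_one_iff,
      Ideal.IsDedekindDomain.ramificationIdx_eq_normalizedFactors_count _ _ (a ▸ h0), a,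
      UniqueFactorizationMonoid.normalizedFactors_irreducible
        (Ideal.prime_of_isPrime h0 h17).irreducible, normalize_eq, Multiset.count_singleton_self]
  obtain ⟨τ, -, h2, h3⟩ := tau E T
  obtain ⟨P, hP⟩ := below_surj (K := F) (⟨_, h17, h0⟩ : Pr L)
  obtain ⟨t1, -, t3, -⟩ := tower T P
  have k1 : Ideal.absNorm (below ℚ (below L P)).asIdeal = 17 := by
    refine ((Nat.dvd_prime (by norm_num)).1 ?_).resolve_left
      (by have := FrobAux.two_le_absNorm (below ℚ (below L P)); omega)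
    have a := Ideal.absNorm_span_natCast (S := 𝓞 ℚ) 17
    rw [RingOfIntegers.rank, Module.finrank_self, pow_one] at a
    rw [← a, hP]
    refine Ideal.absNorm_dvd_absNorm_of_le ((Ideal.span_singleton_le_iff_mem _).2 ?_)
    change algebraMap (𝓞 ℚ) (𝓞 L) _ ∈ Ideal.span {17}
    rw [map_natCast]
    exact Ideal.mem_span_singleton_self _
  have k2 := (gal ℚ L).norm_eq (below L P)
  have k3 := Ideal.absNorm_span_natCast (S := 𝓞 L) 17
  rw [RingOfIntegers.rank, hL] at k3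
  have k4 : fI ℚ (below L P) = 3 :=
    Nat.pow_right_injective (by norm_num : 2 ≤ 17) (by
      rw [k1] at k2
      rw [hP] at k2 ⊢
      exact k2.symm.trans k3)
  have k5 : fr K F (below K P) ≠ 1 := fun h => by
    have a := (Finset.single_le_sum (f := fun q => eI ℚ q * fI ℚ q) (fun _ _ => Nat.zero_le _)
      (mem_ab.2 (rfl : below ℚ (below K P) = _))).trans_eq ((sum_ef K _).trans T.rK)
    have b := SplitAux.eI_pos (F := ℚ) (below K P)
    have c := (gal L F).fI_pos P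
    rw [h, orderOf_one, mul_one, k4] at t3
    simp only [t3] at a
    nlinarith
  exact ⟨_, by rw [(gal ℚ K).norm_eq, (split T h2 h3 P k5).2.2.1, t1, k1, pow_one], k5⟩

end Pool.Agent.C17
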