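import Pool.Agent.Lib.MP_02f36d_nt.C17.St
import Pool.Agent.Lib.MP_d6ddbd_nt.G.Curve

/-! The descent by four, the two-power torsion and the isogeny of degree two. -/

open WeierstrassCurve
open scoped Classical
open Pool.Agent.Lib.MP_d6ddbd_nt.G Pool.Agent.Lib.MP_d6ddbd_nt.G.CurveAux

noncomputable section

namespace Pool.Agent.C17

namespace F4

/-- The function on pairs of coordinates. -/
def tv (x y : ℂ) : ℂ :=
  if x = 17 ∧ y = 136 then 1 / 272 else (x ^ 2 + 94 * x + 289 - 16 * y) / 16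

theorem tt_some {x y : ℂ} (h : WC.Nonsingular x y) : tt (.some x y h) = tv x y := rfl

theorem tv_pos {x y : ℂ} (h : x = 17 ∧ y = 136) : tv x y = 1 / 272 := if_pos h

theorem tv_neg {x y : ℂ} (h : ¬(x = 17 ∧ y = 136)) :
    tv x y = (x ^ 2 + 94 * x + 289 - 16 * y) / 16 := if_neg h

theorem tv_ne {x y : ℂ} (h : y ^ 2 = x * (x ^ 2 + 30 * x + 289)) : tv x y ≠ 0 := by
  by_cases e : x = 17 ∧ y = 136
  · rw [tv_pos e]
    norm_num
  rw [tv_neg e]
  intro h0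
  have h1 : x = 17 := sub_eq_zero.1 (pow_eq_zero_iff (n := 4) (by norm_num) |>.1 (by
    linear_combination 16 * (x ^ 2 + 94 * x + 289 + 16 * y) * h0 + 256 * h))
  exact e ⟨h1, by rw [h1] at h0; linear_combination -h0⟩

theorem pair {x y : ℂ} (h : y ^ 2 = x * (x ^ 2 + 30 * x + 289)) :
    ∃ d, tv x y * tv x (-y) = d ^ 4 ∧ (d = 1 ∨ d = (x - 17) / 4) := by
  by_cases e : x = 17 ∧ y = 136
  · obtain ⟨rfl, rfl⟩ := e
    exact ⟨1, by rw [tv_pos ⟨rfl, rfl⟩, tv_neg (by norm_num)]; norm_num, Or.inl rfl⟩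
  by_cases e' : x = 17 ∧ -y = 136
  · obtain ⟨rfl, e'⟩ := e'
    obtain rfl : y = -136 := by linear_combination -e'
    exact ⟨1, by rw [tv_neg e, tv_pos ⟨rfl, e'⟩]; norm_num, Or.inl rfl⟩
  exact ⟨_, by rw [tv_neg e, tv_neg e']; linear_combination -h, Or.inr rfl⟩

/-- The admissible fourth roots. -/
def Rt (l n c : ℂ) : Prop := c = (n + 17 * l - 136) / 8 ∨ c = (8 - l) / 2 ∨ c = 1 / 8

theorem two {x l n : ℂ} (e1 : l ^ 2 = 17 + 17 + x + 30) (e2 : 17 * 17 + 17 * x + 17 * x = 289 - 2 * l * n)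
    (hn : l * 17 + n = 136) : x = 0 ∧ l * x + n = 0 := by
  obtain rfl : n = 136 - 17 * l := by linear_combination hn
  obtain rfl : l = 8 := by linear_combination (e2 + 34 * e1) / 272
  obtain rfl : x = 0 := by linear_combination -e1
  norm_num

theorem one {x₂ x₃ l n : ℂ} (e1 : l ^ 2 = 17 + x₂ + x₃ + 30)
    (e2 : 17 * x₂ + 17 * x₃ + x₂ * x₃ = 289 - 2 * l * n) (hn : l * 17 + n = 136) :
    ∃ c, tv 17 136 * tv x₂ (l * x₂ + n) * tv x₃ (l * x₃ + n) = c ^ 4 ∧ Rt l n c := by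
  have k : tv 17 136 * tv 17 136 * tv 0 0 = (1 / 8) ^ 4 := by
    rw [tv_pos ⟨rfl, rfl⟩, tv_neg (by norm_num)]
    norm_num
  by_cases h2 : x₂ = 17
  · subst h2
    obtain ⟨a, b⟩ := two e1 (by linear_combination e2) hn
    exact ⟨_, by rw [b, a, hn, k], Or.inr (Or.inr rfl)⟩
  by_cases h3 : x₃ = 17
  · subst h3
    obtain ⟨a, b⟩ := two (x := x₂) (l := l) (n := n) (by linear_combination e1)
      (by linear_combination e2) hn
    exact ⟨_, by rw [b, a, hn, mul_right_comm, k], Or.inr (Or.inr rfl)⟩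
  refine ⟨_, ?_, Or.inr (Or.inl rfl)⟩
  obtain rfl : n = 136 - 17 * l := by linear_combination hn
  have s : x₂ + x₃ = l ^ 2 - 47 := by linear_combination -e1
  have p : x₂ * x₃ = 17 * (8 - l) ^ 2 := by linear_combination e2 + 17 * e1
  have q : ∀ a b : ℂ, (x₂ ^ 2 + a * x₂ + b) * (x₃ ^ 2 + a * x₃ + b) = (x₂ * x₃) ^ 2 +
      a * (x₂ * x₃) * (x₂ + x₃) + b * ((x₂ + x₃) ^ 2 - 2 * (x₂ * x₃)) + a ^ 2 * (x₂ * x₃) +
      a * b * (x₂ + x₃) + b ^ 2 := fun a b => by ring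
  have r := q (94 - 16 * l) (289 - 16 * (136 - 17 * l))
  rw [s, p] at r
  rw [tv_pos ⟨rfl, rfl⟩, tv_neg fun h => h2 h.1, tv_neg fun h => h3 h.1]
  linear_combination r / 69632

theorem three {x₁ x₂ x₃ l n : ℂ} (e1 : l ^ 2 = x₁ + x₂ + x₃ + 30)
    (e2 : x₁ * x₂ + x₁ * x₃ + x₂ * x₃ = 289 - 2 * l * n) (e3 : n ^ 2 = x₁ * x₂ * x₃) :
    ∃ c, tv x₁ (l * x₁ + n) * tv x₂ (l * x₂ + n) * tv x₃ (l * x₃ + n) = c ^ 4 ∧ Rt l n c := by
  by_cases h1 : x₁ = 17 ∧ l * x₁ + n = 136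
  · obtain ⟨rfl, h⟩ := h1
    rw [h]
    exact one e1 e2 h
  by_cases h2 : x₂ = 17 ∧ l * x₂ + n = 136
  · obtain ⟨rfl, h⟩ := h2
    rw [h, mul_comm (tv x₁ _)]
    exact one (by linear_combination e1) (by linear_combination e2) h
  by_cases h3 : x₃ = 17 ∧ l * x₃ + n = 136
  · obtain ⟨rfl, h⟩ := h3
    rw [h, mul_comm, ← mul_assoc]
    exact one (by linear_combination e1) (by linear_combination e2) h
  refine ⟨_, ?_, Or.inl rfl⟩
  have q : ∀ a b s₁ s₂ s₃ : ℂ, s₁ = x₁ + x₂ + x₃ → s₂ = x₁ * x₂ + x₁ * x₃ + x₂ * x₃ →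
      s₃ = x₁ * x₂ * x₃ →
      (x₁ ^ 2 + a * x₁ + b) * (x₂ ^ 2 + a * x₂ + b) * (x₃ ^ 2 + a * x₃ + b) = s₃ ^ 2 + a * s₂ * s₃ +
        a ^ 2 * s₁ * s₃ + a ^ 3 * s₃ + b * (s₂ ^ 2 - 2 * s₁ * s₃) + a * b * (s₁ * s₂ - 3 * s₃) +
        a ^ 2 * b * s₂ + b ^ 2 * (s₁ ^ 2 - 2 * s₂) + a * b ^ 2 * s₁ + b ^ 3 := by
    rintro a b _ _ _ rfl rfl rfl
    ring
  have r := q (94 - 16 * l) (289 - 16 * n) (l ^ 2 - 30) _ _ (by linear_combination e1) e2.symm e3
  rw [tv_neg h1, tv_neg h2, tv_neg h3]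
  linear_combination r / 4096

theorem slope_fix (σ : ℂ ≃+* ℂ) {x₁ x₂ y₁ y₂ : ℂ} (a : σ x₁ = x₁) (b : σ x₂ = x₂) (c : σ y₁ = y₁)
    (d : σ y₂ = y₂) : σ (WC.slope x₁ x₂ y₁ y₂) = WC.slope x₁ x₂ y₁ y₂ := by
  rw [Affine.slope, negY_eq, a1, a2, a4]
  split_ifs <;> simp [a, b, c, d, map_ofNat]

theorem sq_fix (σ : ℂ ≃+* ℂ) {D : Pt} (h : D + D = 0) : act σ (act σ D) = D := by
  rcases D with _ | ⟨x, y, hD⟩
  · rfl
  have hy : y = 0 := by
    by_contra hy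
    have h3 : y ≠ WC.negY x y := by
      rw [negY_eq]
      exact fun e => hy (by linear_combination e / 2)
    rw [Affine.Point.add_self_of_Y_ne h3] at h
    exact Affine.Point.some_ne_zero _ h
  subst hy
  obtain ⟨h1, e1⟩ := act_some σ hD
  obtain ⟨h2, e2⟩ := act_some σ h1
  rw [e1, e2, Affine.Point.some.injEq]
  refine ⟨?_, by simp⟩
  rcases mul_eq_zero.1 (((ns_iff _ _).1 hD).symm.trans (zero_pow two_ne_zero)) with rfl | e
  · simp
  have e' := congrArg σ e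
  simp only [map_add, map_mul, map_pow, map_ofNat, map_zero] at e'
  rcases mul_eq_zero.1 (show (σ x - x) * (σ x + x + 30) = 0 by linear_combination e' - e)
    with f | f
  · rw [sub_eq_zero.1 f, sub_eq_zero.1 f]
  · have f' := congrArg σ f
    simp only [map_add, map_ofNat, map_zero] at f'
    linear_combination f' - f

theorem sgn_eq {u v : ℂ} (h : u ^ 2 = v ^ 2)
    (h' : (u = (u ^ 2) ^ (2⁻¹ : ℂ)) = (v = (v ^ 2) ^ (2⁻¹ : ℂ))) : u = v := by
  rw [← h] at h'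
  have r := Complex.cpow_ofNat_inv_pow (u ^ 2) 2
  rcases sq_eq_sq_iff_eq_or_eq_neg.1 h with e | e
  · exact e
  rcases sq_eq_sq_iff_eq_or_eq_neg.1 r with f | f
  · exact f.symm.trans (h'.mp f.symm).symm
  · have g : v = (u ^ 2) ^ (2⁻¹ : ℂ) := by rw [f, e, neg_neg]
    exact (h'.mpr g).trans g.symm

theorem ns {L : Type} [Field L] [CharZero L] {x y : L} (h : y ^ 2 = x * (x ^ 2 - 15 * x - 16)) :
    (EL L).toAffine.Nonsingular x y := by
  have : (EL L).toAffine.IsElliptic := ⟨isUnit_iff_ne_zero.2 (by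
    simp [EL, Δ, b₂, b₄, b₆, b₈]
    norm_num)⟩
  rw [← Affine.equation_iff_nonsingular, Affine.equation_iff]
  simp only [EL, toAffine]
  linear_combination h

end F4

open F4

theorem four : FourSt := by
  have h0 : ∀ P, tt P ≠ 0 := by
    rintro (_ | ⟨x, y, h⟩)
    · exact one_ne_zero
    · exact tv_ne ((ns_iff _ _).1 h)
  refine ⟨h0, fun σ P => ?_, fun P Q => ?_⟩
  · rcases P with _ | ⟨x, y, h⟩
    · exact (map_one σ).symm
    obtain ⟨h', e⟩ := act_some σ h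
    rw [e, tt_some, tt_some]
    by_cases a : x = 17 ∧ y = 136
    · rw [tv_pos a, tv_pos ⟨by rw [a.1, map_ofNat], by rw [a.2, map_ofNat]⟩]
      simp [map_ofNat]
    · rw [tv_neg a, tv_neg fun b => a ⟨σ.injective (by rw [b.1, map_ofNat]),
        σ.injective (by rw [b.2, map_ofNat])⟩]
      simp [map_ofNat]
  suffices h : ∃ c : ℂ, tt P * tt Q = tt (P + Q) * c ^ 4 ∧
      ∀ σ, act σ P = P → act σ Q = Q → σ c = c by
    obtain ⟨c, a, b⟩ := h
    refine ⟨c, ?_, a, b⟩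
    rintro rfl
    exact mul_ne_zero (h0 P) (h0 Q) (by rw [a]; simp)
  rcases P with _ | ⟨x₁, y₁, h₁⟩
  · exact ⟨1, by rw [← Affine.Point.zero_def, zero_add, one_pow, mul_comm]; rfl,
      fun σ _ _ => map_one σ⟩
  rcases Q with _ | ⟨x₂, y₂, h₂⟩
  · exact ⟨1, by rw [← Affine.Point.zero_def, add_zero, one_pow]; rfl, fun σ _ _ => map_one σ⟩
  by_cases hxy : x₁ = x₂ ∧ y₁ = WC.negY x₂ y₂
  · rw [Affine.Point.add_of_Y_eq hxy.1 hxy.2]
    obtain ⟨d, a, b⟩ := pair ((ns_iff _ _).1 h₂)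
    refine ⟨d, ?_, fun σ _ e => ?_⟩
    · rw [tt_some, tt_some, hxy.1, hxy.2, negY_eq, mul_comm, a]
      exact (one_mul _).symm
    · rcases b with rfl | rfl <;> simp [(fix_some e).1, map_ofNat]
  obtain ⟨e1, e2, e3⟩ := vieta h₁ h₂ hxy rfl rfl
  have h₃ := (ns_iff _ _).1 (Affine.nonsingular_negAdd h₁ h₂ hxy)
  have k2 : y₂ = WC.slope x₁ x₂ y₁ y₂ * x₂ + (y₁ - WC.slope x₁ x₂ y₁ y₂ * x₁) := by
    by_cases hx : x₁ = x₂
    · rw [Affine.Y_eq_of_Y_ne h₁.1 h₂.1 hx fun h => hxy ⟨hx, h⟩, hx]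
      ring
    · rw [Affine.slope_of_X_ne hx]
      field_simp [sub_ne_zero.2 hx]
      ring
  have kl : ∀ σ, act σ (.some _ _ h₁) = .some _ _ h₁ → act σ (.some _ _ h₂) = .some _ _ h₂ →
      σ (WC.slope x₁ x₂ y₁ y₂) = WC.slope x₁ x₂ y₁ y₂ ∧ σ x₁ = x₁ ∧ σ x₂ = x₂ ∧ σ y₁ = y₁ :=
    fun σ a b => ⟨slope_fix σ (fix_some a).1 (fix_some b).1 (fix_some a).2 (fix_some b).2,
      (fix_some a).1, (fix_some b).1, (fix_some a).2⟩
  rw [Affine.Point.add_some hxy, tt_some, tt_some, tt_some, Affine.addY, negY_eq]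
  rw [Affine.negAddY] at h₃ ⊢
  have k3 : WC.addX x₁ x₂ (WC.slope x₁ x₂ y₁ y₂) = WC.slope x₁ x₂ y₁ y₂ ^ 2 - 30 - x₁ - x₂ := by
    linear_combination -e1
  generalize WC.addX x₁ x₂ (WC.slope x₁ x₂ y₁ y₂) = x₃ at *
  generalize WC.slope x₁ x₂ y₁ y₂ = l at *
  obtain ⟨d, a, b⟩ := pair h₃
  obtain ⟨c, a', b'⟩ := three e1 (n := y₁ - l * x₁) (by linear_combination e2) e3
  rw [← k2, show l * x₁ + (y₁ - l * x₁) = y₁ by ring,
    show l * x₃ + (y₁ - l * x₁) = l * (x₃ - x₁) + y₁ by ring] at a'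
  have k0 := tv_ne h₃
  have k1 : d ^ 4 ≠ 0 := a ▸ mul_ne_zero k0 (tv_ne (by rw [neg_sq, h₃]))
  refine ⟨c / d, ?_, fun σ u v => ?_⟩
  · rw [div_pow, mul_div_assoc', eq_div_iff k1, ← a, ← a']
    ring
  · obtain ⟨u1, u2, u3, u4⟩ := kl σ u v
    rcases b with rfl | rfl <;> rcases b' with rfl | rfl | rfl <;>
      simp [k3, u1, u2, u3, u4, map_ofNat]

theorem tor : TorSt := by
  intro σ k
  induction k with
  | zero =>
    intro R h _
    rw [pow_zero, one_smul] at h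
    rw [h, map_zero]
  | succ k ih =>
    intro R h h3
    have h1 := ih (R + R) (by rw [← two_nsmul, ← mul_nsmul', ← pow_succ, h])
      (by rw [map_add, map_add, map_add, h3])
    have h2 : (act σ R - R) + (act σ R - R) = 0 := by
      rw [sub_add_sub_comm, ← map_add, h1, sub_self]
    have h4 := sq_fix σ h2
    rw [map_sub, map_sub, h3] at h4
    have h5 : act σ (act σ R) = act σ R := by
      linear_combination (norm := abel_nf) -h4 - h2
    have h6 := congrArg (act σ) h5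
    rw [h3, h5] at h6
    exact h6.symm

theorem iso : IsoSt := by
  rintro L _ _ e δ he ⟨P, hP, hσ⟩
  have hi := injective_nsmul_iff_not_isOfFinAddOrder.2 hP
  have h1 : ∀ n : ℕ, ∃ X Y : L, X ≠ 0 ∧ Y ^ 2 = X * (X ^ 2 + 30 * X + 289) ∧
      ∃ h, (n + 1) • P = .some (e 0 X) (e 0 Y) h := fun n => by
    have h2 : ∀ σ : ℂ ≃+* ℂ, (∀ y, σ (e 0 y) = e 0 y) → act σ ((n + 1) • P) = (n + 1) • P :=
      fun σ h => by rw [map_nsmul, hσ σ h]
    have h3 : (n + 1) • P + (n + 1) • P ≠ 0 := fun h =>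
      absurd (hi (show (n + 1 + (n + 1)) • P = 0 • P by rw [add_nsmul, h, zero_nsmul])) (by omega)
    rcases hQ : (n + 1) • P with _ | ⟨x, y, h⟩
    · exact absurd (by rw [hQ]; rfl) h3
    rw [hQ] at h2 h3
    obtain ⟨X, rfl⟩ := he.mem x fun σ h => (fix_some (h2 σ h)).1
    obtain ⟨Y, rfl⟩ := he.mem y fun σ h => (fix_some (h2 σ h)).2
    have h4 : Y ^ 2 = X * (X ^ 2 + 30 * X + 289) := (e 0).injective (by
      simpa [map_ofNat] using (ns_iff _ _).1 h)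
    refine ⟨X, Y, ?_, h4, h, rfl⟩
    rintro rfl
    obtain rfl : Y = 0 := by simpa using h4
    exact h3 (Affine.Point.add_self_of_Y_eq (by rw [negY_eq, map_zero, neg_zero]))
  choose X Y hX hY hh hQ using h1
  have h5 : ∀ n, (EL L).toAffine.Nonsingular ((X n ^ 2 + 30 * X n + 289) / (4 * X n))
      (Y n * (289 - X n ^ 2) / (8 * X n ^ 2)) := fun n => ns (by
    have := hX n
    field_simp
    rw [hY n]
    ring)
  by_contra hf
  rw [not_infinite_iff_finite] at hf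
  obtain ⟨m, n, hmn, h⟩ := Finite.exists_ne_map_eq_of_infinite fun n : ℕ =>
    (Affine.Point.some _ _ (h5 n), e 0 (X n - 289 / X n) = (e 0 (X n - 289 / X n) ^ 2) ^ (2⁻¹ : ℂ),
      e 0 (Y n) = (e 0 (Y n) ^ 2) ^ (2⁻¹ : ℂ))
  simp only [Prod.mk.injEq, Affine.Point.some.injEq] at h
  obtain ⟨⟨a, -⟩, b, c⟩ := h
  have a' : X m + 289 / X m = X n + 289 / X n := by
    have := hX m
    have := hX n
    field_simp at a ⊢
    linear_combination a
  have b' := (e 0).injective (sgn_eq (by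
    rw [← map_pow, ← map_pow]
    congr 1
    have u := mul_div_cancel₀ (289 : L) (hX m)
    have v := mul_div_cancel₀ (289 : L) (hX n)
    linear_combination (X m + 289 / X m + X n + 289 / X n) * a' - 4 * u + 4 * v) b)
  have d : X m = X n := by linear_combination (a' + b') / 2
  have c' := sgn_eq (by rw [← map_pow, ← map_pow, hY, hY, d]) c
  refine hmn (Nat.succ_injective (hi ?_))
  simp only [Nat.succ_eq_add_one, hQ, Affine.Point.some.injEq]
  exact ⟨by rw [d], c'⟩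

end Pool.Agent.C17
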