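import Pool.Agent.Lib.MP_02f36d_nt.C17.St
import Pool.Agent.Lib.MP_02f36d_nt.C17.A1
import Pool.Agent.Lib.MP_d6ddbd_nt.Gal

/-! The three embeddings of a complex cubic field and its fundamental unit. -/

open NumberField
open scoped Classical IntermediateField
open Pool.Agent.Lib.MP_9177b7_ag.CM (hyp)
open Pool.Agent.Lib.MP_d6ddbd_nt (mem_of_fix)

noncomputable section

namespace Pool.Agent.C17.GalAux

variable {L : Type} [Field L] [NumberField L]

theorem ex_emb (h3 : Module.finrank ℚ L = 3) (hd : discr L < 0) :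
    ∃ e : ZMod 3 ≃ (L →+* ℂ), ∀ i x, starRingEnd ℂ (e i x) = e (-i) x := by
  obtain ⟨h1, h2⟩ := A1.places h3 hd
  obtain ⟨φ, hφ⟩ : Nonempty {φ : L →+* ℂ // ComplexEmbedding.IsReal φ} :=
    Fintype.card_pos_iff.1 (by rw [InfinitePlace.card_real_embeddings, h1]; norm_num)
  obtain ⟨ψ, hψ⟩ : Nonempty {φ : L →+* ℂ // ¬ ComplexEmbedding.IsReal φ} :=
    Fintype.card_pos_iff.1 (by rw [InfinitePlace.card_complex_embeddings, h2]; norm_num)
  have a1 : φ ≠ ψ := fun k => hψ (k ▸ hφ)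
  have a2 : φ ≠ ComplexEmbedding.conjugate ψ := fun k =>
    hψ (ComplexEmbedding.isReal_conjugate_iff.1 (k ▸ hφ))
  have a3 : ψ ≠ ComplexEmbedding.conjugate ψ := fun k =>
    hψ (ComplexEmbedding.isReal_iff.2 k.symm)
  let f : ZMod 3 → L →+* ℂ := ![φ, ψ, ComplexEmbedding.conjugate ψ]
  have hf : Function.Injective f := by
    intro i j
    fin_cases i <;> fin_cases j <;> intro k <;>
      first | rfl | exact absurd k ‹_› | exact absurd (Eq.symm k) ‹_›
  refine ⟨Equiv.ofBijective f ((Fintype.bijective_iff_injective_and_card f).2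
    ⟨hf, by rw [Embeddings.card, h3]; rfl⟩), fun i x => ?_⟩
  fin_cases i
  · exact DFunLike.congr_fun (ComplexEmbedding.isReal_iff.1 hφ) x
  · rfl
  · exact Complex.conj_conj _

/-- The matrix of the conjugates. -/
def mt (e : ZMod 3 ≃ (L →+* ℂ)) (b : ZMod 3 → 𝓞 L) : Matrix (ZMod 3) (ZMod 3) ℂ :=
  Matrix.of fun i j => e i (b j)

theorem ex_det (e : ZMod 3 ≃ (L →+* ℂ)) (hd : discr L < 0) :
    ∃ b : ZMod 3 → 𝓞 L, (mt e b).det ^ 2 = discr L ∧ 0 < (mt e b).det.im := by
  let b : ZMod 3 → 𝓞 L := fun j => RingOfIntegers.basis L (equivReindex L (e j))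
  have h1 : (mt e b).det ^ 2 = discr L := by
    rw [discr_eq_basisMatrix_det_sq, ← Matrix.det_submatrix_equiv_self e, ← Matrix.det_transpose]
    congr 2
    ext i j
    simp [mt, b]
  have h2 : (mt e b).det.im ≠ 0 := fun k => by
    have := congrArg Complex.re h1
    simp [sq, k] at this
    have h4 : (discr L : ℝ) < 0 := by exact_mod_cast hd
    nlinarith [mul_self_nonneg (mt e b).det.re]
  rcases h2.lt_or_gt with k | k
  · have h4 : (mt e (b ∘ Equiv.swap 0 1)).det = -(mt e b).det := by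
      have := Matrix.det_permute' (Equiv.swap 0 1) (mt e b)
      rw [Equiv.Perm.sign_swap (by decide)] at this
      exact this.trans (by simp)
    exact ⟨_, by rw [h4, neg_sq, h1], by rw [h4]; simpa using k⟩
  · exact ⟨b, h1, k⟩

omit [NumberField L] in
theorem ex_perm (e : ZMod 3 ≃ (L →+* ℂ)) (σ : ℂ ≃+* ℂ) :
    ∃ π : Equiv.Perm (ZMod 3), ∀ i x, σ (e i x) = e (π i) x := by
  let f : ZMod 3 → ZMod 3 := fun i => e.symm ((σ : ℂ →+* ℂ).comp (e i))
  have hf : Function.Injective f := fun i j k => e.injective (RingHom.ext fun x =>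
    σ.injective (DFunLike.congr_fun (e.symm.injective k) x))
  exact ⟨Equiv.ofBijective f (Finite.injective_iff_bijective.1 hf), fun i x => by simp [f]⟩

omit [NumberField L] in
theorem map_mt {e : ZMod 3 ≃ (L →+* ℂ)} {σ : ℂ ≃+* ℂ} {π : Equiv.Perm (ZMod 3)}
    (h : ∀ i x, σ (e i x) = e (π i) x) (b : ZMod 3 → 𝓞 L) :
    σ (mt e b).det = Equiv.Perm.sign π * (mt e b).det ∧
      σ (mt e b).permanent = (mt e b).permanent := by
  constructor
  · rw [← Matrix.det_permute, RingEquiv.map_det]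
    congr 1
    ext i j
    exact h _ _
  · refine Eq.trans ?_ (Matrix.permanent_permute_cols π _)
    simp [Matrix.permanent, mt, h]

theorem mod4 (e : ZMod 3 ≃ (L →+* ℂ)) (b : ZMod 3 → 𝓞 L) (h : (mt e b).det ^ 2 = discr L)
    (hs : Squarefree (discr L)) : discr L % 4 = 1 := by
  have i1 : ∀ π : Equiv.Perm (ZMod 3), IsIntegral ℤ (∏ i, mt e b (π i) i) := fun π =>
    IsIntegral.prod _ fun i _ => (b i).isIntegral_coe.map (e (π i)).toIntAlgHom
  obtain ⟨N, n1, n2⟩ : ∃ N : ℂ, IsIntegral ℤ N ∧ (mt e b).det = (mt e b).permanent - 2 * N := by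
    refine ⟨∑ π : Equiv.Perm (ZMod 3), if Equiv.Perm.sign π = 1 then 0 else ∏ i, mt e b (π i) i,
      IsIntegral.sum _ fun π _ => by split_ifs; exacts [isIntegral_zero, i1 π], ?_⟩
    rw [Matrix.det_apply', Matrix.permanent, Finset.mul_sum, ← Finset.sum_sub_distrib]
    refine Finset.sum_congr rfl fun π _ => ?_
    rcases Int.units_eq_one_or (Equiv.Perm.sign π) with k | k <;> rw [k]
    · simp
    · rw [if_neg (by decide)]
      simp
      ring
  have key : ∀ (x : ℂ) (q : ℚ), IsIntegral ℤ x → x = q → ∃ n : ℤ, x = n := by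
    rintro _ q k rfl
    obtain ⟨n, hn⟩ := IsIntegrallyClosed.isIntegral_iff.1
      ((isIntegral_algebraMap_iff (algebraMap ℚ ℂ).injective).1 k)
    exact ⟨n, by rw [← hn]; simp⟩
  have i2 : IsIntegral ℤ (mt e b).permanent := IsIntegral.sum _ fun π _ => i1 π
  obtain ⟨u, hu⟩ : ∃ u : ℤ, (mt e b).permanent = u := by
    have h1 := mem_of_fix (x := 0) (y := (mt e b).permanent) isIntegral_zero fun σ _ =>
      (ex_perm e σ).elim fun π k => (map_mt k b).2
    rw [IntermediateField.adjoin_zero, IntermediateField.mem_bot] at h1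
    obtain ⟨q, hq⟩ := h1
    exact key _ q i2 hq.symm
  obtain ⟨w, hw⟩ := key _ ((u ^ 2 - discr L) / 4) (n1.mul (i2.sub n1)) (by
    rw [n2, hu] at h
    rw [hu]
    push_cast
    linear_combination -h / 4)
  have h1 : discr L = u ^ 2 - 4 * w := by
    rw [n2, hu] at h
    rw [hu] at hw
    exact_mod_cast (by linear_combination -h - 4 * hw : (discr L : ℂ) = u ^ 2 - 4 * w)
  rcases Int.even_or_odd' u with ⟨k, rfl | rfl⟩
  · exact absurd (hs 2 ⟨k ^ 2 - w, by rw [h1]; ring⟩) (by decide)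
  · rw [h1, show (2 * k + 1) ^ 2 - 4 * w = 1 + 4 * (k ^ 2 + k - w) by ring]
    omega

theorem big (h3 : Module.finrank ℚ L = 3) (hd : discr L < 0) : discr L < -4 := by
  have h1 := abs_discr_ge (K := L) (by omega)
  rw [h3, abs_of_neg hd] at h1
  have h2 : (9 / 4 : ℝ) ^ 3 ≤ (3 * Real.pi / 4) ^ 3 :=
    pow_le_pow_left₀ (by norm_num) (by linarith [Real.pi_gt_three]) 3
  have h4 : (4 : ℝ) < ((-discr L : ℤ) : ℝ) := by linarith
  have h5 : (4 : ℤ) < -discr L := by exact_mod_cast h4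
  omega

theorem mem (φ : L →+* ℂ) (x : ℂ) (h : ∀ σ : ℂ ≃+* ℂ, (∀ y, σ (φ y) = φ y) → σ x = x) :
    ∃ y, φ y = x := by
  let pb := Field.powerBasisOfFiniteOfSeparable ℚ L
  have h1 := mem_of_fix (x := φ pb.gen) (y := x)
    ((Algebra.IsIntegral.isIntegral pb.gen).map φ.toRatAlgHom) fun σ k => h σ fun y =>
      DFunLike.congr_fun (pb.algHom_ext (f := ((σ : ℂ →+* ℂ).comp φ).toRatAlgHom)
        (g := φ.toRatAlgHom) k) y
  exact IntermediateField.adjoin_simple_le_iff.2
    (show φ pb.gen ∈ φ.toRatAlgHom.fieldRange from ⟨_, rfl⟩) h1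

end Pool.Agent.C17.GalAux

namespace Pool.Agent.C17

open GalAux

theorem gal : GalSt := by
  intro L _ _ h3 hd hs
  obtain ⟨e, he⟩ := ex_emb h3 hd
  obtain ⟨b, b1, b2⟩ := ex_det e hd
  have b0 : (mt e b).det ≠ 0 := fun k => by simp [k] at b2
  have sh : ∀ σ : ℂ ≃+* ℂ, σ (mt e b).det = (mt e b).det → ∃ a, Sh e σ a := fun σ k => by
    obtain ⟨π, hπ⟩ := ex_perm e σ
    have h1 : Equiv.Perm.sign π = 1 := by
      refine (Int.units_eq_one_or _).resolve_right fun k' => b0 ?_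
      have := (map_mt hπ b).1
      rw [k, k'] at this
      push_cast at this
      linear_combination this / 2
    have h2 : ∀ π : Equiv.Perm (ZMod 3), Equiv.Perm.sign π = 1 → ∃ a, ∀ i, π i = i + a := by
      decide
    obtain ⟨a, ha⟩ := h2 π h1
    exact ⟨a, fun i x => by rw [hπ, ha]⟩
  refine ⟨e, _, b1, b2, mod4 e b b1 hs, big h3 hd, e.injective,
    fun φ => ⟨e.symm φ, by simp⟩, he, sh, fun σ a k => ?_, ?_, ⟨b, rfl⟩, mem _⟩
  · have h2 : ∀ a : ZMod 3, Equiv.Perm.sign (Equiv.addRight a) = 1 := by decide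
    rw [(map_mt (π := Equiv.addRight a) k b).1, h2]
    simp
  · have : Countable L := Finsupp.Countable.of_moduleFinite (R := ℚ)
    obtain ⟨σ, hσ⟩ := hyp.ext L (e 0) (e 1) (e 0).injective (e 1).injective
    have key : ∀ τ : ℂ ≃+* ℂ, (∀ x, τ (e 0 x) = e 1 x) → τ (mt e b).det = (mt e b).det →
        ∃ σ, Sh e σ 1 := fun τ k1 k2 => by
      obtain ⟨a, ha⟩ := sh τ k2
      obtain rfl : 1 = a := by
        simpa using e.injective (RingHom.ext fun x => (k1 x).symm.trans (ha 0 x))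
      exact ⟨τ, ha⟩
    have h2 : σ (mt e b).det ^ 2 = (mt e b).det ^ 2 := by rw [← map_pow, b1, map_intCast]
    rcases sq_eq_sq_iff_eq_or_eq_neg.1 h2 with k | k
    · exact key σ hσ k
    · refine key ((starRingAut : ℂ ≃+* ℂ).trans σ) (fun x => ?_) ?_
      · exact (congrArg σ (he 0 x)).trans (hσ x)
      · have h4 : starRingEnd ℂ (mt e b).det ^ 2 = (mt e b).det ^ 2 := by
          rw [← map_pow, b1, map_intCast]
        rcases sq_eq_sq_iff_eq_or_eq_neg.1 h4 with k' | k'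
        · exact absurd (Complex.conj_eq_iff_im.1 k') b2.ne'
        · exact (congrArg σ k').trans (by rw [map_neg, k, neg_neg])

theorem unit : UnitSt := by
  intro L _ _ e δ h3 he
  have hd : discr L < 0 := by have := he.big; omega
  have hr := A1.rank_eq h3 hd
  have hs : Subsingleton (Fin (Units.rank L)) := by rw [hr]; infer_instance
  let i : Fin (Units.rank L) := ⟨0, by omega⟩
  have c1 : ComplexEmbedding.conjugate (e 0) = e 0 := RingHom.ext (he.cj 0)
  have c2 : ComplexEmbedding.conjugate (e 2) = e 1 := RingHom.ext (he.cj 2)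
  have w0 : InfinitePlace.mk (e 0) ≠ InfinitePlace.mk (e 1) := fun k => by
    rcases InfinitePlace.mk_eq_iff.1 k with k | k
    · exact absurd (he.inj k) (by decide)
    · exact absurd (he.inj (c1.symm.trans k)) (by decide)
  have w1 : ∀ w : {w // w ≠ InfinitePlace.mk (e 1)}, w = ⟨_, w0⟩ := fun w => by
    obtain ⟨j, hj⟩ := he.all w.1.embedding
    have h1 : w.1 = InfinitePlace.mk (e j) := by rw [← hj, InfinitePlace.mk_embedding]
    have h8 : ∀ a : ZMod 3, a = 0 ∨ a = 1 ∨ a = 2 := by decide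
    rcases h8 j with rfl | rfl | rfl
    · exact Subtype.ext h1
    · exact absurd h1 w.2
    · exact absurd (h1.trans (InfinitePlace.mk_eq_iff.2 (Or.inr c2))) w.2
  have : Subsingleton {w // w ≠ InfinitePlace.mk (e 1)} := ⟨fun a b => (w1 a).trans (w1 b).symm⟩
  let l : (𝓞 L)ˣ → ℝ := fun u => Real.log ‖e 0 ((u : 𝓞 L) : L)‖
  have n0 : ∀ u : (𝓞 L)ˣ, ‖e 0 ((u : 𝓞 L) : L)‖ ≠ 0 := fun u => by simp
  have l1 : ∀ u v, l (u * v) = l u + l v := fun u v => by
    simp only [l, Units.val_mul, map_mul, norm_mul, RingOfIntegers.coe_eq_algebraMap]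
    exact Real.log_mul (n0 u) (n0 v)
  have l2 : ∀ u (n : ℤ), l (u ^ n) = n * l u := fun u n => by
    have : (((u ^ n : (𝓞 L)ˣ) : 𝓞 L) : L) = ((u : 𝓞 L) : L) ^ n := Units.coe_zpow _ _
    simp only [l, this, map_zpow₀, norm_zpow, Real.log_zpow]
  have l3 : ∀ u, l (-u) = l u := fun u => by simp [l]
  have r1 : Units.regulator L = |l (Units.fundSystem L i)| := by
    rw [Units.regulator_eq_det L (InfinitePlace.mk (e 1))
      ⟨fun _ => i, fun _ => ⟨_, w0⟩, fun _ => Subsingleton.elim _ _, fun _ => Subsingleton.elim _ _⟩,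
      Matrix.det_eq_elem_of_subsingleton _ ⟨_, w0⟩, Matrix.of_apply,
      InfinitePlace.mult_isReal ⟨_, InfinitePlace.isReal_mk_iff.2
        (ComplexEmbedding.isReal_iff.2 c1)⟩]
    simp [l, InfinitePlace.apply]
  have r2 : ∀ u, ∃ n : ℤ, l u = n * l (Units.fundSystem L i) := fun u => by
    obtain ⟨⟨ζ, n⟩, k, -⟩ := Units.exist_unique_eq_mul_prod L u
    rw [Fintype.prod_subsingleton _ i] at k
    refine ⟨n i, ?_⟩
    rcases Units.torsion_eq_one_or_neg_one_of_odd_finrank (h3 ▸ (by decide : Odd 3)) ζ with h | h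
    · rw [k, ← l2]; simp [h]
    · rw [k, ← l2, ← l3]; simp [h]
  have re : ∀ x, e 0 x = (e 0 x).re := fun x => (Complex.conj_eq_iff_re.1 (he.cj 0 x)).symm
  obtain ⟨u, u1⟩ : ∃ u, l u = Units.regulator L := by
    rcases abs_choice (l (Units.fundSystem L i)) with k | k
    · exact ⟨_, (r1.trans k).symm⟩
    · exact ⟨Units.fundSystem L i ^ (-1 : ℤ), by rw [l2, r1, k]; simp⟩
  obtain ⟨v, v1, v2⟩ : ∃ v, l v = Units.regulator L ∧ 0 < (e 0 ((v : 𝓞 L) : L)).re := by
    have : (e 0 ((u : 𝓞 L) : L)).re ≠ 0 := fun k => n0 u (by rw [re, k]; simp)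
    rcases this.lt_or_gt with k | k
    · exact ⟨-u, (l3 u).trans u1, by simpa using k⟩
    · exact ⟨u, u1, k⟩
  refine ⟨((v : 𝓞 L) : L), ?_, ⟨_, v2, re _, ?_⟩, ?_⟩
  · rintro ⟨y, hy⟩
    have i1 : IsIntegral ℤ y := IsIntegral.of_pow two_pos (by
      rw [sq, ← hy]; exact (v : 𝓞 L).isIntegral_coe)
    obtain ⟨t, i2⟩ : ∃ t : 𝓞 L, t * t = v := ⟨⟨y, i1⟩, Subtype.ext hy.symm⟩
    obtain ⟨z, hz⟩ : IsUnit t := isUnit_of_mul_isUnit_left (by rw [i2]; exact v.isUnit)
    obtain rfl : v = z * z := Units.ext (by rw [Units.val_mul, hz, i2])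
    obtain ⟨n, hn⟩ := r2 z
    have p0 := Units.regulator_pos L
    rw [l1, hn] at v1
    have h1 : (|2 * n| : ℤ) * Units.regulator L = 1 * Units.regulator L := by
      have h0 : |Units.regulator L| = |((2 * n : ℤ) : ℝ) * l (Units.fundSystem L i)| := by
        rw [← v1]
        congr 1
        push_cast
        ring
      rw [abs_mul, ← r1, abs_of_pos p0, ← Int.cast_abs] at h0
      rw [one_mul, ← h0]
    have h2 : |2 * n| = 1 := by exact_mod_cast mul_right_cancel₀ p0.ne' h1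
    rcases abs_eq (by norm_num) |>.1 h2 with k | k <;> omega
  · rw [← v1, ← abs_of_pos v2, ← Real.norm_eq_abs, ← Complex.norm_real, ← re]
  · have h1 : ∏ j, e j ((v : 𝓞 L) : L) = (Algebra.norm ℚ ((v : 𝓞 L) : L) : ℚ) := by
      refine Eq.trans ?_ (Algebra.norm_eq_prod_embeddings ℚ ℂ _).symm
      exact Fintype.prod_bijective (fun j => (e j).toRatAlgHom) ⟨fun a b k => he.inj
        (congrArg (fun f : L →ₐ[ℚ] ℂ => (f : L →+* ℂ)) k), fun f =>
          (he.all (f : L →+* ℂ)).elim fun j k =>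
            ⟨j, AlgHom.ext fun x => (DFunLike.congr_fun k x).symm⟩⟩
        _ _ fun _ => rfl
    have h2 : |Algebra.norm ℚ ((v : 𝓞 L) : L)| = 1 := Units.norm L v
    have h4 : ∏ j, e j ((v : 𝓞 L) : L) = ((e 0 ((v : 𝓞 L) : L)).re *
        Complex.normSq (e 1 ((v : 𝓞 L) : L)) : ℝ) := by
      refine (Fin.prod_univ_three fun j : ZMod 3 => e j ((v : 𝓞 L) : L)).trans ?_
      rw [Complex.ofReal_mul, ← re, ← Complex.mul_conj, he.cj, mul_assoc]
      rfl
    rcases abs_eq zero_le_one |>.1 h2 with k | k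
    · rw [h1, k, Rat.cast_one]
    · rw [h1, k] at h4
      have h5 : (-1 : ℝ) = (e 0 ((v : 𝓞 L) : L)).re * Complex.normSq (e 1 ((v : 𝓞 L) : L)) := by
        exact_mod_cast h4
      nlinarith [Complex.normSq_nonneg (e 1 ((v : 𝓞 L) : L))]

end Pool.Agent.C17
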