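import Pool.Agent.Lib.MP_02f36d_nt.C17.St
import Pool.Agent.Lib.MP_d6ddbd_nt.GF.Geom

/-! Heegner points on `X₀(17)` with their cubic character. -/

open NumberField Finset UpperHalfPlane
open scoped Pointwise Classical MatrixGroups
open Pool.Agent.Lib.MP_9177b7_ag.CM
open Pool.Agent.Lib.MP_d6ddbd_nt
open Pool.Agent.Lib.MP_d6ddbd_nt.G (Pt br br_pt act_br_pt)
open Pool.Agent.Lib.MP_d6ddbd_nt.K (Hg G0 phi XX YY)
open Pool.Agent.Lib.MP_d6ddbd_nt.K.HeegAux (mem_hg Rt)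
open Pool.Agent.Lib.MP_d6ddbd_nt.GF (HI jH_sl)

noncomputable section

namespace Pool.Agent.C17

namespace Heeg

variable {D β n r : ℤ} {δ : ℂ} {z : ℍ} {Q : ℤ × ℤ × ℤ}

theorem nsq (hs : Squarefree D) (hD : D < -4) : ¬ IsSquare (-D) ∧ ¬ IsSquare (-3 * D) := by
  constructor
  · rintro ⟨m, h⟩
    have := Int.isUnit_iff.1 (hs m ⟨-1, by linear_combination -h⟩)
    rcases this with rfl | rfl <;> omega
  · rintro ⟨m, h⟩
    obtain ⟨k, rfl⟩ : (3 : ℤ) ∣ m :=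
      (Int.prime_three.dvd_or_dvd (⟨-D, by linear_combination -h⟩ : (3 : ℤ) ∣ m * m)).elim id id
    have := Int.isUnit_iff.1 (hs k ⟨-3, by nlinarith⟩)
    rcases this with rfl | rfl <;> omega

theorem om_sq (hδ : δ ^ 2 = D) (hn : 4 * n = 1 - D) : om δ ^ 2 = (1 : ℤ) * om δ - n := by
  have : 4 * (n : ℂ) = 1 - D := by exact_mod_cast hn
  rw [om]
  push_cast
  linear_combination hδ / 4 + this / 4

theorem om_im (him : 0 < δ.im) : 0 < (om δ).im := by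
  simpa [om] using him

theorem del_eq (hδ : δ ^ 2 = D) (him : 0 < δ.im) (h : Q ∈ Hg D β z) :
    2 * (17 * Q.1 : ℤ) * (z : ℂ) + Q.2.1 = δ := by
  obtain ⟨a1, a2, -, a4⟩ := h
  have h0 : 0 < (2 * (17 * Q.1 : ℤ) * (z : ℂ) + Q.2.1).im := by
    have h1 : (0 : ℝ) < Q.1 := by exact_mod_cast a1
    have h2 := z.im_pos
    simp
    positivity
  have h1 : (2 * (17 * Q.1 : ℤ) * (z : ℂ) + Q.2.1) ^ 2 = δ ^ 2 := by
    rw [hδ, ← a2]
    push_cast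
    linear_combination 68 * Q.1 * a4
  refine (sq_eq_sq_iff_eq_or_eq_neg.1 h1).resolve_right fun e => ?_
  rw [e, Complex.neg_im] at h0
  linarith

theorem stb (hδ : δ ^ 2 = D) (him : 0 < δ.im) (h : Q ∈ Hg D (1 - 2 * r) z) : Stb δ (sp z 1) := by
  have e := del_eq hδ him h
  obtain ⟨-, -, ⟨k, hk⟩, h4⟩ := h
  have hk' : (Q.2.1 : ℂ) - (1 - 2 * r) = 34 * k := by exact_mod_cast hk
  refine ⟨hyp.isLat_sp z, ?_⟩
  rw [smul_sp, sp_le, om, ← e]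
  exact ⟨mem_sp.2 ⟨r - 17 * k, -Q.2.2, by
      push_cast; linear_combination -h4 + (z : ℂ) / 2 * hk'⟩,
    mem_sp.2 ⟨17 * Q.1, 1 - r + 17 * k, by push_cast; linear_combination -hk' / 2⟩⟩

theorem up_eq (hδ : δ ^ 2 = D) (him : 0 < δ.im) (h17 : ¬ (17 : ℤ) ∣ 1 - 2 * r)
    (h : Q ∈ Hg D (1 - 2 * r) z) : sp (up 17 z) 1 = sp (17 : ℕ) (om δ - r) * sp z 1 := by
  have e := del_eq hδ him h
  obtain ⟨-, -, ⟨k, hk⟩, h4⟩ := h
  have hk' : (Q.2.1 : ℂ) - (1 - 2 * r) = 34 * k := by exact_mod_cast hk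
  rw [sp_mul, smul_sp, smul_sp, Norm.coe_up (by norm_num), om, ← e]
  apply le_antisymm
  · rw [sp_le]
    refine ⟨Submodule.mem_sup_left (left_mem_sp _ _),
      Lat.mem_of_coprime (l := 17) (by norm_num) h17 (Submodule.mem_sup_left (right_mem_sp _ _)) ?_⟩
    have := Submodule.add_mem_sup (S := sp ((17 : ℕ) * (z : ℂ)) ((17 : ℕ) * 1))
      (mem_sp.2 ⟨-Q.1, -k, rfl⟩) (right_mem_sp (((1 + (2 * (17 * Q.1 : ℤ) * (z : ℂ) + Q.2.1)) / 2 - r) * z)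
        (((1 + (2 * (17 * Q.1 : ℤ) * (z : ℂ) + Q.2.1)) / 2 - r) * 1))
    convert this using 1
    push_cast
    linear_combination -hk' / 2
  · rw [sup_le_iff, sp_le, sp_le]
    exact ⟨⟨left_mem_sp _ _, mem_sp.2 ⟨0, 17, by simp⟩⟩,
      mem_sp.2 ⟨-k, -Q.2.2, by push_cast; linear_combination -h4 + (z : ℂ) / 2 * hk'⟩,
      mem_sp.2 ⟨Q.1, 1 - 2 * r + 17 * k, by push_cast; linear_combination -hk' / 2⟩⟩

theorem ex_form (hδ : δ ^ 2 = D) (him : 0 < δ.im) {Λ : Submodule ℤ ℂ} (h : Stb δ Λ) :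
    ∃ A B C : ℤ, GF.Fm A B C (jL Λ) ∧ B ^ 2 - 4 * A * C = D := by
  obtain ⟨τ, c, hc, -, rfl⟩ := hyp.exists_fd h.1
  have h1 := smul_le_smul c⁻¹ h.2
  rw [smul_comm, smul_smul c⁻¹, inv_mul_cancel₀ hc, one_smul, smul_sp, sp_le] at h1
  obtain ⟨e, f, h2⟩ := mem_sp.1 h1.1
  obtain ⟨A, k, h3⟩ := mem_sp.1 h1.2
  rw [om] at h2 h3
  have h4 : δ = 2 * A * τ + 2 * k - 1 := by linear_combination -2 * h3
  have hA : 0 < A := by
    rw [h4] at him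
    simp at him
    have := pos_of_mul_pos_left him τ.im_pos.le
    exact_mod_cast (by linarith : (0 : ℝ) < A)
  have h5 : (A : ℂ) * τ ^ 2 + (k - e : ℤ) * (τ : ℂ) + (-f : ℤ) = 0 := by
    push_cast
    linear_combination (τ : ℂ) * h3 - h2
  obtain ⟨h6, h7⟩ := Lat.int_indep τ (4 * A * (k + e - 1)) ((2 * k - 1) ^ 2 + 4 * A * f) 0 D (by
    push_cast at h5 ⊢
    linear_combination hδ - (δ + 2 * A * τ + 2 * k - 1) * h4 - 4 * A * h5)
  have h8 : e = 1 - k := by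
    have := (mul_eq_zero.1 h6).resolve_left (by omega)
    omega
  exact ⟨A, k - e, -f, ⟨τ, ⟨hA, h5⟩, by rw [hyp.jL_smul _ hc, hyp.jL_sp]⟩, by
    rw [h8]; linear_combination h7⟩

theorem reps (hδ : δ ^ 2 = D) (him : 0 < δ.im) (hβ : (68 : ℤ) ∣ D - (1 - 2 * r) ^ 2)
    (h17 : ¬ (17 : ℤ) ∣ 1 - 2 * r) : Reps δ fun i : HI D (1 - 2 * r) => i.1.out := by
  refine ⟨fun i => stb hδ him i.mem, HI.inj h17, fun Λ h => ?_⟩
  obtain ⟨A, B, C, h1, h2⟩ := ex_form hδ him h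
  obtain ⟨z, h3, h4⟩ := GF.hg_ex hβ h17 h1 h2
  obtain ⟨i, γ, -, h5⟩ := HI.lift h3
  exact ⟨i, (congrArg jH h5).trans ((jH_sl _ _).trans h4)⟩

theorem reps_mul {I : Type} {x w : I → ℍ} {N N' : Submodule ℤ ℂ} (h : Reps δ x)
    (hs : ∀ Λ Λ', Stb δ Λ → Stb δ Λ' → Stb δ (Λ * Λ')) (hN : Stb δ N) (hN' : Stb δ N')
    (e : N * N' = sp 1 (om δ)) (hw : ∀ i, sp (w i) 1 = N * sp (x i) 1) : Reps δ w := by
  have k : ∀ Λ, Stb δ Λ → N' * (N * Λ) = Λ := fun Λ hΛ => by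
    rw [← mul_assoc, mul_comm N', e, ord_mul_eq_iff.2 hΛ.2]
  refine ⟨fun i => hw i ▸ hs _ _ hN (h.1 i), fun i i' e' => h.2.1 ?_, fun Λ hΛ => ?_⟩
  · obtain ⟨c, hc, e2⟩ := hyp.eq_smul_of_jL_eq (hyp.isLat_sp (w i)) (hyp.isLat_sp (w i'))
      (by rw [hyp.jL_sp, hyp.jL_sp]; exact e')
    have e3 := congrArg (N' * ·) e2
    simp only [hw, smul_mul_right, k _ (h.1 _)] at e3
    change jH _ = jH _
    rw [← hyp.jL_sp, ← hyp.jL_sp, e3, hyp.jL_smul _ hc]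
  · obtain ⟨i, hi⟩ := h.2.2 _ (hs _ _ hN' hΛ)
    obtain ⟨c, hc, e2⟩ := hyp.eq_smul_of_jL_eq (hs _ _ hN' hΛ).1 (hyp.isLat_sp (x i))
      (by rw [hyp.jL_sp, hi])
    refine ⟨i, ?_⟩
    rw [← hyp.jL_sp, hw, e2, smul_mul_right, hyp.jL_smul _ hc, ← mul_assoc, e,
      ord_mul_eq_iff.2 hΛ.2]

theorem gal (hδ : δ ^ 2 = D) (him : 0 < δ.im) (hs : Squarefree D) (hD : D < -4)
    (h17 : ¬ (17 : ℤ) ∣ β) {σ : ℂ ≃+* ℂ} (hσ : σ δ = δ) : ∃ π : HI D β ≃ HI D β, ∀ i,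
      G.act σ (br (phi i.1.out)) = br (phi (π i).1.out) ∧ jH (π i).1.out = σ (jH i.1.out) := by
  have key : ∀ i : HI D β, ∃ i' : HI D β,
      G.act σ (br (phi i.1.out)) = br (phi i'.1.out) ∧ jH i'.1.out = σ (jH i.1.out) := fun i => by
    obtain ⟨w, hc⟩ := GF.exists_cj σ i.1.out
    obtain ⟨j0, j1⟩ := K.dv_j 1 (by omega) β (nsq hs hD).1 (nsq hs hD).2 i.2
    obtain ⟨e1, e2⟩ := X.equivS σ _ w j0 j1 hc
    have h1 := GF.cj_hg i.mem hc (Or.inl rfl) (by rw [del_eq hδ him i.mem, hσ]; simp)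
    rw [one_mul] at h1
    obtain ⟨i', γ, h3, h4⟩ := HI.lift h1
    refine ⟨i', ?_, ?_⟩
    · rw [h4, K.phi_inv h3, phi, phi, act_br_pt σ (X.curS.1 _), e1, e2]
    · obtain ⟨c, c0, c1, -⟩ := hc
      have := c1.jL
      rw [hyp.jL_smul _ c0, hyp.jL_sp, hyp.jL_sp] at this
      rw [h4, jH_sl]
      exact this.symm
  choose f h0 h1 using key
  have := HI.finite (β := β) (show D < 0 by omega)
  have hf : Function.Injective f := fun i i' e => HI.inj h17 (σ.injective (by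
    rw [← h1, ← h1, e]))
  exact ⟨Equiv.ofBijective f hf.bijective_of_finite, fun i => ⟨h0 i, h1 i⟩⟩

theorem comm (hδ : δ ^ 2 = D) (him : 0 < δ.im) (hn : 4 * n = 1 - D) {σ σ' : ℂ ≃+* ℂ}
    (hσ : σ δ = δ) (hσ' : σ' δ = δ) {Λ : Submodule ℤ ℂ} (h : Stb δ Λ) :
    σ (σ' (jL Λ)) = σ' (σ (jL Λ)) := by
  have k : ∀ τ : ℂ ≃+* ℂ, τ δ = δ → τ (om δ) = om δ := fun τ e => by
    rw [om, map_div₀, map_add, map_one, e, map_ofNat]
  obtain ⟨A, -, -, -, -, a1, a2⟩ := hyp.cm_of_aut (om_sq hδ hn) (om_im him).ne' σ (k σ hσ)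
  obtain ⟨B, -, -, -, -, b1, b2⟩ := hyp.cm_of_aut (om_sq hδ hn) (om_im him).ne' σ' (k σ' hσ')
  have h1 := ord_mul_eq_iff.2 h.2
  rw [(a2 Λ h.1 h1).2, (b2 Λ h.1 h1).2,
    (a2 _ (b2 Λ h.1 h1).1 (by rw [← mul_assoc, b1])).2,
    (b2 _ (a2 Λ h.1 h1).1 (by rw [← mul_assoc, a1])).2, mul_left_comm]

theorem tt_eq (z : ℍ) : tt (br (phi z)) = X.tf z := by
  rw [phi, br_pt (X.curS.1 z), tt, if_neg ((GF.surj X.mdlS).2 z), ← X.mdlS.rel z]
  ring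

theorem log_tf (z : ℍ) :
    Real.log ‖X.tf z‖ = (lF z - lF (up 17 z) + 6 * Real.log 17) / 4 := by
  have h1 := congrArg (fun x : ℂ => Real.log ‖x‖) (X.modS.2.2.2.2.2.2.1 z)
  have h2 := norm_ne_zero_iff.2 (ModularForm.discriminant_ne_zero z)
  have h3 := norm_ne_zero_iff.2 (ModularForm.discriminant_ne_zero (up 17 z))
  have h4 := z.im_pos.ne'
  have h5 : (up 17 z).im = 17 * z.im := by
    rw [← coe_im, Norm.coe_up (by norm_num)]
    simp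
  simp only [norm_pow, norm_div, Real.log_pow] at h1
  rw [Real.log_div h2 h3] at h1
  rw [lF, lF, h5, Real.log_mul (by positivity) h2, Real.log_mul (by positivity) h3, Real.log_pow,
    Real.log_pow, Real.log_mul (by norm_num) h4]
  push_cast at h1 ⊢
  linear_combination h1 / 4

theorem card_eq {I : Type} [Fintype I] {c : I → ZMod 3} {s : ZMod 3} (hs : s ≠ 0) (π : I ≃ I)
    (h : ∀ i, c (π i) = c i + s) (k : ZMod 3) : #{i | c i = k} = #{i | c i = 0} := by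
  have key : ∀ k, #{i | c i = k} = #{i | c i = k + s} := fun k =>
    card_equiv π fun i => by simp [h]
  have : ∀ k s : ZMod 3, s ≠ 0 → k = 0 ∨ k = 0 + s ∨ k = 0 + s + s := by decide
  rcases this k s hs with rfl | rfl | rfl
  · rfl
  · exact (key 0).symm
  · exact ((key 0).trans (key _)).symm

theorem absl {I : Type} [Fintype I] {c : I → ZMod 3} {f g : I → ℝ} {T : I → ℂ} {s ν : ZMod 3}
    {C h R : ℝ} (hT : ∀ i, T i ≠ 0) (hl : ∀ i, Real.log ‖T i‖ = (f i - g i + C) / 4) (s0 : s ≠ 0)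
    (ν0 : ν ≠ 0) (hc : ∀ k, #{i | c i = k} = #{i | c i = 0})
    (l1 : ∀ k ≠ 0, ∑ i with c i = 0, f i - ∑ i with c i = k, f i = -12 * h * R)
    (l2 : ∀ k ≠ 0, ∑ i with ν + c i = 0, g i - ∑ i with ν + c i = k, g i = -12 * h * R) :
    ∃ (u v : ZMod 3) (κ : ℝ), u ≠ v ∧ ∀ k, Real.log ‖∏ i with s * c i = k, T i‖ =
      κ + 3 * h * R * ((if k = u then 1 else 0) - (if k = v then 1 else 0)) := by
  have f0 : ∀ s ν : ZMod 3, s ≠ 0 → ν ≠ 0 → -(s * ν) ≠ 0 := by decide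
  have f1 : ∀ s : ZMod 3, s ≠ 0 → ∀ k x, s * x = k ↔ x = s * k := by decide
  have f3 : ∀ s : ZMod 3, s ≠ 0 → ∀ k ν, k = -(s * ν) ↔ ν + s * k = 0 := by decide
  have f4 : ∀ s : ZMod 3, s ≠ 0 → ∀ k, k = 0 ↔ s * k = 0 := by decide
  refine ⟨-(s * ν), 0, (∑ i with c i = 0, f i - ∑ i with ν + c i = 0, g i +
    #{i | c i = 0} * C) / 4, f0 s ν s0 ν0, fun k => ?_⟩
  have f2 : ∑ i with c i = s * k, g i = ∑ i with ν + c i = ν + s * k, g i := by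
    simp only [add_right_inj]
  rw [norm_prod, Real.log_prod fun i _ => norm_ne_zero_iff.2 (hT i)]
  simp only [hl, f1 s s0, f3 s s0]
  rw [← sum_div, sum_add_distrib, sum_sub_distrib, sum_const, hc, nsmul_eq_mul, f2,
    if_congr (f4 s s0 k) rfl rfl]
  by_cases c1 : ν + s * k = 0 <;> by_cases c2 : s * k = 0
  · exact absurd (by rw [c2, add_zero] at c1; exact c1) ν0
  · rw [if_pos c1, if_neg c2, c1]
    linear_combination -l1 _ c2 / 4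
  · rw [if_neg c1, if_pos c2]
    have := l2 _ c1
    rw [c2] at this ⊢
    linear_combination this / 4
  · rw [if_neg c1, if_neg c2]
    linear_combination (l2 _ c1 - l1 _ c2) / 4

end Heeg

open Heeg

theorem heeg : HeegSt := by
  intro L _ _ e δ χ hs he hχ ⟨s, s0, hcm⟩ hlim
  obtain ⟨r, r1, r2, r3⟩ := hχ.sev
  have hδ := he.sq
  have him := he.im
  have hn : 4 * ((1 - discr L) / 4) = 1 - discr L := by have := he.mod4; omega
  have h17 : ¬ (17 : ℤ) ∣ 1 - 2 * r := fun h => r2 (by omega)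
  have hβ : (68 : ℤ) ∣ discr L - (1 - 2 * r) ^ 2 := by
    obtain ⟨k, hk⟩ := r1
    exact ⟨-k, by linear_combination hn - 4 * hk⟩
  have hfin := HI.finite (β := 1 - 2 * r) (show discr L < 0 by have := he.big; omega)
  let _ := Fintype.ofFinite (HI (discr L) (1 - 2 * r))
  have hR := reps hδ him hβ h17
  have ss : s * s = 1 := (by decide : ∀ s : ZMod 3, s ≠ 0 → s * s = 1) s s0
  have hg : ∀ σ a, Sh e σ a → ∃ π : HI (discr L) (1 - 2 * r) ≃ HI (discr L) (1 - 2 * r), ∀ i,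
      G.act σ (br (phi i.1.out)) = br (phi (π i).1.out) ∧ jH (π i).1.out = σ (jH i.1.out) ∧
        χ (sp (π i).1.out 1) = χ (sp i.1.out 1) + s * a := fun σ a h => by
    obtain ⟨π, hπ⟩ := gal hδ him hs he.big h17 (he.fix σ a h)
    exact ⟨π, fun i => ⟨(hπ i).1, (hπ i).2, hcm σ a h _ _ (hR.1 i) (hR.1 _)
      (by rw [hyp.jL_sp, hyp.jL_sp, (hπ i).2])⟩⟩
  refine ⟨HI (discr L) (1 - 2 * r), inferInstance, fun i => br (phi i.1.out),
    fun i => s * χ (sp i.1.out 1), fun σ a h => ?_, fun σ σ' a a' h h' i => ?_, ?_⟩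
  · obtain ⟨π, hπ⟩ := hg σ a h
    exact ⟨π, fun i => ⟨(hπ i).1, by rw [(hπ i).2.2, mul_add, ← mul_assoc, ss, one_mul]⟩⟩
  · obtain ⟨π, hπ⟩ := hg σ a h
    obtain ⟨π', hπ'⟩ := hg σ' a' h'
    have : π (π' i) = π' (π i) := HI.inj h17 (by
      have := comm hδ him hn (he.fix σ a h) (he.fix σ' a' h') (hR.1 i)
      rw [hyp.jL_sp] at this
      simp only [(hπ _).2.1, (hπ' _).2.1, this])
    rw [(hπ' i).1, (hπ i).1, (hπ _).1, (hπ' _).1, this]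
  · have hN : Stb δ (sp (17 : ℕ) (om δ - r)) := by
      have h1 := prime_lt (om_im him).ne' (l := 17) (by norm_num) r
      have h2 := isLat_ord (om_im him).ne'
      exact ⟨hyp.isLat_between (hyp.isLat_smul h2 (by norm_num)) h2 h1.1.le h1.2.le,
        smul_prime_le (om_sq hδ hn) (by simpa using r1)⟩
    obtain ⟨N', n1, n2⟩ := hχ.inv _ hN
    have hu := fun i : HI (discr L) (1 - 2 * r) => up_eq hδ him h17 i.mem
    have hR' := reps_mul hR hχ.stb hN n1 n2 hu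
    have l2 := hlim _ _ hR'
    simp only [hu, hχ.mul _ _ hN (hR.1 _)] at l2
    obtain ⟨σ, hσ⟩ := he.ex
    obtain ⟨π, hπ⟩ := hg σ 1 hσ
    exact absl (fun i => by rw [tt_eq]; exact X.mdlS.ne _) (fun i => by rw [tt_eq, log_tf]) s0
      (by simpa using r3) (card_eq s0 π fun i => by rw [(hπ i).2.2, mul_one]) (hlim _ _ hR) l2

end Pool.Agent.C17
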