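import Pool.Agent.Lib.MP_02f36d_nt.C17.St
import Pool.Agent.Lib.MP_02f36d_nt.C17.A1
import Pool.Agent.Lib.MP_9177b7_ag.CM.Main

/-! The limit formula for the cubic class character. -/

open NumberField Filter Topology UpperHalfPlane
open scoped Pointwise Classical
open Pool.Agent.Lib.MP_9177b7_ag.CM

noncomputable section

namespace Pool.Agent.C17.IdAux

variable {δ : ℂ} {z : ℍ}

theorem om_im (h : 0 < δ.im) : 0 < (om δ).im := by
  simp [om]
  linarith

theorem idx_sp (h : 0 < δ.im) (p q r s : ℤ) (hd : p * s - q * r ≠ 0) :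
    idx δ (sp (p + q * om δ) (r + s * om δ)) = (p * s - q * r).natAbs := by
  let φ : (Fin 2 → ℤ) →+ ℂ :=
    { toFun := fun u => u 0 + u 1 * om δ
      map_zero' := by simp
      map_add' := fun u v => by simp only [Pi.add_apply]; push_cast; ring }
  have h1 : φ.range = (sp 1 (om δ)).toAddSubgroup := by
    ext x
    rw [Submodule.mem_toAddSubgroup, mem_sp, AddMonoidHom.mem_range]
    exact ⟨fun ⟨u, e⟩ => ⟨u 0, u 1, by rw [mul_one]; exact e⟩,
      fun ⟨a, b, e⟩ => ⟨![a, b], by rw [mul_one] at e; exact e⟩⟩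
  let M : (Fin 2 → ℤ) →ₗ[ℤ] (Fin 2 → ℤ) := Matrix.toLin' !![p, r; q, s]
  have h2 : LinearMap.det M = p * s - q * r := by
    rw [LinearMap.det_toLin', Matrix.det_fin_two_of]; ring
  have h3 : Function.Injective M := by
    rw [← LinearMap.ker_eq_bot]
    by_contra k
    exact hd (h2 ▸ LinearMap.det_eq_zero_iff_ker_ne_bot.2 k)
  have h4 : (sp (p + q * om δ) (r + s * om δ)).toAddSubgroup.comap φ =
      (LinearMap.range M).toAddSubgroup := by
    ext u
    rw [AddSubgroup.mem_comap, Submodule.mem_toAddSubgroup, Submodule.mem_toAddSubgroup, mem_sp,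
      LinearMap.mem_range]
    constructor
    · rintro ⟨a, b, e⟩
      obtain ⟨e1, e2⟩ := int_of_im (om_im h).ne' (a := a * p + b * r - u 0)
        (b := a * q + b * s - u 1) (by
          change _ = (u 0 : ℂ) + u 1 * om δ at e
          push_cast
          linear_combination e)
      refine ⟨![a, b], funext fun i => ?_⟩
      fin_cases i <;> simp [M, Matrix.toLin'_apply, Matrix.mulVec, dotProduct] <;> linarith
    · rintro ⟨v, rfl⟩
      refine ⟨v 0, v 1, ?_⟩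
      change _ = ((M v 0 : ℤ) : ℂ) + (M v 1 : ℤ) * om δ
      simp [M, Matrix.toLin'_apply, Matrix.mulVec, dotProduct]
      ring
  rw [idx, ← h1, ← AddSubgroup.index_comap, h4, ← h2]
  exact (Submodule.natAbs_det_equiv (LinearMap.range M) (LinearEquiv.ofInjective M h3)).symm

/-- The form attached to a stable lattice. -/
structure Fo (δ : ℂ) (z : ℍ) (a b c k : ℤ) : Prop where
  pos : 0 < a
  om : om δ = a * (z : ℂ) + k
  tr : (a : ℂ) * starRingEnd ℂ z = -b - a * z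
  nm : (a : ℂ) * starRingEnd ℂ z * z = c

theorem fo (h : 0 < δ.im) (hz : Stb δ (sp z 1)) : ∃ a b c k, Fo δ z a b c k := by
  have h1 := hz.2
  rw [smul_sp, sp_le] at h1
  obtain ⟨u, v, e1⟩ := mem_sp.1 h1.1
  obtain ⟨a, k, e2⟩ := mem_sp.1 h1.2
  have ha : 0 < a := by
    have := om_im h
    rw [← mul_one (om δ), ← e2] at this
    simp at this
    exact_mod_cast pos_of_mul_pos_left this z.im_pos.le
  have e3 : (a : ℂ) * z ^ 2 + (k - u) * (z : ℂ) - v = 0 := by linear_combination z * e2 - e1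
  have e4 := congrArg (starRingEnd ℂ) e3
  simp only [map_sub, map_add, map_mul, map_pow, map_intCast, map_zero] at e4
  have n0 : (z : ℂ) - starRingEnd ℂ z ≠ 0 := fun k =>
    z.im_pos.ne' (Complex.conj_eq_iff_im.1 (sub_eq_zero.1 k).symm)
  have e5 : (a : ℂ) * starRingEnd ℂ z = -(k - u : ℤ) - a * z :=
    mul_left_cancel₀ n0 (by push_cast; linear_combination e3 - e4)
  exact ⟨a, k - u, -v, k, ha, by linear_combination -e2, e5, by
    rw [e5]; push_cast; linear_combination -e3⟩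

variable {a b c k : ℤ}

/-- The multiplier attached to a vector. -/
def ga (z : ℍ) (a : ℤ) (v : ℤ × ℤ) : ℂ := a * (v.1 * starRingEnd ℂ z + v.2)

theorem Fo.eq (h : Fo δ z a b c k) (v : ℤ × ℤ) : ga z a v • sp z 1 =
    sp ((v.1 * c - v.2 * k : ℤ) + v.2 * C17.om δ)
      ((a * v.2 - v.1 * b + v.1 * k : ℤ) + (-v.1 : ℤ) * C17.om δ) := by
  rw [smul_sp, ga, h.om]
  congr 1
  · push_cast; linear_combination v.1 * h.nm
  · push_cast; linear_combination v.1 * h.tr

theorem Fo.norm (h : Fo δ z a b c k) (v : ℤ × ℤ) :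
    ((a * v.2 ^ 2 - b * v.1 * v.2 + c * v.1 ^ 2 : ℤ) : ℝ) = a * ‖(v.1 : ℂ) * z + v.2‖ ^ 2 := by
  have h1 := Complex.mul_conj' ((v.1 : ℂ) * z + v.2)
  simp only [map_add, map_mul, map_intCast] at h1
  apply Complex.ofReal_injective
  push_cast
  linear_combination a * h1 - v.1 ^ 2 * h.nm - v.1 * v.2 * h.tr

theorem lin_ne {v : ℤ × ℤ} (hv : v ≠ 0) : (v.1 : ℂ) * z + v.2 ≠ 0 := fun e =>
  hv (Prod.ext_iff.2 (Lat.int_indep z v.1 v.2 0 0 (by simpa using e)))

theorem ga_inj (ha : 0 < a) {v w : ℤ × ℤ} (e : ga z a v = ga z a w) : v = w := by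
  have h1 := congrArg (starRingEnd ℂ) (mul_left_cancel₀ (Int.cast_ne_zero.2 ha.ne') e)
  simp only [map_add, map_mul, map_intCast, Complex.conj_conj] at h1
  exact Prod.ext_iff.2 (Lat.int_indep z _ _ _ _ h1)

theorem ga_neg (v : ℤ × ℤ) : ga z a (-v) = -ga z a v := by
  simp only [ga, Prod.fst_neg, Prod.snd_neg]; push_cast; ring

theorem ga_ne (ha : 0 < a) {v : ℤ × ℤ} (hv : v ≠ 0) : ga z a v ≠ 0 := fun e =>
  hv (ga_inj (z := z) ha (by rw [e]; simp [ga]))

theorem Fo.idx (h : Fo δ z a b c k) (hδ : 0 < δ.im) {v : ℤ × ℤ} (hv : v ≠ 0) (s : ℝ) :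
    (idx δ (ga z a v • sp z 1) : ℝ) ^ (-s) =
      (C17.om δ).im ^ (-s) * (z.im ^ s * ‖(v.1 : ℂ) * z + v.2‖ ^ (-(2 * s))) := by
  have a0 : (0 : ℝ) < a := by exact_mod_cast h.pos
  have n0 := norm_pos_iff.2 (lin_ne (z := z) hv)
  have h1 := h.norm v
  have h2 : (0 : ℤ) < a * v.2 ^ 2 - b * v.1 * v.2 + c * v.1 ^ 2 := by
    have : (0 : ℝ) < a * ‖(v.1 : ℂ) * z + v.2‖ ^ 2 := by positivity
    rw [← h1] at this
    exact_mod_cast this
  have h3 : (v.1 * c - v.2 * k) * (-v.1) - v.2 * (a * v.2 - v.1 * b + v.1 * k) =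
      -(a * v.2 ^ 2 - b * v.1 * v.2 + c * v.1 ^ 2) := by ring
  have h4 : (C17.om δ).im = a * z.im := by rw [h.om]; simp
  rw [h.eq, idx_sp hδ _ _ _ _ (h3 ▸ (neg_lt_zero.2 h2).ne), h3, Int.natAbs_neg, Nat.cast_natAbs,
    abs_of_pos h2, h1, h4, Real.mul_rpow a0.le (by positivity), Real.mul_rpow a0.le z.im_pos.le,
    ← Real.rpow_two, ← Real.rpow_mul n0.le, mul_neg, mul_assoc, ← mul_assoc (z.im ^ (-s)),
    ← Real.rpow_add z.im_pos, neg_add_cancel, Real.rpow_zero, one_mul]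

theorem Fo.le (h : Fo δ z a b c k) (v : ℤ × ℤ) : ga z a v • sp z 1 ≤ sp 1 (C17.om δ) := by
  rw [h.eq, sp_le]
  exact ⟨mem_sp.2 ⟨_, _, by rw [mul_one]⟩, mem_sp.2 ⟨_, _, by rw [mul_one]⟩⟩

theorem Fo.ex (h : Fo δ z a b c k) {γ : ℂ} (hγ : γ • sp z 1 ≤ sp 1 (C17.om δ)) :
    ∃ v, γ = ga z a v := by
  rw [smul_sp, sp_le] at hγ
  obtain ⟨p, q, e1⟩ := mem_sp.1 hγ.1
  obtain ⟨u, v, e2⟩ := mem_sp.1 hγ.2
  rw [h.om] at e1 e2
  obtain ⟨e3, -⟩ := Lat.int_indep z (q * a) (p + q * k) (u + v * k - v * b) (-(v * c)) (by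
    push_cast
    linear_combination e1 - z * e2 + v * z * h.tr - v * h.nm)
  have e4 : (q : ℂ) * a = u + v * k - v * b := by exact_mod_cast e3
  refine ⟨(-v, q), ?_⟩
  simp only [ga]
  push_cast
  linear_combination -e2 + v * h.tr - e4

variable {L : Type} [Field L] [NumberField L] {e : ZMod 3 → L →+* ℂ}
  {χ : Submodule ℤ ℂ → ZMod 3}

theorem unit_eq (he : Emb e δ) {u : ℂ} (hu : u • sp 1 (om δ) = sp 1 (om δ)) :
    u = 1 ∨ u = -1 := by
  have h1 := hu.le
  rw [smul_sp, sp_le] at h1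
  obtain ⟨p, q, e1⟩ := mem_sp.1 h1.1
  obtain ⟨x, hx, e2⟩ := mem_smul_iff.1 (hu.ge (left_mem_sp _ _))
  obtain ⟨r, s, rfl⟩ := mem_sp.1 hx
  obtain ⟨n, hn⟩ : ∃ n : ℤ, discr L = 1 - 4 * n := ⟨(1 - discr L) / 4, by have := he.mod4; omega⟩
  have h2 : om δ ^ 2 = om δ - n := by
    have := he.sq
    rw [hn] at this
    push_cast at this
    rw [om]
    linear_combination this / 4
  obtain ⟨e3, e4⟩ := int_of_im (om_im he.im).ne' (a := p * r - q * s * n - 1)
    (b := p * s + q * r + q * s) (by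
      push_cast
      linear_combination e2 + (r + s * om δ) * e1 - q * s * h2)
  have e5 : (p ^ 2 + p * q + n * q ^ 2) * (r ^ 2 + r * s + n * s ^ 2) = 1 := by
    linear_combination (p * r - q * s * n + 1 + (p * s + q * r + q * s)) * e3 +
      (1 + n * (p * s + q * r + q * s)) * e4
  have n2 : 2 ≤ n := by have := he.big; omega
  have e6 : p ^ 2 + p * q + n * q ^ 2 = 1 :=
    Int.eq_one_of_mul_eq_one_right (by nlinarith [sq_nonneg (2 * p + q), sq_nonneg q]) e5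
  obtain rfl : q = 0 := by
    by_contra k
    nlinarith [sq_nonneg (2 * p + q), sq_pos_of_ne_zero k]
  have e7 : p = 1 ∨ p = -1 := sq_eq_sq_iff_eq_or_eq_neg.1 (by linear_combination e6)
  rcases e7 with rfl | rfl
  · left; rw [← mul_one u, ← e1]; simp
  · right; rw [← mul_one u, ← e1]; simp

theorem stb_smul {Λ : Submodule ℤ ℂ} (h : Stb δ Λ) {γ : ℂ} (hγ : γ ≠ 0) : Stb δ (γ • Λ) :=
  ⟨hyp.isLat_smul h.1 hγ, by rw [smul_comm]; exact smul_le_smul γ h.2⟩

theorem hasSum_two {P T : Type} (Φ : P → T) (f : T → ℂ) {S : ℂ} (h : HasSum (fun p => f (Φ p)) S)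
    (hf : ∀ t, ∃ p q, p ≠ q ∧ ∀ r, Φ r = t ↔ r = p ∨ r = q) : HasSum (fun t => 2 * f t) S := by
  refine ((Equiv.sigmaFiberEquiv Φ).hasSum_iff.2 h).sigma fun t => ?_
  obtain ⟨p, q, h1, h2⟩ := hf t
  have h3 := hasSum_sum_of_ne_finset_zero (f := fun c : {x // Φ x = t} => f (Φ c.1))
    (s := {⟨p, (h2 p).2 (Or.inl rfl)⟩, ⟨q, (h2 q).2 (Or.inr rfl)⟩}) (L := .unconditional _)
    fun c hc => absurd (by simpa [Subtype.ext_iff] using (h2 c.1).1 c.2) hc
  rw [Finset.sum_pair (by simpa using h1)] at h3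
  dsimp only at h3
  rwa [(h2 p).2 (Or.inl rfl), (h2 q).2 (Or.inr rfl), ← two_mul] at h3

theorem series (hK : KronSt) (he : Emb e δ) (hχ : Lc e δ χ) {I : Type} [Fintype I] {z : I → ℍ}
    (hz : Reps δ z) {s : ℝ} (hs : 1 < s) :
    2 * ∑' Λ : {Λ // Stb δ Λ ∧ Λ ≤ sp 1 (om δ)}, w3 (χ Λ.1) * (idx δ Λ.1 : ℂ) ^ (-(s : ℂ)) =
      (((om δ).im ^ (-s) : ℝ) : ℂ) * ∑ i, w3 (χ (sp (z i) 1)) * Ep (z i) s := by
  choose a b c k h using fun i => fo he.im (hz.1 i)
  let Φ : (Σ _ : I, {v : ℤ × ℤ // v ≠ 0}) → {Λ // Stb δ Λ ∧ Λ ≤ sp 1 (om δ)} := fun p =>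
    ⟨ga (z p.1) (a p.1) p.2.1 • sp (z p.1) 1, stb_smul (hz.1 _) (ga_ne (h _).pos p.2.2),
      (h _).le _⟩
  have h1 : ∀ i, HasSum (fun v => w3 (χ (Φ ⟨i, v⟩).1) * (idx δ (Φ ⟨i, v⟩).1 : ℂ) ^ (-(s : ℂ)))
      ((((om δ).im ^ (-s) : ℝ) : ℂ) * (w3 (χ (sp (z i) 1)) * Ep (z i) s)) := fun i => by
    have h2 := ((Complex.hasSum_ofReal.2 (hK.1 (z i) s hs).hasSum).mul_left
      (w3 (χ (sp (z i) 1)))).mul_left (((om δ).im ^ (-s) : ℝ) : ℂ)
    refine (congrArg (HasSum · _) (funext fun v => ?_)).mpr h2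
    dsimp only [Φ]
    rw [hχ.smul _ _ (hz.1 i) (ga_ne (h i).pos v.2), ← Complex.ofReal_natCast, ← Complex.ofReal_neg,
      ← Complex.ofReal_cpow (Nat.cast_nonneg _), (h i).idx he.im v.2, Complex.ofReal_mul]
    ring
  have h2 : Summable fun p => w3 (χ (Φ p).1) * (idx δ (Φ p).1 : ℂ) ^ (-(s : ℂ)) :=
    .of_norm ((summable_sigma_of_nonneg fun _ => norm_nonneg _).2
      ⟨fun i => (h1 i).summable.norm, .of_finite⟩)
  have h3 := (h2.hasSum.sigma h1).unique (hasSum_fintype _)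
  rw [← tsum_mul_left, Finset.mul_sum, ← h3]
  refine (hasSum_two Φ (fun Λ => w3 (χ Λ.1) * (idx δ Λ.1 : ℂ) ^ (-(s : ℂ))) h2.hasSum
    fun t => ?_).tsum_eq
  obtain ⟨i, hi⟩ := hz.2.2 t.1 t.2.1
  obtain ⟨γ, γ0, hγ⟩ := hyp.eq_smul_of_jL_eq (hz.1 i).1 t.2.1.1 ((hyp.jL_sp _).trans hi)
  obtain ⟨v, rfl⟩ := (h i).ex (hγ ▸ t.2.2)
  have v0 : v ≠ 0 := by
    rintro rfl
    simp [ga] at γ0
  refine ⟨⟨i, v, v0⟩, ⟨i, -v, neg_ne_zero.2 v0⟩, fun k => ?_, fun r => ⟨fun k => ?_, ?_⟩⟩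
  · have k1 : v = -v := congrArg (fun p => p.2.1) k
    exact v0 (by rwa [eq_neg_iff_add_eq_zero, ← two_nsmul, two_nsmul_eq_zero] at k1)
  · obtain ⟨j, w, w0⟩ := r
    have k1 : ga (z j) (a j) w • sp (z j) 1 = ga (z i) (a i) v • sp (z i) 1 :=
      (congrArg Subtype.val k).trans hγ
    obtain rfl : j = i := hz.2.1 (by
      have := congrArg jL k1
      rwa [hyp.jL_smul _ γ0, hyp.jL_smul _ (ga_ne (h j).pos w0), hyp.jL_sp, hyp.jL_sp] at this)
    obtain ⟨Λ', -, hΛ⟩ := hχ.inv _ (hz.1 j)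
    have k2 := congrArg (fun X => (ga (z j) (a j) v)⁻¹ • (X * Λ')) k1
    simp only [smul_mul_left, hΛ, smul_smul, inv_mul_cancel₀ γ0, one_smul] at k2
    rcases unit_eq he k2 with k3 | k3 <;> rw [inv_mul_eq_iff_eq_mul₀ γ0] at k3
    · obtain rfl := ga_inj (h j).pos (k3.trans (mul_one _))
      exact Or.inl rfl
    · obtain rfl := ga_inj (h j).pos (k3.trans ((mul_neg_one _).trans (ga_neg v).symm))
      exact Or.inr rfl
  · rintro (rfl | rfl)
    · exact Subtype.ext hγ.symm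
    · refine Subtype.ext (Eq.trans ?_ hγ.symm)
      dsimp only [Φ]
      rw [ga_neg, smul_sp, smul_sp, neg_mul, neg_mul, Lat.sp_neg, sp_comm, Lat.sp_neg, sp_comm]

theorem residue (h3 : Module.finrank ℚ L = 3) (he : Emb e δ) :
    (om δ).im * dedekindZeta_residue L = Real.pi * Units.regulator L * classNumber L := by
  have hd : discr L < 0 := by have := he.big; omega
  obtain ⟨h1, h2⟩ := A1.places h3 hd
  have h4 : δ.re = 0 := by
    have := congrArg Complex.im he.sq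
    simp [sq] at this
    nlinarith [he.im]
  have h5 : δ.im ^ 2 = |(discr L : ℝ)| := by
    have := congrArg Complex.re he.sq
    simp [sq, h4] at this
    rw [abs_of_neg (by exact_mod_cast hd)]
    linarith
  have h6 : (om δ).im = δ.im / 2 := by simp [om]
  have := he.im
  rw [dedekindZeta_residue_def, h1, h2, Units.torsionOrder_eq_two_of_odd_finrank (by
    rw [h3]; decide), ← h5, Real.sqrt_sq he.im.le, h6]
  field_simp
  push_cast
  ring

theorem total (hK : KronSt) (h3 : Module.finrank ℚ L = 3) (he : Emb e δ) (hχ : Lc e δ χ)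
    {I : Type} [Fintype I] {z : I → ℍ} (hz : Reps δ z) :
    ∑ i, w3 (χ (sp (z i) 1)) * lF (z i) = ((-12 * classNumber L * Units.regulator L : ℝ) : ℂ) := by
  have o0 := om_im he.im
  have t0 : Tendsto (fun s : ℝ => (s : ℂ)) (𝓝[>] 1) (𝓝[≠] 1) := by
    refine tendsto_nhdsWithin_iff.2 ⟨?_, eventually_nhdsWithin_of_forall fun s hs => ?_⟩
    · exact (Complex.continuous_ofReal.tendsto 1).mono_left nhdsWithin_le_nhds
    · exact fun k => (ne_of_gt (Set.mem_Ioi.1 hs)) (Complex.ofReal_eq_one.1 k)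
  have t1 := riemannZeta_residue_one.comp t0
  have t2 : Tendsto (fun s : ℝ => (((om δ).im ^ s : ℝ) : ℂ)) (𝓝[>] 1) (𝓝 ((om δ).im : ℂ)) := by
    refine (Complex.continuous_ofReal.tendsto _).comp ?_
    simpa using ((Real.continuous_const_rpow o0.ne').tendsto 1).mono_left nhdsWithin_le_nhds
  have t3 : Tendsto (fun s : ℝ => ∑ i, w3 (χ (sp (z i) 1)) * Ep (z i) s) (𝓝[>] 1)
      (𝓝 (2 * ((om δ).im * (dedekindZeta_residue L / 1)))) := by
    refine ((t2.mul ((tendsto_sub_one_mul_dedekindZeta_nhdsGT L).div t1 one_ne_zero)).const_mul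
      2).congr' ?_
    filter_upwards [self_mem_nhdsWithin, t1.eventually_ne one_ne_zero] with s hs k
    have h1 := series hK he hχ hz hs
    have h2 : (((om δ).im ^ s : ℝ) : ℂ) * (((om δ).im ^ (-s) : ℝ) : ℂ) = 1 := by
      rw [← Complex.ofReal_mul, ← Real.rpow_add o0, add_neg_cancel, Real.rpow_zero,
        Complex.ofReal_one]
    rw [Function.comp_apply] at k
    rw [Pi.div_apply, hχ.zeta s hs, Function.comp_apply, ← mul_assoc ((s : ℂ) - 1),
      mul_div_cancel_left₀ _ k]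
    linear_combination (((om δ).im ^ s : ℝ) : ℂ) * h1 +
      (∑ i, w3 (χ (sp (z i) 1)) * Ep (z i) s) * h2
  have t4 : ∑ i, w3 (χ (sp (z i) 1)) = 0 := by
    have a1 : Tendsto (fun s : ℝ => (s : ℂ) - 1) (𝓝[>] 1) (𝓝 0) := by
      simpa using (t0.mono_right nhdsWithin_le_nhds).sub_const 1
    have a2 := a1.mul t3
    have a3 := tendsto_finsetSum Finset.univ fun i _ =>
      ((Complex.continuous_ofReal.tendsto _).comp (hK.2.1 (z i))).const_mul (w3 (χ (sp (z i) 1)))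
    have a4 := tendsto_nhds_unique (a3.congr fun s => by
      rw [Finset.mul_sum]
      refine Finset.sum_congr rfl fun i _ => ?_
      simp only [Function.comp_apply]
      push_cast
      ring) a2
    rw [zero_mul, ← Finset.sum_mul] at a4
    exact (mul_eq_zero.1 a4).resolve_right (by exact_mod_cast Real.pi_ne_zero)
  have a3 := tendsto_finsetSum Finset.univ fun i _ =>
    ((Complex.continuous_ofReal.tendsto _).comp (hK.2.2 (z i) UpperHalfPlane.I)).const_mul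
      (w3 (χ (sp (z i) 1)))
  have a4 := tendsto_nhds_unique (a3.congr fun s => by
    simp only [Function.comp_apply, Complex.ofReal_sub, mul_sub, Finset.sum_sub_distrib,
      ← Finset.sum_mul, t4, zero_mul, sub_zero]) t3
  have a5 := congrArg Complex.ofReal (residue h3 he)
  simp only [Complex.ofReal_mul, Complex.ofReal_sub, mul_sub, Finset.sum_sub_distrib,
    ← Finset.sum_mul, t4, zero_mul, mul_left_comm (w3 _), ← Finset.mul_sum] at a4
  have p0 : (Real.pi : ℂ) ≠ 0 := by exact_mod_cast Real.pi_ne_zero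
  refine mul_left_cancel₀ p0 ?_
  push_cast at a4 a5 ⊢
  linear_combination -6 * a4 - 12 * a5

end Pool.Agent.C17.IdAux

namespace Pool.Agent.C17

theorem idS : IdSt := by
  intro hK L _ _ e δ χ h3 he hχ I _ z hz k hk
  have h1 := IdAux.total hK h3 he hχ hz
  obtain ⟨S, hS⟩ : ∃ S : ZMod 3 → ℝ, ∀ k, S k = ∑ i with χ (sp (z i) 1) = k, lF (z i) :=
    ⟨_, fun _ => rfl⟩
  have h2 : ∑ i, w3 (χ (sp (z i) 1)) * lF (z i) = w3 0 * S 0 + w3 1 * S 1 + w3 2 * S 2 := by
    rw [← Finset.sum_fiberwise Finset.univ (fun i => χ (sp (z i) 1))]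
    refine Eq.trans (Finset.sum_congr rfl fun k _ => ?_)
      (Fin.sum_univ_three fun k : ZMod 3 => w3 k * S k)
    rw [hS, Complex.ofReal_sum, Finset.mul_sum]
    exact Finset.sum_congr rfl fun i hi => by rw [(Finset.mem_filter.1 hi).2]
  have w0 : w3 0 = 1 := by simp [w3]
  have w1 : w3 1 = Complex.exp (2 * Real.pi * Complex.I / (3 : ℕ)) := by
    rw [w3, show (1 : ZMod 3).val = 1 from rfl]; simp
  have w2 : w3 2 = w3 1 ^ 2 := by
    rw [w1, w3, show (2 : ZMod 3).val = 2 from rfl, ← Complex.exp_nat_mul]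
    congr 1
    push_cast
    ring
  have w4 : w3 1 ^ 2 = -1 - w3 1 := by
    have := (Complex.isPrimitiveRoot_exp 3 (by norm_num)).geom_sum_eq_zero (by norm_num)
    rw [← w1] at this
    simp only [Finset.sum_range_succ, Finset.sum_range_zero] at this
    linear_combination this
  have w5 : (w3 1).im ≠ 0 := fun k => by
    have := congrArg Complex.re w4
    simp [sq, k] at this
    nlinarith [sq_nonneg (2 * (w3 1).re + 1)]
  rw [h2, w0, w2, w4] at h1
  have a1 := congrArg Complex.im h1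
  have a2 := congrArg Complex.re h1
  simp only [Complex.add_im, Complex.mul_im, Complex.ofReal_im, Complex.ofReal_re, Complex.add_re,
    Complex.mul_re, Complex.sub_im, Complex.sub_re, Complex.neg_im, Complex.neg_re,
    Complex.one_im, Complex.one_re] at a1 a2
  have a3 : S 1 = S 2 := mul_left_cancel₀ w5 (by linarith)
  rw [← hS, ← hS]
  have h8 : ∀ a : ZMod 3, a ≠ 0 → a = 1 ∨ a = 2 := by decide
  rw [a3] at a2
  rcases h8 k hk with rfl | rfl
  · rw [a3]; linarith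
  · linarith

end Pool.Agent.C17
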