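import Mathlib

/-! Rows of the Epstein zeta function: comparison with an integral and the value at one. -/

open Filter Topology MeasureTheory Real

noncomputable section

namespace Pool.Agent.C17.Kr

/-- Comparison of a sum over the integers with the integral. -/
theorem em {f f' D : ℝ → ℝ} (hf : ∀ t, HasDerivAt f (f' t) t) (hc : Continuous f')
    (hD : ∀ t, |f' t| ≤ D t) (hDi : Integrable D) (hfi : Integrable f) :
    Summable (fun n : ℤ => f n) ∧ |∑' n : ℤ, f n - ∫ t, f t| ≤ ∫ t, D t := by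
  have h1 := hfi.hasSum_intervalIntegral 0
  have h2 := hDi.hasSum_intervalIntegral 0
  simp only [zero_add] at h1 h2
  have hD0 : ∀ t, 0 ≤ D t := fun t => (abs_nonneg _).trans (hD t)
  have loc : ∀ n : ℤ, ‖f n - ∫ t in (n : ℝ)..(n + 1), f t‖ ≤ ∫ t in (n : ℝ)..(n + 1), D t := by
    intro n
    have e : f n - ∫ t in (n : ℝ)..(n + 1), f t = ∫ t in (n : ℝ)..(n + 1), (f n - f t) := by
      rw [intervalIntegral.integral_sub intervalIntegrable_const hfi.intervalIntegrable]
      simp
    rw [e]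
    have := intervalIntegral.norm_integral_le_of_norm_le_const (a := (n : ℝ)) (b := n + 1)
      (C := ∫ t in (n : ℝ)..(n + 1), D t) (f := fun t => f n - f t) fun t ht => by
        rw [Set.uIoc_of_le (by linarith)] at ht
        rw [norm_sub_rev, ← intervalIntegral.integral_eq_sub_of_hasDerivAt (fun x _ => hf x)
          (hc.intervalIntegrable _ _)]
        calc ‖∫ x in (n : ℝ)..t, f' x‖ ≤ ∫ x in (n : ℝ)..t, D x :=
              intervalIntegral.norm_integral_le_of_norm_le ht.1.le
                (Eventually.of_forall fun x _ => hD x) hDi.intervalIntegrable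
          _ ≤ ∫ x in (n : ℝ)..(n + 1), D x :=
              intervalIntegral.integral_mono_interval le_rfl ht.1.le ht.2
                (Eventually.of_forall fun x => hD0 x) hDi.intervalIntegrable
    simpa using this
  have h3 : Summable fun n : ℤ => f n - ∫ t in (n : ℝ)..(n + 1), f t :=
    h2.summable.of_norm_bounded loc
  have h4 : Summable fun n : ℤ => f n := by simpa using h3.add h1.summable
  refine ⟨h4, ?_⟩
  have := tsum_of_norm_bounded h2 loc
  rwa [h4.tsum_sub h1.summable, h1.tsum_eq] at this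

/-- The basic kernel. -/
def ph (s u : ℝ) : ℝ := (1 + u ^ 2) ^ (-s)

/-- The integral of the kernel. -/
def cs (s : ℝ) : ℝ := ∫ u, ph s u

theorem ph_pos (s u : ℝ) : 0 < ph s u := rpow_pos_of_pos (by positivity) _

theorem ph_one (u : ℝ) : ph 1 u = (1 + u ^ 2)⁻¹ := rpow_neg_one _

theorem ph_le {s : ℝ} (hs : 1 ≤ s) (u : ℝ) : ph s u ≤ ph 1 u :=
  rpow_le_rpow_of_exponent_le (by nlinarith [sq_nonneg u]) (by linarith)

theorem ph_cont (s : ℝ) : Continuous (ph s) :=
  Continuous.rpow_const (by fun_prop) fun u => Or.inl (by positivity)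

theorem ph_int {s : ℝ} (hs : 1 ≤ s) : Integrable (ph s) :=
  integrable_inv_one_add_sq.mono' (ph_cont s).aestronglyMeasurable
    (Eventually.of_forall fun u => by
      rw [Real.norm_of_nonneg (ph_pos s u).le, ← ph_one]; exact ph_le hs u)

theorem cs_one : cs 1 = π := by
  rw [cs, funext ph_one, integral_univ_inv_one_add_sq]

theorem ph_tend (u : ℝ) : Tendsto (fun s => ph s u) (𝓝[>] 1) (𝓝 (ph 1 u)) := by
  have : ContinuousAt (fun s : ℝ => ph s u) 1 :=
    (continuousAt_const_rpow (by positivity)).comp continuous_neg.continuousAt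
  exact this.tendsto.mono_left nhdsWithin_le_nhds

theorem cs_tend : Tendsto cs (𝓝[>] 1) (𝓝 π) := by
  rw [← cs_one]
  refine tendsto_integral_filter_of_dominated_convergence (ph 1)
    (Eventually.of_forall fun s => (ph_cont s).aestronglyMeasurable) ?_ (ph_int le_rfl)
    (Eventually.of_forall ph_tend)
  filter_upwards [self_mem_nhdsWithin] with s hs
  exact Eventually.of_forall fun u => by
    rw [Real.norm_of_nonneg (ph_pos s u).le]; exact ph_le (le_of_lt hs) u

theorem sc_int {s : ℝ} (hs : 1 ≤ s) (x : ℝ) {Y : ℝ} (hY : 0 < Y) :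
    Integrable (fun t => ph s ((x + t) / Y)) ∧ ∫ t, ph s ((x + t) / Y) = Y * cs s := by
  refine ⟨((ph_int hs).comp_div hY.ne').comp_add_left x, ?_⟩
  rw [integral_add_left_eq_self (fun t => ph s (t / Y)) x, Measure.integral_comp_div,
    abs_of_pos hY, smul_eq_mul, cs]

/-- The remainder of a row. -/
def rho (s x Y : ℝ) : ℝ := ∑' n : ℤ, ph s ((x + n) / Y) - Y * cs s

theorem row {s : ℝ} (hs : 1 ≤ s) (x : ℝ) {Y : ℝ} (hY : 0 < Y) :
    Summable (fun n : ℤ => ph s ((x + n) / Y)) ∧ |rho s x Y| ≤ 2 * s * π := by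
  have h := em (f := fun t => ph s ((x + t) / Y))
    (f' := fun t => 2 * ((x + t) / Y) * Y⁻¹ * (-s) * ph (s + 1) ((x + t) / Y))
    (D := fun t => 2 * s / Y * ph 1 ((x + t) / Y)) (fun t => ?_) ?_ (fun t => ?_)
    ((sc_int le_rfl x hY).1.const_mul _) (sc_int hs x hY).1
  · refine ⟨h.1, ?_⟩
    have h2 := h.2
    rw [(sc_int hs x hY).2, integral_const_mul, (sc_int le_rfl x hY).2, cs_one] at h2
    refine h2.trans_eq ?_
    field_simp
  · have h1 : HasDerivAt (fun t : ℝ => 1 + ((x + t) / Y) ^ 2) (2 * ((x + t) / Y) * Y⁻¹) t := by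
      have := ((((hasDerivAt_id t).const_add x).div_const Y).pow 2).const_add 1
      simpa using this
    have := h1.rpow_const (p := -s) (Or.inl (by positivity))
    simp only [ph]
    convert this using 3
    ring
  · have := ph_cont (s + 1)
    fun_prop
  · set u := (x + t) / Y
    have hu : 0 < 1 + u ^ 2 := by positivity
    have h1 : ph (s + 1) u ≤ ph 2 u :=
      rpow_le_rpow_of_exponent_le (by nlinarith [sq_nonneg u]) (by linarith)
    have h2 : ph 2 u = ph 1 u * ph 1 u := by
      rw [ph, ph, ← rpow_add hu]; norm_num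
    have h3 : |u| * ph 1 u ≤ 1 := by
      rw [ph_one, ← div_eq_mul_inv, div_le_one hu]
      nlinarith [sq_abs u, abs_nonneg u, sq_nonneg (|u| - 1)]
    have h4 := ph_pos 1 u
    have h5 := ph_pos (s + 1) u
    have h6 : |u| * ph (s + 1) u ≤ ph 1 u := by
      calc |u| * ph (s + 1) u ≤ |u| * (ph 1 u * ph 1 u) := by
            rw [← h2]; exact mul_le_mul_of_nonneg_left h1 (abs_nonneg u)
        _ = (|u| * ph 1 u) * ph 1 u := by ring
        _ ≤ 1 * ph 1 u := mul_le_mul_of_nonneg_right h3 h4.le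
        _ = _ := one_mul _
    have e : |2 * u * Y⁻¹ * (-s) * ph (s + 1) u| = 2 * s / Y * (|u| * ph (s + 1) u) := by
      rw [abs_mul, abs_mul, abs_mul, abs_mul, abs_neg, abs_of_pos h5, abs_of_pos (inv_pos.mpr hY),
        abs_of_nonneg (by linarith : (0 : ℝ) ≤ s), abs_two]
      field_simp
    rw [e]
    exact mul_le_mul_of_nonneg_left h6 (by positivity)

theorem rho_tend (x : ℝ) {Y : ℝ} (hY : 0 < Y) :
    Tendsto (fun s => rho s x Y) (𝓝[>] 1) (𝓝 (rho 1 x Y)) := by
  refine Tendsto.sub ?_ (by rw [cs_one]; exact cs_tend.const_mul Y)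
  refine tendsto_tsum_of_dominated_convergence (row le_rfl x hY).1 (fun n => ph_tend _) ?_
  filter_upwards [self_mem_nhdsWithin] with s hs n
  rw [Real.norm_of_nonneg (ph_pos _ _).le]
  exact ph_le (le_of_lt hs) _

theorem im_inv (x Y : ℝ) (hY : 0 < Y) :
    (1 / ((x : ℂ) + Y * Complex.I)).im = -Y⁻¹ * ph 1 (x / Y) := by
  rw [one_div, Complex.inv_im, ph_one, Complex.normSq_add_mul_I]
  simp only [Complex.add_im, Complex.ofReal_im, Complex.mul_im, Complex.ofReal_re, Complex.I_im,
    Complex.I_re]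
  field_simp
  ring

theorem rho_one (x : ℝ) {Y : ℝ} (hY : 0 < Y) :
    rho 1 x Y = 2 * π * Y * (Complex.exp (2 * π * Complex.I * (x + Y * Complex.I)) /
      (1 - Complex.exp (2 * π * Complex.I * (x + Y * Complex.I)))).re := by
  set z : ℂ := x + Y * Complex.I with hz
  have hzi : z.im = Y := by simp [hz]
  have hm : z ∈ Complex.integerComplement := by
    rintro ⟨n, hn⟩
    have := congrArg Complex.im hn
    rw [hzi] at this
    simp at this
    linarith
  set q := Complex.exp (2 * π * Complex.I * z) with hq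
  have hq1 : 1 - q ≠ 0 := by
    intro h
    have h1 : ‖q‖ = 1 := by rw [← sub_eq_zero.mp h]; simp
    rw [hq, Complex.norm_exp, Real.exp_eq_one_iff] at h1
    have h2 : (2 * π * Complex.I * z).re = -(2 * π * Y) := by simp [hz]
    rw [h2] at h1
    have := Real.pi_pos
    nlinarith [mul_pos this hY]
  have h1 := cot_series_rep' hm
  have h2 := (summable_cotTerm hm).hasSum
  have h3 : HasSum (fun n : ℕ => 1 / (z - (n + 1)) + 1 / (z + (n + 1)))
      (π * Complex.cot (π * z) - 1 / z) := by rw [h1]; exact h2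
  have h4 := Complex.hasSum_im h3
  have e1 : ∀ n : ℕ, (1 / (z - (n + 1)) + 1 / (z + (n + 1))).im =
      -Y⁻¹ * (ph 1 ((x + ((n : ℝ) + 1)) / Y) + ph 1 ((x + -((n : ℝ) + 1)) / Y)) := by
    intro n
    have a1 : z - (n + 1) = ((x + -((n : ℝ) + 1) : ℝ) : ℂ) + Y * Complex.I := by
      rw [hz]; push_cast; ring
    have a2 : z + (n + 1) = ((x + ((n : ℝ) + 1) : ℝ) : ℂ) + Y * Complex.I := by
      rw [hz]; push_cast; ring
    rw [Complex.add_im, a1, a2, im_inv _ _ hY, im_inv _ _ hY]; ring
  have e2 : (π * Complex.cot (π * z) - 1 / z).im =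
      -π - 2 * π * (q / (1 - q)).re + Y⁻¹ * ph 1 (x / Y) := by
    have a : π * Complex.cot (π * z) = -(π * Complex.I) - 2 * π * Complex.I * (q / (1 - q)) := by
      rw [Complex.cot_pi_eq_exp_ratio, ← hq]
      field_simp
      rw [Complex.I_sq]; ring
    rw [Complex.sub_im, a, hz, im_inv _ _ hY]
    simp
  simp only [e1, e2] at h4
  have h5 := (row le_rfl x hY).1
  have h6 := h5.hasSum.nat_add_neg
  have h7 := (hasSum_nat_add_iff' 1).mpr h6
  simp only [Finset.range_one, Finset.sum_singleton, Nat.cast_zero, Int.cast_zero, neg_zero,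
    add_zero, Nat.cast_add, Nat.cast_one, Int.cast_add, Int.cast_natCast, Int.cast_one,
    Int.cast_neg] at h7
  have h8 := (h7.mul_left (-Y⁻¹)).unique h4
  rw [rho, cs_one]
  field_simp at h8
  linarith

/-- The Lambert series of the logarithm of the Euler product. -/
theorem lambert {q : ℂ} (hq : ‖q‖ < 1) :
    HasSum (fun m : ℕ => ((m : ℝ) + 1)⁻¹ * (q ^ (m + 1) / (1 - q ^ (m + 1))).re)
      (-Real.log ‖∏' n : ℕ, (1 - q ^ (n + 1))‖) := by
  have h0 := norm_nonneg q
  have hp : ∀ n : ℕ, ‖q ^ (n + 1)‖ < 1 := fun n => by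
    rw [norm_pow]; exact pow_lt_one₀ h0 hq (by omega)
  let F : ℕ × ℕ → ℂ := fun p => (q ^ (p.1 + 1)) ^ (p.2 + 1) / ((p.1 : ℂ) + 1)
  have hS : Summable F := by
    have g := summable_geometric_of_lt_one h0 hq
    have g2 : Summable fun p : ℕ × ℕ => ‖q‖ ^ p.1 * ‖q‖ ^ p.2 :=
      g.mul_of_nonneg g (fun _ => pow_nonneg h0 _) fun _ => pow_nonneg h0 _
    refine Summable.of_norm_bounded g2 fun p => ?_
    simp only [F]
    rw [norm_div, ← pow_mul, norm_pow, ← pow_add]
    have a : (1 : ℝ) ≤ ‖(p.1 : ℂ) + 1‖ := by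
      rw [← Nat.cast_succ, Complex.norm_natCast]; exact_mod_cast Nat.succ_pos _
    refine (div_le_self (by positivity) a).trans (pow_le_pow_of_le_one h0 hq.le ?_)
    nlinarith [Nat.zero_le (p.1 * p.2)]
  have h1 : HasSum (fun m : ℕ => q ^ (m + 1) / (1 - q ^ (m + 1)) / ((m : ℂ) + 1)) (∑' p, F p) :=
    hS.hasSum.prod_fiberwise fun m => by
      have := ((hasSum_geometric_of_norm_lt_one (hp m)).mul_left (q ^ (m + 1))).div_const
        ((m : ℂ) + 1)
      rw [← div_eq_mul_inv] at this
      simpa only [F, pow_succ' (q ^ (m + 1))] using this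
  have h2 : HasSum (fun n : ℕ => -Complex.log (1 - q ^ (n + 1))) (∑' p, F p) :=
    ((Equiv.prodComm ℕ ℕ).hasSum_iff.mpr hS.hasSum).prod_fiberwise fun n => by
      have := Complex.hasSum_taylorSeries_neg_log' (hp n)
      refine (congrArg (HasSum · _) (funext fun m => ?_)).mp this
      simp only [F, Function.comp, Equiv.prodComm_apply, Prod.swap]
      rw [← pow_mul, ← pow_mul, mul_comm]
  have h3 : HasSum (fun n : ℕ => Complex.log (1 - q ^ (n + 1))) (-∑' p, F p) := by
    simpa using h2.neg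
  have hne : ∀ n : ℕ, 1 - q ^ (n + 1) ≠ 0 := fun n h => by
    have := hp n
    rw [← sub_eq_zero.mp h] at this
    simp at this
  rw [← Complex.cexp_tsum_eq_tprod hne h3.summable, h3.tsum_eq, Complex.norm_exp, Real.log_exp,
    Complex.neg_re, neg_neg]
  refine (congrArg (HasSum · _) (funext fun m => ?_)).mp (Complex.hasSum_re h1)
  rw [show ((m : ℂ) + 1) = (((m : ℝ) + 1 : ℝ) : ℂ) by push_cast; rfl, Complex.div_ofReal_re]
  ring

end Pool.Agent.C17.Kr
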