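import Pool.Agent.Lib.MP_02f36d_nt.C17.St
import Pool.Agent.Lib.MP_02f36d_nt.C17.Kron0

/-! The first limit formula of Kronecker. -/

open Filter Topology Real UpperHalfPlane

noncomputable section

namespace Pool.Agent.C17

namespace Kr

theorem ev {f : ℤ → ℝ} (hf : Summable f) (he : ∀ n, f (-n) = f n) :
    ∑' n, f n = f 0 + 2 * ∑' n : ℕ, f (n + 1) := by
  have h := (hasSum_nat_add_iff' 1).mpr hf.hasSum.nat_add_neg
  simp only [he, Finset.range_one, Finset.sum_singleton, Nat.cast_zero, Nat.cast_add,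
    Nat.cast_one, ← two_mul] at h
  have h2 := h.tsum_eq
  rw [tsum_mul_left] at h2
  linarith

/-- The zeta function on the real line. -/
def Z (t : ℝ) : ℝ := ∑' n : ℕ, ((n : ℝ) + 1) ^ (-t)

theorem Z_sum {t : ℝ} (ht : 1 < t) : Summable fun n : ℕ => ((n : ℝ) + 1) ^ (-t) := by
  have := (summable_nat_add_iff 1).mpr (Real.summable_nat_rpow.mpr (by linarith : -t < -1))
  simpa using this

theorem Z_eq {t : ℝ} (ht : 1 < t) : Z t = ∑' n : ℕ, 1 / (n : ℝ) ^ t := by
  rw [(Real.summable_one_div_nat_rpow.mpr ht).tsum_eq_zero_add, Nat.cast_zero,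
    Real.zero_rpow (by linarith), div_zero, zero_add, Z]
  refine tsum_congr fun n => ?_
  rw [Real.rpow_neg (by positivity), one_div, Nat.cast_succ]

theorem pw_tend {a : ℝ} (ha : 0 < a) {g : ℝ → ℝ} (hg : Continuous g) :
    Tendsto (fun s => a ^ g s) (𝓝[>] 1) (𝓝 (a ^ g 1)) :=
  (((continuousAt_const_rpow ha.ne').comp hg.continuousAt).tendsto).mono_left nhdsWithin_le_nhds

theorem pw_le (n : ℕ) {s : ℝ} (hs : 1 < s) :
    ((n : ℝ) + 1) ^ (-(2 * s)) ≤ ((n : ℝ) + 1) ^ (-(2 : ℝ)) :=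
  rpow_le_rpow_of_exponent_le (by linarith [n.cast_nonneg (α := ℝ)]) (by linarith)

theorem Z_two : Tendsto (fun s => Z (2 * s)) (𝓝[>] 1) (𝓝 (π ^ 2 / 6)) := by
  have e : π ^ 2 / 6 = ∑' n : ℕ, ((n : ℝ) + 1) ^ (-(2 * 1 : ℝ)) := by
    rw [← Z, Z_eq (by norm_num), ← hasSum_zeta_two.tsum_eq]
    simp
  rw [e]
  refine tendsto_tsum_of_dominated_convergence (Z_sum one_lt_two)
    (fun n => pw_tend (by positivity) (by fun_prop)) ?_
  filter_upwards [self_mem_nhdsWithin] with s hs n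
  rw [Real.norm_of_nonneg (by positivity)]
  exact pw_le n hs

theorem Z_one : Tendsto (fun s => (s - 1) * Z (2 * s - 1)) (𝓝[>] 1) (𝓝 (1 / 2)) := by
  have h : Tendsto (fun s : ℝ => 2 * s - 1) (𝓝[>] 1) (𝓝[>] 1) := by
    refine tendsto_nhdsWithin_iff.mpr ⟨?_, ?_⟩
    · have : Continuous fun s : ℝ => 2 * s - 1 := by fun_prop
      exact (this.tendsto' 1 1 (by norm_num)).mono_left nhdsWithin_le_nhds
    · filter_upwards [self_mem_nhdsWithin] with s hs
      have : 1 < s := hs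
      show 1 < 2 * s - 1
      linarith
  refine ((tendsto_sub_mul_tsum_nat_rpow.comp h).div_const 2).congr' ?_
  filter_upwards [self_mem_nhdsWithin] with s hs
  have : 1 < s := hs
  rw [Z_eq (by linarith), Function.comp]
  ring

/-- The term of the Epstein series. -/
def T (τ : ℍ) (s : ℝ) (v : ℤ × ℤ) : ℝ := ‖(v.1 : ℂ) * τ + v.2‖ ^ (-(2 * s))

theorem T_sum (τ : ℍ) {s : ℝ} (hs : 1 < s) : Summable (T τ s) := by
  have h := ((EisensteinSeries.summable_one_div_norm_rpow (by linarith : 2 < 2 * s)).mul_left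
    (EisensteinSeries.r τ ^ (-(2 * s)))).of_nonneg_of_le (fun x => by positivity)
    (EisensteinSeries.summand_bound τ (by linarith : 0 ≤ 2 * s))
  exact (finTwoArrowEquiv ℤ).summable_iff.mp h

theorem T_row (τ : ℍ) (s : ℝ) (m : ℕ) (n : ℤ) : T τ s (m + 1, n) =
    τ.im ^ (-(2 * s)) * ((m : ℝ) + 1) ^ (-(2 * s)) *
      ph s ((((m : ℝ) + 1) * τ.re + n) / (((m : ℝ) + 1) * τ.im)) := by
  have hy := τ.im_pos
  have hm : (0 : ℝ) < m + 1 := by positivity
  have e : (((m + 1 : ℤ) : ℂ) * τ + n) = ((((m : ℝ) + 1) * τ.re + n : ℝ) : ℂ) +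
      ((((m : ℝ) + 1) * τ.im : ℝ) : ℂ) * Complex.I := by
    rw [← UpperHalfPlane.re_add_im τ]
    push_cast
    simp only [UpperHalfPlane.re_add_im]
    rw [← UpperHalfPlane.re_add_im τ]
    ring
  rw [T, e, ← Real.mul_rpow hy.le hm.le, ph, neg_mul_eq_mul_neg, Real.rpow_mul (norm_nonneg _),
    Real.rpow_mul (by positivity), ← Real.mul_rpow (by positivity) (by positivity),
    Real.rpow_two, Real.rpow_two, Complex.sq_norm, Complex.normSq_add_mul_I]
  congr 1
  field_simp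
  ring

/-- The remainder term of a row. -/
def R (τ : ℍ) (s : ℝ) (m : ℕ) : ℝ :=
  ((m : ℝ) + 1) ^ (-(2 * s)) * rho s (((m : ℝ) + 1) * τ.re) (((m : ℝ) + 1) * τ.im)

theorem R_le (τ : ℍ) {s : ℝ} (hs : s ∈ Set.Ioo (1 : ℝ) 2) (m : ℕ) :
    ‖R τ s m‖ ≤ ((m : ℝ) + 1) ^ (-(2 : ℝ)) * (4 * π) := by
  have hy := τ.im_pos
  rw [R, norm_mul, Real.norm_of_nonneg (by positivity), Real.norm_eq_abs]
  refine mul_le_mul (pw_le m hs.1) ((row hs.1.le _ (by positivity)).2.trans ?_) (abs_nonneg _)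
    (by positivity)
  nlinarith [hs.2, Real.pi_pos]

/-- The logarithm of the Euler product. -/
def lP (τ : ℍ) : ℝ := Real.log ‖∏' n : ℕ, (1 - Complex.exp (2 * π * Complex.I * τ) ^ (n + 1))‖

theorem R_tend (τ : ℍ) :
    Tendsto (fun s => ∑' m, R τ s m) (𝓝[>] 1) (𝓝 (2 * π * τ.im * -lP τ)) := by
  have hy := τ.im_pos
  have h := (lambert (norm_exp_two_pi_I_lt_one τ)).mul_left (2 * π * τ.im)
  rw [lP, ← h.tsum_eq]
  refine tendsto_tsum_of_dominated_convergence ((Z_sum one_lt_two).mul_right (4 * π))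
    (fun m => ?_) ?_
  · have hm : (0 : ℝ) < m + 1 := by positivity
    have := (pw_tend hm (g := fun s => -(2 * s)) (by fun_prop)).mul
      (rho_tend (((m : ℝ) + 1) * τ.re) (mul_pos hm hy))
    refine (congrArg (Tendsto _ _ <| 𝓝 ·) ?_).mp this
    have e : Complex.exp (2 * π * Complex.I * (((((m : ℝ) + 1) * τ.re : ℝ) : ℂ) +
        ((((m : ℝ) + 1) * τ.im : ℝ) : ℂ) * Complex.I)) =
        Complex.exp (2 * π * Complex.I * τ) ^ (m + 1) := by
      rw [← Complex.exp_nat_mul]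
      congr 1
      rw [← UpperHalfPlane.re_add_im τ]
      push_cast
      ring
    rw [rho_one _ (mul_pos hm hy), e, mul_one, Real.rpow_neg hm.le, Real.rpow_two]
    field_simp
  · filter_upwards [Ioo_mem_nhdsGT one_lt_two] with s hs m using R_le τ hs m

theorem Ep_eq (τ : ℍ) {s : ℝ} (hs : s ∈ Set.Ioo (1 : ℝ) 2) : Ep τ s =
    2 * (τ.im ^ s * Z (2 * s) + τ.im ^ (-s) * ∑' m, R τ s m) +
      τ.im ^ (1 - s) * (2 * cs s * Z (2 * s - 1)) := by
  have hy := τ.im_pos
  have h1 := hs.1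
  have hT := T_sum τ h1
  have a0 : Ep τ s = τ.im ^ s * ∑' v, T τ s v := by
    rw [Ep, tsum_mul_left]
    congr 1
    refine tsum_subtype_eq_of_support_subset (s := {v | v ≠ 0}) (f := T τ s) fun v hv h => hv ?_
    rw [h, T]
    simp only [Prod.fst_zero, Prod.snd_zero, Int.cast_zero, zero_mul, add_zero, norm_zero]
    exact Real.zero_rpow (by linarith)
  have a1 : ∑' n, T τ s (0, n) = 2 * Z (2 * s) := by
    rw [ev (hT.prod_factor 0) fun n => by simp [T]]
    simp only [T, Int.cast_zero, zero_mul, add_zero, zero_add, norm_zero]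
    rw [Real.zero_rpow (by linarith), zero_add, Z]
    congr 2 with n
    rw [Complex.norm_intCast, abs_of_pos (by positivity)]
    simp
  have a2 : ∀ m : ℕ, ∑' n, T τ s (m + 1, n) = τ.im ^ (-(2 * s)) * R τ s m +
      τ.im ^ (-(2 * s)) * τ.im * cs s * ((m : ℝ) + 1) ^ (-(2 * s - 1)) := fun m => by
    simp only [T_row]
    rw [tsum_mul_left, R, rho, show -(2 * s - 1) = -(2 * s) + 1 by ring,
      Real.rpow_add_one (by positivity)]
    ring
  have a3 : ∀ m : ℤ, ∑' n, T τ s (-m, n) = ∑' n, T τ s (m, n) := fun m => by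
    rw [← (Equiv.neg ℤ).tsum_eq]
    refine tsum_congr fun n => ?_
    simp only [T, Equiv.neg_apply, Int.cast_neg]
    rw [← norm_neg]
    congr 2
    ring
  have hR : Summable (R τ s) :=
    ((Z_sum one_lt_two).mul_right (4 * π)).of_norm_bounded (R_le τ hs)
  rw [a0, hT.tsum_prod, ev hT.prod a3, a1]
  simp only [a2]
  rw [(hR.mul_left _).tsum_add ((Z_sum (by linarith)).mul_left _), tsum_mul_left, tsum_mul_left,
    ← Z]
  have e1 : τ.im ^ (-s) = τ.im ^ s * τ.im ^ (-(2 * s)) := by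
    rw [← Real.rpow_add hy]; congr 1; ring
  rw [show 1 - s = -s + 1 by ring, Real.rpow_add_one hy.ne', e1]
  ring

theorem A_tend (τ : ℍ) :
    Tendsto (fun s => 2 * (τ.im ^ s * Z (2 * s) + τ.im ^ (-s) * ∑' m, R τ s m)) (𝓝[>] 1)
      (𝓝 (π ^ 2 * τ.im / 3 - 4 * π * lP τ)) := by
  have hy := τ.im_pos
  have := (((pw_tend hy continuous_id).mul Z_two).add
    ((pw_tend hy continuous_neg).mul (R_tend τ))).const_mul 2
  refine (congrArg (Tendsto _ _ <| 𝓝 ·) ?_).mp this
  rw [id, Real.rpow_one, Real.rpow_neg_one]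
  field_simp
  ring

theorem B_tend : Tendsto (fun s => (s - 1) * (2 * cs s * Z (2 * s - 1))) (𝓝[>] 1) (𝓝 π) := by
  have := (cs_tend.mul Z_one).const_mul 2
  rw [show 2 * (π * (1 / 2)) = π by ring] at this
  exact this.congr fun s => by ring

theorem sl {y : ℝ} (hy : 0 < y) :
    Tendsto (fun s : ℝ => (s - 1)⁻¹ * (y ^ (1 - s) - 1)) (𝓝[>] 1) (𝓝 (-Real.log y)) := by
  have h := ((hasDerivAt_id (1 : ℝ)).const_sub 1).const_rpow hy
  have h2 := h.tendsto_slope.mono_left (nhdsGT_le_nhdsNE 1)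
  simp only [id, sub_self, Real.rpow_zero, mul_one, mul_neg] at h2
  refine h2.congr fun s => ?_
  simp [slope]

theorem lF_eq (τ : ℍ) : lF τ = 6 * Real.log τ.im - 2 * π * τ.im + 24 * lP τ := by
  have hy := τ.im_pos
  have h := ModularForm.eta_tprod_ne_zero τ.2
  rw [lF, ModularForm.discriminant, ModularForm.eta, norm_pow, norm_mul,
    Function.Periodic.norm_qParam,
    Real.log_mul (by positivity) (by positivity), Real.log_pow, Real.log_pow,
    Real.log_mul (by positivity) (by positivity), Real.log_exp, lP]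
  simp only [ModularForm.eta_q_eq_pow, UpperHalfPlane.coe_im]
  push_cast
  ring

end Kr

open Kr in
theorem kron : KronSt := by
  have h0 : Tendsto (fun s : ℝ => s - 1) (𝓝[>] 1) (𝓝 0) :=
    ((continuous_sub_right (1 : ℝ)).tendsto' 1 0 (by norm_num)).mono_left nhdsWithin_le_nhds
  refine ⟨fun τ s hs => ((T_sum τ hs).subtype _).mul_left _, fun τ => ?_, fun τ τ' => ?_⟩
  · have := (h0.mul (A_tend τ)).add
      ((pw_tend τ.im_pos (g := fun s => 1 - s) (by fun_prop)).mul B_tend)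
    simp only [zero_mul, zero_add, sub_self, Real.rpow_zero, one_mul] at this
    refine this.congr' ?_
    filter_upwards [Ioo_mem_nhdsGT one_lt_two] with s hs
    rw [Ep_eq τ hs]
    ring
  · have := ((A_tend τ).sub (A_tend τ')).add (((sl τ.im_pos).sub (sl τ'.im_pos)).mul B_tend)
    refine ((congrArg (Tendsto _ _ <| 𝓝 ·) ?_).mp this).congr' ?_
    · rw [lF_eq, lF_eq]
      ring
    · filter_upwards [Ioo_mem_nhdsGT one_lt_two] with s hs
      have : s - 1 ≠ 0 := sub_ne_zero.mpr hs.1.ne'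
      rw [Ep_eq τ hs, Ep_eq τ' hs]
      field_simp
      ring

end Pool.Agent.C17
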