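import Pool.Agent.Lib.MP_02f36d_nt.C17.St

/-! The Heegner point has infinite order. -/

open NumberField
open scoped Classical
open Pool.Agent.Lib.MP_d6ddbd_nt.G (Pt act)

noncomputable section

namespace Pool.Agent.C17.NtAux

variable {L : Type} [Field L] [NumberField L] {e : ZMod 3 → L →+* ℂ} {δ : ℂ} {ε : L}
  {σ τ : ℂ ≃+* ℂ} {a b : ZMod 3}

theorem act_trans (σ τ : ℂ ≃+* ℂ) (P : Pt) : act (σ.trans τ) P = act τ (act σ P) := by
  cases P <;> rfl

theorem act_symm (σ : ℂ ≃+* ℂ) (P : Pt) : act σ.symm (act σ P) = P := by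
  rw [← act_trans, RingEquiv.self_trans_symm]
  cases P <;> rfl

/-- Complex conjugation. -/
def cj : ℂ ≃+* ℂ := starRingAut

theorem cj_apply (x : ℂ) : cj x = starRingEnd ℂ x := rfl

theorem cj_cj (P : Pt) : act cj (act cj P) = P := by
  have : cj.symm = cj := RingEquiv.ext fun x => by
    rw [RingEquiv.symm_apply_eq, cj_apply, cj_apply, Complex.conj_conj]
  simpa [this] using act_symm cj P

omit [NumberField L] in
theorem sh_trans (h : Sh e σ a) (h' : Sh e τ b) : Sh e (σ.trans τ) (a + b) := fun i x => by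
  rw [RingEquiv.trans_apply, h, h', add_assoc]

omit [NumberField L] in
theorem sh_symm (h : Sh e σ a) : Sh e σ.symm (-a) := fun i x => by
  rw [RingEquiv.symm_apply_eq, h, neg_add_cancel_right]

theorem sh_cj (he : Emb e δ) (h : Sh e σ a) : Sh e ((cj.trans σ).trans cj) (-a) := fun i x => by
  rw [RingEquiv.trans_apply, RingEquiv.trans_apply, cj_apply, cj_apply, he.cj, h, he.cj, neg_add,
    neg_neg]

theorem sh_ex (he : Emb e δ) (a : ZMod 3) : ∃ σ, Sh e σ a := by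
  obtain ⟨σ, h⟩ := he.ex
  have h3 : ∀ a : ZMod 3, a = 1 + -1 ∨ a = 1 ∨ a = -1 := by decide
  rcases h3 a with rfl | rfl | rfl
  exacts [⟨_, sh_trans h (sh_symm h)⟩, ⟨_, h⟩, ⟨_, sh_symm h⟩]

theorem dich (he : Emb e δ) (h : ∀ y, σ (e 0 y) = e 0 y) :
    Sh e σ 0 ∨ Sh e (σ.trans cj) 0 := by
  have key : ∀ τ : ℂ ≃+* ℂ, (∀ y, τ (e 0 y) = e 0 y) → τ δ = δ → Sh e τ 0 := fun τ h1 h2 => by
    obtain ⟨a, ha⟩ := he.sh τ h2
    obtain rfl : 0 = a := by
      have : e 0 = e (0 + a) := RingHom.ext fun x => (h1 x).symm.trans (ha 0 x)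
      simpa using he.inj this
    exact ha
  have h2 : σ δ ^ 2 = δ ^ 2 := by rw [← map_pow, he.sq, map_intCast]
  rcases sq_eq_sq_iff_eq_or_eq_neg.1 h2 with k | k
  · exact Or.inl (key σ h k)
  · refine Or.inr (key _ (fun y => ?_) ?_)
    · rw [RingEquiv.trans_apply, h, cj_apply, he.cj, neg_zero]
    · have h3 : starRingEnd ℂ δ ^ 2 = δ ^ 2 := by rw [← map_pow, he.sq, map_intCast]
      rcases sq_eq_sq_iff_eq_or_eq_neg.1 h3 with k' | k'
      · exact absurd (Complex.conj_eq_iff_im.1 k') he.im.ne'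
      · rw [RingEquiv.trans_apply, k, map_neg, cj_apply, k', neg_neg]

/-- No conjugate of the unit is a square in the Galois closure. -/
theorem not_sq (he : Emb e δ) (hε : Fu e ε) {j : ZMod 3} {w : ℂ} (hw : e j ε = w ^ 2)
    (hf : ∀ τ, Sh e τ 0 → τ w = w) : False := by
  obtain ⟨σ, hσ⟩ := sh_ex he (-j)
  obtain ⟨h1, ⟨r, r0, r1, -⟩, -⟩ := hε
  have a1 : e 0 ε = σ w ^ 2 := by rw [← map_pow, ← hw, hσ, add_neg_cancel]
  have a2 : ∀ τ, Sh e τ 0 → τ (σ w) = σ w := fun τ h => by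
    have := hf _ (by simpa using sh_trans (sh_trans hσ h) (sh_symm hσ))
    simpa [RingEquiv.symm_apply_eq] using this
  have a3 : starRingEnd ℂ (σ w) = σ w := by
    have h3 : starRingEnd ℂ (σ w) ^ 2 = σ w ^ 2 := by rw [← map_pow, ← a1, he.cj, neg_zero]
    rcases sq_eq_sq_iff_eq_or_eq_neg.1 h3 with k | k
    · exact k
    · have h4 : (r : ℂ) = -(Complex.normSq (σ w) : ℂ) := by
        rw [← r1, a1, ← Complex.mul_conj, k]; ring
      have h5 : r = -Complex.normSq (σ w) := by exact_mod_cast h4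
      linarith [Complex.normSq_nonneg (σ w)]
  obtain ⟨y, hy⟩ := he.mem (σ w) fun τ h => (dich he h).elim (a2 τ) fun k => by
    have := a2 _ k
    rw [RingEquiv.trans_apply, cj_apply] at this
    have h5 := congrArg (starRingEnd ℂ) this
    rwa [Complex.conj_conj, a3] at h5
  exact h1 ⟨y, (e 0).injective (by rw [map_mul, hy, a1, sq])⟩

theorem log_unit (he : Emb e δ) (hε : Fu e ε) (j : ZMod 3) : e j ε ≠ 0 ∧
    Real.log ‖e j ε‖ = Units.regulator L * (3 * (if j = 0 then 1 else 0) - 1) / 2 := by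
  obtain ⟨-, ⟨r, r0, r1, r2⟩, h3⟩ := hε
  have h4 : e 0 ε * e 1 ε * e 2 ε = 1 := by
    rw [← h3]
    exact (Fin.prod_univ_three fun i : ZMod 3 => e i ε).symm
  have n0 : ∀ j, e j ε ≠ 0 := fun j k => by
    rw [map_eq_zero] at k
    simp [k] at h4
  have h5 : ‖e 2 ε‖ = ‖e 1 ε‖ := by
    rw [show (2 : ZMod 3) = -1 from rfl, ← he.cj, Complex.norm_conj]
  have h6 : Real.log ‖e 0 ε‖ = Units.regulator L := by
    rw [r1, Complex.norm_real, Real.norm_of_nonneg r0.le, r2]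
  have h7 := congrArg (fun x => Real.log ‖x‖) h4
  simp only [norm_mul, norm_one, Real.log_one] at h7
  rw [Real.log_mul (by simp [n0]) (by simp [n0]), Real.log_mul (by simp [n0]) (by simp [n0]), h5,
    h6] at h7
  refine ⟨n0 j, ?_⟩
  have h8 : ∀ a : ZMod 3, a = 0 ∨ a = 1 ∨ a = 2 := by decide
  rcases h8 j with rfl | rfl | rfl
  · rw [h6, if_pos rfl]; ring
  · rw [if_neg (by decide)]; linarith
  · rw [if_neg (by decide), h5]; linarith

/-- The class of `g` modulo fourth powers is that of the point `P`. -/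
def Rel (H : Set (ℂ ≃+* ℂ)) (P : Pt) (g : ℂ) : Prop :=
  (∀ σ ∈ H, act σ P = P) ∧ ∃ c : ℂ, c ≠ 0 ∧ (∀ σ ∈ H, σ c = c) ∧ g = tt P * c ^ 4

variable {H : Set (ℂ ≃+* ℂ)} {P Q : Pt} {g g' : ℂ}

theorem tt_zero : tt 0 = 1 := rfl

theorem Rel.zero : Rel H 0 1 := ⟨fun _ _ => map_zero _, 1, one_ne_zero, fun _ _ => map_one _, by
  rw [tt_zero]; ring⟩

theorem Rel.add (h4 : FourSt) (h : Rel H P g) (h' : Rel H Q g') : Rel H (P + Q) (g * g') := by
  obtain ⟨a1, c, a2, a3, rfl⟩ := h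
  obtain ⟨b1, c', b2, b3, rfl⟩ := h'
  obtain ⟨d, d1, d2, d3⟩ := h4.2.2 P Q
  refine ⟨fun σ k => by rw [map_add, a1 σ k, b1 σ k], d * c * c', by positivity, fun σ k => ?_, ?_⟩
  · rw [map_mul, map_mul, a3 σ k, b3 σ k, d3 σ (a1 σ k) (b1 σ k)]
  · linear_combination c ^ 4 * c' ^ 4 * d2

theorem Rel.neg (h4 : FourSt) (h : Rel H P g) : Rel H (-P) g⁻¹ := by
  obtain ⟨a1, c, a2, a3, rfl⟩ := h
  obtain ⟨d, d1, d2, d3⟩ := h4.2.2 P (-P)
  have b1 : ∀ σ ∈ H, act σ (-P) = -P := fun σ k => by rw [map_neg, a1 σ k]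
  rw [add_neg_cancel, tt_zero, one_mul] at d2
  refine ⟨b1, (d * c)⁻¹, by positivity, fun σ k => ?_, ?_⟩
  · rw [map_inv₀, map_mul, a3 σ k, d3 σ (a1 σ k) (b1 σ k)]
  · have := h4.1 P
    field_simp
    linear_combination -d2

theorem Rel.nsmul (h4 : FourSt) (h : Rel H P g) (n : ℕ) : Rel H (n • P) (g ^ n) := by
  induction n with
  | zero => simpa using Rel.zero
  | succ n ih => rw [succ_nsmul, pow_succ]; exact ih.add h4 h

theorem Rel.sum (h4 : FourSt) {I : Type} {y : I → Pt} (h : ∀ i, ∀ σ ∈ H, act σ (y i) = y i)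
    (s : Finset I) : Rel H (∑ i ∈ s, y i) (∏ i ∈ s, tt (y i)) := by
  induction s using Finset.induction_on with
  | empty => simpa using Rel.zero
  | insert i s hi ih =>
    rw [Finset.sum_insert hi, Finset.prod_insert hi]
    exact Rel.add h4 ⟨h i, 1, one_ne_zero, fun _ _ => map_one _, by ring⟩ ih

variable {I : Type} [Fintype I] {y : I → Pt} {ψ : I → ZMod 3}

/-- The partial traces. -/
def PP (y : I → Pt) (ψ : I → ZMod 3) (k : ZMod 3) : Pt := ∑ i with ψ i = k, y i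

/-- The partial norms. -/
def GG (y : I → Pt) (ψ : I → ZMod 3) (k : ZMod 3) : ℂ := ∏ i with ψ i = k, tt (y i)

theorem act_PP (h : Hd e y ψ) (hσ : Sh e σ a) (k : ZMod 3) :
    act σ (PP y ψ k) = PP y ψ (k + a) := by
  obtain ⟨π, hπ⟩ := h.gal σ a hσ
  rw [PP, PP, map_sum]
  exact Finset.sum_equiv π (fun i => by simp [(hπ i).2]) fun i _ => (hπ i).1

theorem act_GG (h4 : FourSt) (h : Hd e y ψ) (hσ : Sh e σ a) (k : ZMod 3) :
    σ (GG y ψ k) = GG y ψ (k + a) := by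
  obtain ⟨π, hπ⟩ := h.gal σ a hσ
  rw [GG, GG, map_prod]
  exact Finset.prod_equiv π (fun i => by simp [(hπ i).2]) fun i _ => by
    rw [← h4.2.1, (hπ i).1]

/-- The quotient of the norms is a power of a unit. -/
theorem norms (h4 : FourSt) (he : Emb e δ) (hε : Fu e ε) (h : Hd e y ψ) : ∃ u v : ZMod 3, u ≠ v ∧
    GG y ψ 0 * (GG y ψ 1)⁻¹ * (GG y ψ 1 * (GG y ψ 2)⁻¹)⁻¹ =
      ((e (1 - u) ε / e (1 - v) ε) ^ (6 * classNumber L))⁻¹ := by
  obtain ⟨u, v, κ, huv, hκ⟩ := h.abs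
  refine ⟨u, v, huv, ?_⟩
  have n0 := fun j => (log_unit he hε j).1
  have g0 : ∀ k, GG y ψ k ≠ 0 := fun k => Finset.prod_ne_zero_iff.2 fun i _ => h4.1 _
  obtain ⟨V, hV⟩ : ∃ V : ZMod 3 → ℂ, ∀ k, V k = e (k - u) ε / e (k - v) ε := ⟨_, fun _ => rfl⟩
  have v0 : ∀ k, V k ≠ 0 := fun k => hV k ▸ div_ne_zero (n0 _) (n0 _)
  obtain ⟨q, hq⟩ : ∃ q : ZMod 3 → ℂ, ∀ k, q k = GG y ψ k / V k ^ (2 * classNumber L) :=
    ⟨_, fun _ => rfl⟩
  have q0 : ∀ k, q k ≠ 0 := fun k => hq k ▸ div_ne_zero (g0 _) (pow_ne_zero _ (v0 _))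
  have q1 : ∀ k, Real.log ‖q k‖ = κ := fun k => by
    have := hκ k
    rw [← GG] at this
    rw [hq, hV, norm_div, norm_pow, norm_div, Real.log_div (by simp [g0]) (by simp [n0]),
      Real.log_pow, Real.log_div (by simp [n0]) (by simp [n0]), (log_unit he hε _).2,
      (log_unit he hε _).2, this]
    simp only [sub_eq_zero]
    push_cast
    ring
  have q2 : ∀ σ a, Sh e σ a → ∀ k, σ (q k) = q (k + a) := fun σ a hσ k => by
    rw [hq, hq, hV, hV, map_div₀, map_pow, map_div₀, act_GG h4 h hσ, hσ, hσ, sub_add_eq_add_sub,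
      sub_add_eq_add_sub]
  have q3 : ∀ k l, starRingEnd ℂ (q k / q l) = q l / q k := fun k l => by
    have h1 : ‖q k‖ = ‖q l‖ := Real.log_injOn_pos (by simp [q0]) (by simp [q0])
      ((q1 k).trans (q1 l).symm)
    have h2 : ‖q k / q l‖ = 1 := by rw [norm_div, h1, div_self (by simp [q0])]
    rw [← Complex.inv_eq_conj h2, inv_div]
  obtain ⟨σ, hσ⟩ := he.ex
  have q4 : q 0 / q 1 = q 1 / q 2 := by
    have h1 : ((cj.trans σ).trans cj) (q 2 / q 0) = q 1 / q 2 := by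
      rw [map_div₀, q2 _ _ (sh_cj he hσ), q2 _ _ (sh_cj he hσ)]
      rfl
    rw [RingEquiv.trans_apply, RingEquiv.trans_apply, cj_apply, cj_apply, q3, map_div₀,
      q2 _ _ hσ, q2 _ _ hσ, q3] at h1
    exact h1
  have v1 : V 0 * V 1 * V 2 = 1 := by
    have h1 : ∀ w : ZMod 3, e (0 - w) ε * e (1 - w) ε * e (2 - w) ε = 1 := fun w => by
      rw [← hε.2.2, ← (Equiv.subRight w).prod_comp]
      exact (Fin.prod_univ_three fun i : ZMod 3 => e (i - w) ε).symm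
    rw [hV, hV, hV, div_mul_div_comm, div_mul_div_comm, h1, h1, div_one]
  have v2 : V 0 ^ (2 * classNumber L) * V 1 ^ (2 * classNumber L) * V 2 ^ (2 * classNumber L) =
      1 := by rw [← mul_pow, ← mul_pow, v1, one_pow]
  rw [← hV, show 6 * classNumber L = 2 * classNumber L * 3 by ring, pow_mul]
  rw [hq, hq, hq] at q4
  have w0 := pow_ne_zero (2 * classNumber L) (v0 0)
  have w1 := pow_ne_zero (2 * classNumber L) (v0 1)
  have w2 := pow_ne_zero (2 * classNumber L) (v0 2)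
  have := g0 0
  have := g0 1
  have := g0 2
  generalize V 0 ^ (2 * classNumber L) = A at *
  generalize V 1 ^ (2 * classNumber L) = B at *
  generalize V 2 ^ (2 * classNumber L) = C at *
  field_simp
  field_simp at q4
  linear_combination B * q4 + GG y ψ 1 ^ 2 * v2

/-- If the two candidates are torsion, an odd multiple of the second difference vanishes. -/
theorem tors (hT : TorSt) (he : Emb e δ) (h : Hd e y ψ) (hN : ¬ Nt e) : ∃ m : ℕ, Odd m ∧
    m • (PP y ψ 0 + -PP y ψ 1 + -(PP y ψ 1 + -PP y ψ 2)) = 0 := by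
  obtain ⟨Q, hQ⟩ : ∃ Q : ZMod 3 → Pt, ∀ k, Q k = PP y ψ k + -PP y ψ (k + 1) := ⟨_, fun _ => rfl⟩
  have q1 : ∀ σ a, Sh e σ a → ∀ k, act σ (Q k) = Q (k + a) := fun σ a hσ k => by
    rw [hQ, hQ, map_add, map_neg, act_PP h hσ, act_PP h hσ, add_right_comm k 1 a]
  have q2 : ∀ k, IsOfFinAddOrder (Q k + act cj (Q k)) := fun k => by
    by_contra hk
    have h0 : ∀ τ, Sh e τ 0 → act τ (Q k + act cj (Q k)) = Q k + act cj (Q k) := fun τ hτ => by
      have h1 := q1 _ _ (sh_cj he hτ) k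
      rw [act_trans, act_trans, neg_zero, add_zero] at h1
      have h2 := congrArg (act cj) h1
      rw [cj_cj] at h2
      rw [map_add, q1 _ _ hτ, add_zero, h2]
    refine hN ⟨_, hk, fun τ hτ => (dich he hτ).elim (h0 τ) fun k' => ?_⟩
    have h1 := congrArg (act cj) (h0 _ k')
    rw [act_trans, cj_cj, map_add (act cj), cj_cj, add_comm (act cj (Q k))] at h1
    exact h1
  obtain ⟨σ, hσ⟩ := he.ex
  have q3 : ∀ k, IsOfFinAddOrder (Q (k + 1) + -Q (k + -1)) := fun k => by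
    have h1 := (act ((cj.trans σ).trans cj)).isOfFinAddOrder (q2 k)
    rw [map_add, q1 _ _ (sh_cj he hσ), act_trans, act_trans, cj_cj, q1 _ _ hσ] at h1
    have h2 := (q2 (k + 1)).add h1.neg
    rwa [show ∀ a b c : Pt, a + b + -(c + b) = a + -c from fun a b c => by abel] at h2
  have q4 : IsOfFinAddOrder (Q 0) := by
    have h1 : Q 0 + Q 1 + Q 2 = 0 := by
      rw [hQ, hQ, hQ]
      change PP y ψ 0 + -PP y ψ 1 + (PP y ψ 1 + -PP y ψ 2) + (PP y ψ 2 + -PP y ψ 0) = 0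
      abel
    have h2 : IsOfFinAddOrder (Q 0 + -Q 1) := q3 2
    have h3 : IsOfFinAddOrder (Q 2 + -Q 0) := q3 1
    refine IsOfFinAddOrder.of_nsmul (n := 3) ?_ (by norm_num)
    have h4 := h2.add h3.neg
    rwa [show ∀ a b c : Pt, a + -b + -(c + -a) = 3 • a - (a + b + c) from fun a b c => by abel, h1,
      sub_zero] at h4
  obtain ⟨n, n0, n1⟩ := isOfFinAddOrder_iff_nsmul_eq_zero.1 q4
  obtain ⟨k, m, m1, rfl⟩ := Nat.exists_eq_two_pow_mul_odd n0.ne'
  refine ⟨m, m1, ?_⟩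
  have h1 := hT σ k (m • Q 0) (by rw [← mul_nsmul', n1]) (by
    rw [map_nsmul, map_nsmul, map_nsmul, q1 _ _ hσ, q1 _ _ hσ, q1 _ _ hσ]
    rfl)
  rw [map_nsmul, q1 _ _ hσ, hQ, hQ] at h1
  rw [nsmul_add, neg_nsmul, add_neg_eq_zero]
  exact h1.symm

end Pool.Agent.C17.NtAux

namespace Pool.Agent.C17

open NtAux

theorem nt : NtSt := by
  intro h4 hT L _ _ e δ ε I _ y ψ hodd he hε h
  by_contra hN
  obtain ⟨m, m1, m2⟩ := tors hT he h hN
  obtain ⟨u, v, huv, hG⟩ := norms h4 he hε h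
  have n0 := fun j => (log_unit he hε j).1
  let H : Set (ℂ ≃+* ℂ) := {σ | Sh e σ 0 ∧ ∀ i, act σ (y i) = y i}
  have r0 : ∀ k, Rel H (PP y ψ k) (GG y ψ k) := fun k => Rel.sum h4 (fun i σ k => k.2 i) _
  have r1 := (((r0 0).add h4 ((r0 1).neg h4)).add h4
    (((r0 1).add h4 ((r0 2).neg h4)).neg h4)).nsmul h4 m
  rw [m2, hG] at r1
  obtain ⟨-, c, c0, c1, c2⟩ := r1
  obtain ⟨l, hl⟩ : Odd (3 * classNumber L * m) := ((by decide : Odd 3).mul hodd).mul m1
  obtain ⟨V, hV⟩ : ∃ V : ZMod 3 → ℂ, ∀ k, V k = e (k - u) ε / e (k - v) ε := ⟨_, fun _ => rfl⟩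
  have v0 : ∀ k, V k ≠ 0 := fun k => hV k ▸ div_ne_zero (n0 _) (n0 _)
  have v1 : ∀ σ a, Sh e σ a → ∀ k, σ (V k) = V (k + a) := fun σ a hσ k => by
    rw [hV, hV, map_div₀, hσ, hσ, sub_add_eq_add_sub, sub_add_eq_add_sub]
  rw [← hV, tt_zero, one_mul, inv_pow, ← pow_mul,
    show 6 * classNumber L * m = (2 * l + 1) * 2 by rw [← hl]; ring] at c2
  obtain ⟨x, hx⟩ : ∃ x, x = V 1 ^ l * c := ⟨_, rfl⟩
  have x0 : x ≠ 0 := hx ▸ mul_ne_zero (pow_ne_zero _ (v0 1)) c0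
  have x1 : ∀ σ ∈ H, σ x = x := fun σ k => by
    rw [hx, map_mul, map_pow, v1 _ _ k.1, add_zero, c1 σ k]
  have x2 : (V 1 * x ^ 2) ^ 2 = 1 := by
    have := pow_ne_zero ((2 * l + 1) * 2) (v0 1)
    rw [← mul_inv_cancel₀ this, c2, hx]
    ring
  have x3 : ∀ σ : ℂ ≃+* ℂ, σ (V 1 * x ^ 2) = V 1 * x ^ 2 := fun σ => by
    rcases sq_eq_sq_iff_eq_or_eq_neg.1 (x2.trans (one_pow 2).symm) with k | k <;> simp [k]
  obtain ⟨σ, hσ⟩ := he.ex
  have w1 : ∀ τ, Sh e τ 0 → τ (σ x / x) = σ x / x := fun τ hτ => by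
    have h1 := x1 ((σ.trans τ).trans (τ.trans σ).symm) ⟨by
      simpa using sh_trans (sh_trans hσ hτ) (sh_symm (sh_trans hτ hσ)), fun i => by
      rw [act_trans, act_trans, h.comm _ _ _ _ hτ hσ, ← act_trans τ σ, act_symm]⟩
    rw [RingEquiv.trans_apply, RingEquiv.symm_apply_eq, RingEquiv.trans_apply,
      RingEquiv.trans_apply] at h1
    have h2 := x3 τ
    rw [map_mul, v1 _ _ hτ, add_zero, map_pow] at h2
    rw [map_div₀, h1]
    rcases sq_eq_sq_iff_eq_or_eq_neg.1 (mul_left_cancel₀ (v0 1) h2) with k | k <;> rw [k]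
    rw [map_neg, neg_div_neg_eq]
  have w2 : V 1 / V 2 = (σ x / x) ^ 2 := by
    have h2 := x3 σ
    rw [map_mul, v1 _ _ hσ, map_pow] at h2
    have := v0 2
    field_simp
    exact h2.symm
  have w0 : σ x / x ≠ 0 := div_ne_zero (by simpa using x0) x0
  generalize σ x / x = w at w0 w1 w2
  have h1 : e (0 - u) ε * e (1 - u) ε * e (2 - u) ε = 1 := by
    rw [← hε.2.2, ← (Equiv.subRight u).prod_comp]
    exact (Fin.prod_univ_three fun i : ZMod 3 => e (i - u) ε).symm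
  have h3 : ∀ u v : ZMod 3, u ≠ v →
      (1 - v = 0 - u ∧ 2 - v = 1 - u) ∨ (1 - v = 2 - u ∧ 2 - v = 0 - u) := by decide
  have a0 := n0 (0 - u)
  have a1 := n0 (1 - u)
  have a2 := n0 (2 - u)
  rw [hV, hV] at w2
  rcases h3 u v huv with ⟨k1, k2⟩ | ⟨k1, k2⟩ <;> rw [k1, k2] at w2 <;> field_simp at w2
  · refine not_sq he hε (j := 1 - u) (w := w / e (1 - u) ε) ?_ fun τ hτ => by
      rw [map_div₀, w1 τ hτ, hτ, add_zero]
    field_simp
    linear_combination e (1 - u) ε * w2 + w ^ 2 * h1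
  · refine not_sq he hε (j := 2 - u) (w := (w * e (2 - u) ε)⁻¹) ?_ fun τ hτ => by
      rw [map_inv₀, map_mul, w1 τ hτ, hτ, add_zero]
    field_simp
    linear_combination -e (2 - u) ε * w2 + h1

end Pool.Agent.C17
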