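import Pool.Agent.Lib.MP_02f36d_nt.C17.St

/-! The root number of the curve over a complex cubic field with `17` inert. -/

open NumberField IsDedekindDomain WeierstrassCurve
open scoped Classical

noncomputable section

namespace Pool.Agent.C17

namespace Rt

section Dvr

variable (R : Type) [CommRing R] [IsDomain R] [IsDiscreteValuationRing R]
variable (K : Type) [Field K] [Algebra R K] [IsFractionRing R K]

/-- The multiplicative valuation of the fraction field. -/
abbrev vv := HeightOneSpectrum.valuation K (IsDiscreteValuationRing.maximalIdeal R)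

theorem int_le (k : ℤ) : vv R K (k : K) ≤ 1 := by
  rw [← map_intCast (algebraMap R K)]
  exact HeightOneSpectrum.valuation_le_one _ _

theorem one_of : vv R K 289 = 1 ∨ vv R K 273 = 1 := by
  by_contra h
  rw [not_or] at h
  have h1 : vv R K 289 < 1 := lt_of_le_of_ne (by exact_mod_cast int_le R K 289) h.1
  have h2 : vv R K 273 < 1 := lt_of_le_of_ne (by exact_mod_cast int_le R K 273) h.2
  have h3 : vv R K (18 * 273) < 1 := by
    rw [map_mul]
    exact mul_lt_one_of_nonneg_of_lt_one_right (by exact_mod_cast int_le R K 18) zero_le h2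
  have h4 : vv R K (17 * 289) < 1 := by
    rw [map_mul]
    exact mul_lt_one_of_nonneg_of_lt_one_right (by exact_mod_cast int_le R K 17) zero_le h1
  have h5 := (vv R K).map_sub_lt h3 h4
  norm_num at h5

theorem model [CharZero K] : ∃ u : K, vv R K u = 1 ∧ ((EL K).minimal R).Δ = u ^ 12 * 289 ∧
    ((EL K).minimal R).c₄ = u ^ 4 * 273 ∧ ((EL K).minimal R).c₆ = u ^ 6 * 4455 := by
  let V : WeierstrassCurve K := ⟨1, -4, 0, -1, 0⟩
  have e1 : V.Δ = 289 := by simp only [V, Δ, b₂, b₄, b₆, b₈]; ring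
  have e2 : V.c₄ = 273 := by simp only [V, c₄, b₂, b₄]; ring
  have e3 : V.c₆ = 4455 := by simp only [V, c₆, b₂, b₄, b₆]; ring
  let C₀ : VariableChange K := ⟨Units.mk0 2 two_ne_zero, 0, 1, 0⟩
  have h : C₀ • EL K = V := by
    ext <;> simp [V, C₀, EL, variableChange_def] <;> ring
  obtain ⟨C, hC⟩ : ∃ C : VariableChange K, (EL K).minimal R = C • V :=
    ⟨((EL K).exists_isMinimal R).choose * C₀⁻¹, by rw [← h, mul_smul, inv_smul_smul]; rfl⟩
  have hm : IsMinimal R ((EL K).minimal R) := inferInstance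
  generalize (EL K).minimal R = M at hC hm ⊢
  have f1 : M.Δ = ((C.u⁻¹ : Kˣ) : K) ^ 12 * 289 := by rw [hC, variableChange_Δ, e1]
  have f2 : M.c₄ = ((C.u⁻¹ : Kˣ) : K) ^ 4 * 273 := by rw [hC, variableChange_c₄, e2]
  refine ⟨(C.u⁻¹ : Kˣ), ?_, f1, f2, by rw [hC, variableChange_c₆, e3]⟩
  generalize ((C.u⁻¹ : Kˣ) : K) = u at f1 f2
  have hV : C⁻¹ • M = V := by rw [hC, inv_smul_smul]
  have iV : IsIntegral R (C⁻¹ • M) := ⟨⟨1, -4, 0, -1, 0⟩, by
    rw [hV]; ext <;> simp [V, baseChange, map_ofNat]⟩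
  have h1 : vv R K (C⁻¹ • M).Δ ≤ vv R K M.Δ := by
    have := hm.val_Δ_maximal.le iV
    rw [one_smul, ← Subtype.coe_le_coe, valuation_Δ_aux_eq_of_isIntegral,
      valuation_Δ_aux_eq_of_isIntegral] at this
    exact this
  have h2 : 1 ≤ vv R K u := by
    rw [hV, e1, f1, map_mul, map_pow] at h1
    by_contra hlt
    exact absurd h1 (not_le.2 (mul_lt_of_lt_one_left
      (zero_lt_iff.2 ((map_ne_zero _).2 (by norm_num)))
      (pow_lt_one₀ zero_le (not_le.1 hlt) (by norm_num))))
  refine le_antisymm (not_lt.1 fun hlt => ?_) h2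
  have g1 : vv R K M.Δ ≤ 1 :=
    integralModel_Δ_eq R M ▸ HeightOneSpectrum.valuation_le_one _ _
  have g2 : vv R K M.c₄ ≤ 1 :=
    integralModel_c₄_eq R M ▸ HeightOneSpectrum.valuation_le_one _ _
  rcases one_of R K with k | k
  · rw [f1, map_mul, map_pow, k, mul_one] at g1
    exact absurd g1 (not_le.2 (one_lt_pow₀ hlt (by norm_num)))
  · rw [f2, map_mul, map_pow, k, mul_one] at g2
    exact absurd g2 (not_le.2 (one_lt_pow₀ hlt (by norm_num)))

theorem not_add [CharZero K] : ¬ ((EL K).minimal R).HasAdditiveReduction R := by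
  intro h
  obtain ⟨u, hu, e1, e2, -⟩ := model R K
  have a1 : vv R K _ < 1 := h.badReduction
  have a2 : vv R K _ < 1 := h.additiveReduction
  rw [e1, map_mul, map_pow, hu, one_pow, one_mul] at a1
  rw [e2, map_mul, map_pow, hu, one_pow, one_mul] at a2
  rcases one_of R K with k | k
  · exact a1.ne k
  · exact a2.ne k

open Polynomial in
theorem splits_quad {F : Type*} [Field F] {a b c s : F} (h2 : (2 : F) ≠ 0) (ha : a ≠ 0)
    (h : b ^ 2 + 4 * a * c = s ^ 2) : Splits (C a * X ^ 2 + C b * X - C c) := by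
  obtain ⟨x, y, h1, h3⟩ : ∃ x y : F, b = -(a * (x + y)) ∧ c = -(a * x * y) := by
    refine ⟨(-b + s) / (2 * a), (-b - s) / (2 * a), ?_, ?_⟩ <;> field_simp
    · ring
    · linear_combination h
  have : C a * X ^ 2 + C b * X - C c = C a * ((X - C x) * (X - C y)) := by
    rw [h1, h3]
    simp only [map_neg, map_mul, map_add]
    ring
  rw [this]
  exact (Splits.C a).mul ((Splits.X_sub_C x).mul (Splits.X_sub_C y))

theorem split_iff [CharZero K] :
    ((EL K).minimal R).HasSplitMultiplicativeReduction R ↔ vv R K 17 < 1 := by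
  obtain ⟨u, hu, e1, e2, e3⟩ := model R K
  have e0 : vv R K ((EL K).minimal R).Δ = vv R K 17 ^ 2 := by
    rw [e1, map_mul, map_pow, hu, one_pow, one_mul, ← map_pow]
    norm_num
  refine ⟨fun h => ?_, fun h => ?_⟩
  · have a1 : vv R K _ < 1 := h.badReduction
    rw [e0] at a1
    exact not_le.1 fun k => absurd a1 (not_lt.2 (one_le_pow₀ k))
  have hm : IsMinimal R ((EL K).minimal R) := inferInstance
  have a1 : vv R K ((EL K).minimal R).Δ < 1 := by
    rw [e0]
    exact pow_lt_one₀ zero_le h two_ne_zero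
  have a2 : vv R K ((EL K).minimal R).c₄ = 1 := by
    rw [e1, map_mul, map_pow, hu, one_pow, one_mul] at a1
    rw [e2, map_mul, map_pow, hu, one_pow, one_mul]
    exact (one_of R K).resolve_left a1.ne
  generalize (EL K).minimal R = M at *
  have c1 := integralModel_c₄_eq R M
  have c2 := integralModel_c₆_eq R M
  refine { toIsMinimal := hm
           badReduction := a1
           multiplicativeReduction := a2
           splitMultiplicativeReduction := ?_ }
  rw [← c1] at a2
  generalize integralModel R M = I at *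
  let φ := algebraMap R (IsLocalRing.ResidueField R)
  have d0 : (17 : IsLocalRing.ResidueField R) = 0 := by
    rw [← map_ofNat φ]
    rw [← map_ofNat (algebraMap R K)] at h
    exact (IsLocalRing.residue_eq_zero_iff _).2
      ((HeightOneSpectrum.valuation_lt_one_iff_mem _ _).1 h)
  have d1 : φ I.c₄ ≠ 0 := fun h => a2.not_lt ((HeightOneSpectrum.valuation_lt_one_iff_mem _ _).2
    ((IsLocalRing.residue_eq_zero_iff _).1 h))
  obtain ⟨w, rfl⟩ : ∃ w : R, algebraMap R K w = u :=
    IsDiscreteValuationRing.exists_lift_of_le_one hu.le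
  have d2 : I.c₄ = w ^ 4 * 273 := IsFractionRing.injective R K (by
    rw [c1, e2, map_mul, map_pow, map_ofNat])
  have d3 : I.c₆ = w ^ 6 * 4455 := IsFractionRing.injective R K (by
    rw [c2, e3, map_mul, map_pow, map_ofNat])
  have d4 : (I.a₁ * I.c₄) ^ 2 + 4 * I.c₄ * (54 * I.b₆ - 3 * I.b₂ * I.b₄ + I.a₂ * I.c₄) =
      -(I.c₄ * I.c₆) := by
    simp only [c₄, c₆, b₂, b₄, b₆]
    ring
  simp only [Polynomial.map_sub, Polynomial.map_add, Polynomial.map_mul, Polynomial.map_pow,
    Polynomial.map_C, Polynomial.map_X]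
  refine splits_quad (s := 4 * φ w ^ 5)
    (fun h => one_ne_zero' (IsLocalRing.ResidueField R) (by linear_combination 9 * h - d0))
    d1 ?_
  have d5 := congrArg φ d4
  rw [map_add, map_pow, map_mul φ (4 * _), map_mul φ 4, map_ofNat] at d5
  rw [d5, d2, d3]
  simp only [map_neg, map_mul, map_pow, map_ofNat]
  linear_combination -71543 * φ w ^ 10 * d0

end Dvr

theorem lt_iff {L : Type} [Field L] [NumberField L] (v : HeightOneSpectrum (𝓞 L)) :
    vv (v.valuation L).valuationSubring L 17 < 1 ↔ (17 : 𝓞 L) ∈ v.asIdeal := by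
  rw [← map_ofNat (algebraMap (v.valuation L).valuationSubring L),
    HeightOneSpectrum.valuation_lt_one_iff_mem]
  refine (Valuation.mem_maximalIdeal_iff _ _).trans ?_
  rw [← v.valuation_lt_one_iff_mem (K := L)]
  rfl

theorem card_inf (L : Type) [Field L] [NumberField L] (h3 : Module.finrank ℚ L = 3)
    (hd : discr L < 0) : Fintype.card (InfinitePlace L) = 2 := by
  have h1 := InfinitePlace.card_add_two_mul_card_eq_rank L
  have h2 := sign_discr L
  rw [Int.sign_eq_neg_one_of_neg hd] at h2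
  have h4 : InfinitePlace.nrComplexPlaces L ≠ 0 := fun h => by
    rw [h] at h2
    norm_num at h2
  rw [InfinitePlace.card_eq_nrRealPlaces_add_nrComplexPlaces]
  omega

end Rt

theorem root : RootSt := by
  intro L _ _ h3 hd hp
  refine ⟨fun v => Rt.not_add _ L, ?_⟩
  have h0 : Ideal.span {(17 : 𝓞 L)} ≠ ⊥ := by
    rw [Ne, Ideal.span_singleton_eq_bot]
    norm_num
  have e : {v : HeightOneSpectrum (𝓞 L) |
      ((EL L).minimal (v.valuation L).valuationSubring).HasSplitMultiplicativeReduction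
        (v.valuation L).valuationSubring} = {⟨_, hp, h0⟩} := by
    ext v
    rw [Set.mem_ofPred_eq, Rt.split_iff, Rt.lt_iff, Set.mem_singleton_iff,
      HeightOneSpectrum.ext_iff, ← Ideal.span_singleton_le_iff_mem]
    exact ⟨fun h => ((hp.isMaximal h0).eq_of_le v.isPrime.ne_top h).symm, fun h => h.ge⟩
  rw [e, Set.ncard_singleton, Rt.card_inf L h3 hd]
  decide

end Pool.Agent.C17
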