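import Pool.Agent.Lib.MP_02f36d_nt.C17.TrO
import Pool.Agent.Lib.MP_ca56d1_nt.AR.All

/-! The cubic class character on lattices. -/

set_option autoImplicit false

open NumberField IsDedekindDomain
open scoped Pointwise Classical IsMulCommutative
open Pool.Agent.Lib.MP_9177b7_ag.CM
open Pool.Agent.Stark Pool.Agent.Stark.AR Pool.Agent.StarkStmt

noncomputable section

namespace Pool.Agent.C17

namespace Tr

theorem w3_add (a b : ZMod 3) : w3 (a + b) = w3 a * w3 b := by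
  have h : ∀ a b : ZMod 3, ∃ k : ℕ, a.val + b.val = (a + b).val + 3 * k := fun a b =>
    ⟨(a.val + b.val) / 3, by rw [ZMod.val_add]; omega⟩
  obtain ⟨k, hk⟩ := h a b
  have h2 : (a.val : ℂ) + b.val = (a + b).val + 3 * k := by exact_mod_cast hk
  rw [w3, w3, w3, ← Complex.exp_add, Complex.exp_eq_exp_iff_exists_int]
  exact ⟨-k, by push_cast; linear_combination (-(2 * Real.pi * Complex.I) / 3) * h2⟩

theorem w3_zero : w3 0 = 1 := by simp [w3]

variable {K F : Type} [Field K] [NumberField K] [Field F] [NumberField F] [Algebra K F]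

/-- The character on lattices. -/
def ch (ι : K →+* ℂ) (s : (F ≃ₐ[K] F) → ZMod 3) (Λ : Submodule ℤ ℂ) : ZMod 3 :=
  if h : ∃ p : ℂ × Ideal (𝓞 K), p.1 ≠ 0 ∧ p.2 ≠ ⊥ ∧ Λ = p.1 • lat ι p.2 then
    s (artin K F h.choose.2) else 0

variable [IsAbelianGalois K F] {ι : K →+* ℂ} {s : (F ≃ₐ[K] F) → ZMod 3}

theorem art_eq (hu : UnrO F (∅ : Finset (Pr K))) (hr : IsEmpty (K →+* ℝ)) {I J : Ideal (𝓞 K)}
    {x y : 𝓞 K} (hI : I ≠ ⊥) (hx : x ≠ 0) (hy : y ≠ 0)
    (h : I * Ideal.span {y} = J * Ideal.span {x}) : artin K F I = artin K F J := by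
  obtain ⟨N, hN⟩ := hArtin K F inferInstance ∅ hu
  exact hN I J x y hI hy h ⟨div_ne_zero (RingOfIntegers.coe_ne_zero_iff.2 hx)
    (RingOfIntegers.coe_ne_zero_iff.2 hy), by simp⟩ fun φ => hr.elim φ

theorem art_top : artin K F ⊤ = 1 := by
  have := RecAux.artin_mul (K := K) (L := F) (I := ⊤) (J := ⊤) top_ne_bot top_ne_bot
  rw [Ideal.top_mul] at this
  exact left_eq_mul.1 this

theorem art_span (hu : UnrO F (∅ : Finset (Pr K))) (hr : IsEmpty (K →+* ℝ)) {x : 𝓞 K}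
    (hx : x ≠ 0) : artin K F (Ideal.span {x}) = 1 :=
  (art_eq (J := ⊤) hu hr (by simpa using hx) hx one_ne_zero (by simp)).trans art_top

theorem ch_spec (hu : UnrO F (∅ : Finset (Pr K))) (hr : IsEmpty (K →+* ℝ)) {a : ℂ} (ha : a ≠ 0)
    {I : Ideal (𝓞 K)} (hI : I ≠ ⊥) : ch ι s (a • lat ι I) = s (artin K F I) := by
  have h : ∃ p : ℂ × Ideal (𝓞 K), p.1 ≠ 0 ∧ p.2 ≠ ⊥ ∧ a • lat ι I = p.1 • lat ι p.2 :=
    ⟨(a, I), ha, hI, rfl⟩
  rw [ch, dif_pos h]
  obtain ⟨h1, -, h3⟩ := h.choose_spec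
  generalize h.choose = p at h1 h3
  obtain ⟨b, J⟩ := p
  simp only at h1 h3 ⊢
  obtain ⟨x, hx, x0⟩ := Submodule.exists_mem_ne_zero_of_ne_bot hI
  have h4 : a * ph ι x ∈ b • lat ι J := h3 ▸ Idl.mem_sm.2 ⟨_, ph_mem.2 hx, rfl⟩
  obtain ⟨_, ⟨y, -, rfl⟩, e⟩ := Idl.mem_sm.1 h4
  change b * ph ι y = a * ph ι x at e
  have y0 : y ≠ 0 := by
    rintro rfl
    rw [map_zero, mul_zero] at e
    exact mul_ne_zero ha ((map_ne_zero_iff _ (ph_inj ι)).2 x0) e.symm
  refine congrArg s (art_eq hu hr hI x0 y0 (lat_inj (ι := ι) ?_)).symm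
  rw [lat_span, lat_span]
  have h5 := congrArg ((ph ι y / a) • ·) h3
  simp only [smul_smul] at h5
  rwa [div_mul_cancel₀ _ ha, show ph ι y / a * b = ph ι x by field_simp; linear_combination e] at h5

theorem cm_eq (hm : ∀ g h, s (g * h) = s g + s h) (I : Ideal (𝓞 K)) :
    cm (fun P => w3 (s (frob K F P))) I = w3 (s (artin K F I)) := by
  have h1 : s 1 = 0 := by
    have := hm 1 1
    rw [mul_one] at this
    exact left_eq_add.1 this
  rw [cm, RecAux.artin_eq]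
  induction UniqueFactorizationMonoid.normalizedFactors I using Multiset.induction_on with
  | empty => simp [h1, w3_zero]
  | cons P M ih => rw [Multiset.map_cons, Multiset.map_cons, Multiset.prod_cons,
      Multiset.prod_cons, ih, hm, w3_add]

theorem art_prime (q : Pr K) : artin K F q.asIdeal = fr K F q := by
  have := RecAux.artin_pow (L := F) q 1
  rwa [pow_one, pow_one] at this

omit [IsAbelianGalois K F] [NumberField K] [Algebra K F] in
/-- The prime of `F` attached to a prime of a subring of the complex numbers. -/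
theorem exists_Q (j : F →+* ℂ) {l : ℕ} (hl : l.Prime) (g : 𝓞 F →+* 𝓞 F) (A : Subring ℂ)
    (P : AddSubgroup ℂ) (h1 : ∀ x ∈ A, ∀ y ∈ P, x * y ∈ P)
    (h2 : ∀ x ∈ A, ∀ y ∈ A, x * y ∈ P → x ∈ P ∨ y ∈ P)
    (h3 : ∀ i, ph j (RingOfIntegers.basis F i) ∈ A) (h4 : (l : ℂ) ∈ P) (h5 : (1 : ℂ) ∉ P)
    (h6 : ∀ i, ph j (g (RingOfIntegers.basis F i)) - ph j (RingOfIntegers.basis F i) ^ l ∈ P) :
    ∃ Q : Pr F, (l : 𝓞 F) ∈ Q.asIdeal ∧ ∀ x, g x - x ^ l ∈ Q.asIdeal := by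
  have hA : ∀ x : 𝓞 F, ph j x ∈ A := fun x => by
    rw [← (RingOfIntegers.basis F).sum_repr x, map_sum]
    exact A.sum_mem fun i _ => by
      rw [map_zsmul]
      exact A.zsmul_mem (h3 i) _
  let Q : Ideal (𝓞 F) := ⟨⟨⟨{x | ph j x ∈ P}, fun {x y} hx hy => by
    change ph j (x + y) ∈ P
    rw [map_add]
    exact P.add_mem hx hy⟩, by
    change ph j 0 ∈ P
    rw [map_zero]
    exact P.zero_mem⟩, fun a x hx => by
    change ph j (a * x) ∈ P
    rw [map_mul]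
    exact h1 _ (hA a) _ hx⟩
  have mQ : ∀ x, x ∈ Q ↔ ph j x ∈ P := fun _ => Iff.rfl
  have hQ : Q.IsPrime := ⟨(Ideal.ne_top_iff_one Q).2 fun h => h5 (by rwa [mQ, map_one] at h),
    fun {x y} h => h2 _ (hA x) _ (hA y) (by rwa [mQ, map_mul] at h)⟩
  have hl1 : (l : 𝓞 F) ∈ Q := by rwa [mQ, map_natCast]
  refine ⟨⟨Q, hQ, fun e => Nat.cast_ne_zero.2 hl.ne_zero (Ideal.mem_bot.1 (e ▸ hl1))⟩, hl1,
    fun x => ?_⟩
  have : Fact l.Prime := ⟨hl⟩
  have : CharP (𝓞 F ⧸ Q) l := (CharP.charP_iff_prime_eq_zero hl).2 (by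
    rw [← map_natCast (Ideal.Quotient.mk Q)]
    exact Ideal.Quotient.eq_zero_iff_mem.2 hl1)
  have h7 : ((Ideal.Quotient.mk Q).comp g).toAddMonoidHom.toIntLinearMap =
      ((frobenius (𝓞 F ⧸ Q) l).comp (Ideal.Quotient.mk Q)).toAddMonoidHom.toIntLinearMap :=
    (RingOfIntegers.basis F).ext fun i => by
      change Ideal.Quotient.mk Q (g _) = Ideal.Quotient.mk Q _ ^ l
      rw [← map_pow, Ideal.Quotient.eq, mQ, map_sub, map_pow]
      exact h6 i
  have h8 : Ideal.Quotient.mk Q (g x) = Ideal.Quotient.mk Q x ^ l := LinearMap.congr_fun h7 x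
  rwa [← map_pow, Ideal.Quotient.eq] at h8

end Tr

open Tr in
theorem tr : TrSt := by
  intro hT hE hS L _ _ e δ hF he
  obtain ⟨K, F, _, _, _, _, _, _, j, d, m, s, hw⟩ := hT L e δ hF.1 hF.2.2.1 he
  have := hw.ab
  let ι : K →+* ℂ := j.comp (algebraMap K F)
  obtain ⟨ω, ho⟩ := exists_od (ι := ι) hw.rK hw.hd he.sq he.im he.mod4 hF.2.2.1
  have hr : IsEmpty (K →+* ℝ) := ⟨fun φ => by
    have h1 : d ^ 2 = (discr L : K) := ι.injective (by
      rw [map_pow, map_intCast, ← he.sq]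
      exact congrArg (· ^ 2) hw.hd)
    have h2 := congrArg φ h1
    rw [map_pow, map_intCast] at h2
    have h3 : (discr L : ℝ) < 0 := by exact_mod_cast hF.2.1
    exact (h2 ▸ h3).not_ge (sq_nonneg _)⟩
  have hu := hw.unr
  have s1 : s 1 = 0 := by
    have := hw.mul 1 1
    rw [mul_one] at this
    exact left_eq_add.1 this
  have c1 : ∀ {I : Ideal (𝓞 K)}, I ≠ ⊥ → ch ι s (lat ι I) = s (artin K F I) := fun hI => by
    have := ch_spec (ι := ι) (s := s) hu hr one_ne_zero hI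
    rwa [one_smul] at this
  have pm : ∀ (a b : ℂ) (I J : Ideal (𝓞 K)),
      a • lat ι I * b • lat ι J = (a * b) • lat ι (I * J) := fun a b I J => by
    rw [Idl.sm_mul, Idl.mul_sm, smul_smul, lat_mul]
  let E : {I : Ideal (𝓞 K) // PrimeTo (∅ : Finset (Pr K)) I} ≃
      {Λ // Stb δ Λ ∧ Λ ≤ sp 1 (om δ)} :=
    Equiv.ofBijective (fun I => ⟨lat ι I.1, ho.stb I.2.1, ho.le _⟩)
      ⟨fun I J h => Subtype.ext (lat_inj (congrArg Subtype.val h)), fun Λ => by
        obtain ⟨I, hI⟩ := ho.surj Λ.2.1.2 Λ.2.2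
        exact ⟨⟨I, ne_bot (hI ▸ Λ.2.1.1), by simp⟩, Subtype.ext hI⟩⟩
  have hE1 : ∀ I, (E I).1 = lat ι I.1 := fun _ => rfl
  refine ⟨ch ι s, fun Λ c h hc => ?_, fun Λ Λ' h h' => ?_, fun Λ Λ' h h' => ?_, fun Λ h => ?_,
    ?_, fun t ht => ?_, fun t ht => ?_, ?_⟩
  · obtain ⟨a, I, ha, hI, rfl⟩ := ho.rep h
    rw [smul_smul, ch_spec hu hr (mul_ne_zero hc ha) hI, ch_spec hu hr ha hI]
  · obtain ⟨a, I, ha, hI, rfl⟩ := ho.rep h
    obtain ⟨b, J, hb, hJ, rfl⟩ := ho.rep h'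
    rw [pm, ch_spec hu hr (mul_ne_zero ha hb) (mul_ne_zero hI hJ), ch_spec hu hr ha hI,
      ch_spec hu hr hb hJ, RecAux.artin_mul hI hJ, hw.mul]
  · obtain ⟨a, I, ha, hI, rfl⟩ := ho.rep h
    obtain ⟨b, J, hb, hJ, rfl⟩ := ho.rep h'
    rw [pm]
    exact stb_smul (ho.stb (mul_ne_zero hI hJ)) (mul_ne_zero ha hb)
  · obtain ⟨a, I, ha, hI, rfl⟩ := ho.rep h
    obtain ⟨x, hx, x0⟩ := Submodule.exists_mem_ne_zero_of_ne_bot hI
    obtain ⟨J, hJ⟩ : I ∣ Ideal.span {x} :=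
      Ideal.dvd_iff_le.2 ((Ideal.span_singleton_le_iff_mem _).2 hx)
    have J0 : J ≠ ⊥ := by
      rintro rfl
      exact x0 (by simpa using hJ)
    have p0 : ph ι x ≠ 0 := (map_ne_zero_iff _ (ph_inj ι)).2 x0
    refine ⟨(a * ph ι x)⁻¹ • lat ι J, stb_smul (ho.stb J0) (inv_ne_zero (mul_ne_zero ha p0)), ?_⟩
    rw [pm, ← hJ, ← Ideal.top_mul (Ideal.span {x}), lat_span, smul_smul, ho.top,
      show a * (a * ph ι x)⁻¹ * ph ι x = 1 by field_simp, one_smul]
  · refine ⟨insert 0 (insert 1 (Set.range fun i => ph j (RingOfIntegers.basis F i))),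
      ((Set.finite_range _).insert _).insert _, ?_, ?_⟩
    · rintro x (rfl | rfl | ⟨i, rfl⟩)
      · exact isAlgebraic_zero
      · exact isAlgebraic_one
      · exact (Algebra.IsAlgebraic.isAlgebraic (R := ℚ)
          ((RingOfIntegers.basis F i : 𝓞 F) : F)).algHom j.toRatAlgHom
    intro l r φ a A P hl hlr hφ h1 h2 h3 h4 h5 h6
    obtain ⟨g, hg, hj⟩ := hw.res φ a hφ
    obtain ⟨Q, q1, q2⟩ := exists_Q j hl (MulSemiringAction.toRingHom _ (𝓞 F) g) A P h1 h2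
      (fun i => h3 _ (Or.inr (Or.inr ⟨i, rfl⟩))) h4
      (fun h => one_ne_zero (h6 1 (Or.inr (Or.inl rfl)) 0 (Or.inl rfl) (by rwa [sub_zero])))
      fun i => by
        have := h5 _ (Or.inr (Or.inr ⟨i, rfl⟩))
        exact (hj (RingOfIntegers.basis F i) ▸ this :)
    have q3 : (l : 𝓞 K) ∈ (below K Q).asIdeal := by
      change algebraMap (𝓞 K) (𝓞 F) l ∈ Q.asIdeal
      rwa [map_natCast]
    have key : ∀ t : ℤ, ω - t ∈ (below K Q).asIdeal →
        Ideal.absNorm (below K Q).asIdeal = l ∧ s (artin K F (below K Q).asIdeal) = a :=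
      fun t ht => by
        have h7 := (ho.prime _ hl q3 ht).2
        refine ⟨h7, ?_⟩
        rw [art_prime, ← (hFr K F).uniq hw.ab Q g (hu Q (by simp)) (by rw [h7]; exact q2), hg]
    by_cases h7 : ω - r ∈ (below K Q).asIdeal
    · left
      rw [← (ho.prime _ hl q3 h7).1, c1 (below K Q).ne_bot, (key r h7).2]
    · right
      obtain ⟨n, hn⟩ := hlr
      have h8 : (ω - r) * (ω - (1 - r : ℤ)) ∈ (below K Q).asIdeal := by
        have h9 : ((r : 𝓞 K) ^ 2 - r + ((1 - discr L) / 4 : ℤ)) = l * n := by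
          exact_mod_cast congrArg (Int.cast : ℤ → 𝓞 K) hn
        rw [show (ω - r) * (ω - (1 - r : ℤ)) = -(n : 𝓞 K) * l by
          rw [Int.cast_sub, Int.cast_one]; linear_combination ho.eq - h9]
        exact Ideal.mul_mem_left _ _ q3
      obtain ⟨k1, k2⟩ := key _ (((below K Q).isPrime.mem_or_mem h8).resolve_left h7)
      obtain ⟨p, p1, p2⟩ := ho.exists_prime hl ⟨n, hn⟩
      obtain ⟨p3, p4⟩ := ho.prime p hl p1 p2
      have l0 : (l : 𝓞 K) ≠ 0 := Nat.cast_ne_zero.2 hl.ne_zero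
      have h9 : IsCoprime p.asIdeal (below K Q).asIdeal :=
        Ideal.isCoprime_iff_sup_eq.2 (p.isMaximal.coprime_of_ne (below K Q).isMaximal
          fun e => h7 (e ▸ p2))
      obtain ⟨M, hM⟩ := h9.mul_dvd
        (Ideal.dvd_iff_le.2 ((Ideal.span_singleton_le_iff_mem _).2 p1))
        (Ideal.dvd_iff_le.2 ((Ideal.span_singleton_le_iff_mem _).2 q3))
      have h10 := congrArg Ideal.absNorm hM
      rw [map_mul, map_mul, p4, k1, Ideal.absNorm_span_natCast, RingOfIntegers.rank, hw.rK,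
        sq] at h10
      have h11 : M = ⊤ := Ideal.absNorm_eq_one_iff.1
        (mul_left_cancel₀ (mul_ne_zero hl.ne_zero hl.ne_zero) (h10.symm.trans (mul_one _).symm))
      rw [h11, Ideal.mul_top] at hM
      have h12 := congrArg s (art_span hu hr l0)
      rw [hM, RecAux.artin_mul p.ne_bot (below K Q).ne_bot, hw.mul, k2, s1] at h12
      rw [← p3, c1 p.ne_bot]
      exact eq_neg_of_add_eq_zero_left h12
  · rw [← E.summable_iff]
    refine ((EulerAux.summable_real (F := K) ht).subtype _).congr fun I => ?_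
    simp only [Function.comp, hE1, ho.idx]
  · rw [hE L K F e δ j d m s hF.1 hF.2.2.1 he hw t ht, ← E.tsum_eq, Lfun]
    refine congrArg _ (tsum_congr fun I => ?_)
    rw [hE1, ho.idx, c1 I.2.1, cm_eq hw.mul]
  · obtain ⟨h1, q, h2, h3⟩ := hS L K F e δ j d m s hF he hw
    have p17 : Nat.Prime 17 := by norm_num
    obtain ⟨r, r1, r2, r3⟩ := ho.root q p17 h2
    refine ⟨r, r1, fun h => h1 ?_, ?_⟩
    · have h4 := he.mod4
      rw [show discr L = (2 * r - 1) * (2 * r - 1) - 4 * (r ^ 2 - r + (1 - discr L) / 4) by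
        rw [mul_add, show 4 * ((1 - discr L) / 4) = 1 - discr L by omega]; ring]
      exact (h.mul_left _).sub (Dvd.dvd.mul_left r1 4)
    · have h4 := (ho.prime q p17 r2 r3).1
      rw [Nat.cast_ofNat] at h4
      rw [← h4, c1 q.ne_bot, art_prime]
      exact fun h => h3 (hw.inj _ h)

end Pool.Agent.C17
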