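import Pool.Agent.Lib.MP_02f36d_nt.C17.St
import Pool.Agent.Lib.MP_ca56d1_nt.AR.Gal

/-! The Galois closure of a cubic field is unramified over the quadratic resolvent. -/

namespace Pool.Agent.C17

open NumberField IsDedekindDomain Pool.Agent.Stark Pool.Agent.Stark.AR IntermediateField

namespace TwA

theorem eI_dvd {K F : Type} [Field K] [NumberField K] [Field F] [NumberField F] [Algebra K F]
    [IsGalois K F] (Q : Pr F) : eI K Q ∣ Module.finrank K F := by
  rw [← IsGalois.card_aut_eq_finrank]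
  exact (Dvd.intro _ (GalAux.card_stab Q).symm).trans (Subgroup.card_subgroup_dvd_card _)

theorem ram_le {L : Type} [Field L] [NumberField L] (h : Squarefree (discr L)) (q : Pr L) :
    q.asIdeal.ramificationIdx ℤ < 3 := by
  by_contra h3
  have := q.isPrime
  have hp : q.asIdeal.under ℤ ≠ ⊥ := Ideal.under_ne_bot ℤ q.ne_bot
  have : (q.asIdeal.under ℤ).IsMaximal := Ideal.IsPrime.isMaximal inferInstance hp
  have h1 : q.asIdeal ^ 3 ∣ (q.asIdeal.under ℤ).map (algebraMap ℤ (𝓞 L)) := by
    refine (pow_dvd_pow _ (not_lt.1 h3)).trans (Ideal.dvd_iff_le.2 ?_)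
    rw [← Ideal.ramificationIdx'_eq_ramificationIdx _ _ hp]
    exact Ideal.le_pow_ramificationIdx'
  have : IsIntegralClosure (𝓞 L) ℤ L := inferInstance
  have h2 := pow_sub_one_dvd_differentIdeal_aux ℤ ℚ L q.asIdeal three_ne_zero hp h1
  have h4 := map_dvd Ideal.absNorm h2
  rw [absNorm_differentIdeal L, map_pow, show 3 - 1 = 2 from rfl, sq] at h4
  have h5 := Int.squarefree_natAbs.2 h _ h4
  rw [Nat.isUnit_iff, Ideal.absNorm_eq_one_iff] at h5
  exact q.isPrime.ne_top h5

theorem unr {L K F : Type} [Field L] [NumberField L] [Field K] [NumberField K] [Field F]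
    [NumberField F] [Algebra K F] [Algebra L F] [IsGalois K F] [IsGalois L F]
    (h : Squarefree (discr L)) (hK : Module.finrank K F = 3) (hL : Module.finrank L F = 2)
    (Q : Pr F) : eI K Q = 1 := by
  refine ((Nat.dvd_prime Nat.prime_three).1 (hK ▸ eI_dvd Q)).resolve_right fun h3 => ?_
  have := SplitAux.lies (F := K) Q
  have := SplitAux.lies (F := L) Q
  have h1 : eI K Q ∣ Q.asIdeal.ramificationIdx ℤ :=
    Ideal.ramificationIdx_above_dvd (below K Q).asIdeal Q.asIdeal
  have h2 : Q.asIdeal.ramificationIdx ℤ = (below L Q).asIdeal.ramificationIdx ℤ * eI L Q :=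
    Ideal.ramificationIdx_tower (below L Q).asIdeal Q.asIdeal
  have h4 : eI L Q ∣ 2 := hL ▸ eI_dvd Q
  have := (below L Q).isPrime
  have h5 := (below L Q).asIdeal.ramificationIdx_pos ℤ
  have h6 := ram_le h (below L Q)
  rw [h3, h2] at h1
  rcases (Nat.dvd_prime Nat.prime_two).1 h4 with e | e <;> rw [e] at h1 <;> omega

theorem exF {L : Type} [Field L] [NumberField L] {e : ZMod 3 → L →+* ℂ}
    (ha : ∀ φ : L →+* ℂ, ∃ i, φ = e i) :
    ∃ (F : Type) (_ : Field F) (_ : NumberField F) (j : F →+* ℂ) (m : ZMod 3 → L →+* F),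
      IsGalois ℚ F ∧ (∀ i x, j (m i x) = e i x) ∧
      (∀ g : F →+* F, (∀ i x, g (m i x) = m i x) → ∀ z, g z = z) ∧
      ∀ σ : ℂ ≃+* ℂ, ∃ g : F ≃+* F, ∀ x, σ (j x) = j (g x) := by
  let F := normalClosure ℚ L ℂ
  have hN : Normal ℚ F := (Algebra.IsAlgebraic.isNormalClosure_normalClosure
    (F := ℚ) (K := L) (L := ℂ) fun _ => IsAlgClosed.splits _).normal
  have hm : ∀ i x, e i x ∈ F := fun i x =>
    (e i).toRatAlgHom.fieldRange_le_normalClosure ⟨x, rfl⟩
  have : NumberField F := {}
  refine ⟨F, inferInstance, this, algebraMap F ℂ, fun i => (e i).codRestrict F (hm i), {},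
    fun _ _ => rfl, fun g hg z => ?_, fun σ => ?_⟩
  · let P : Subfield ℂ := (g.eqLocusField (RingHom.id F)).map (algebraMap F ℂ)
    have h1 : F ≤ P.toIntermediateField fun x => SubfieldClass.ratCast_mem P x :=
      normalClosure_le_iff.2 fun f => by
        rintro _ ⟨x, rfl⟩
        obtain ⟨i, hi⟩ := ha f.toRingHom
        exact ⟨_, hg i x, (DFunLike.congr_fun hi x).symm⟩
    obtain ⟨y, h2, h3⟩ := h1 z.2
    obtain rfl : y = z := Subtype.ext h3
    exact h2
  · exact ⟨(σ.toRingHom.toRatAlgHom.restrictNormal' F).toRingEquiv, fun x =>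
      (σ.toRingHom.toRatAlgHom.restrictNormal_commutes F x).symm⟩

theorem exK {F : Type} [Field F] [NumberField F] (d : F) (D : ℤ) (h : d ^ 2 = D)
    (hd : ∀ r : ℚ, (r : F) ≠ d) :
    ∃ (K : Type) (_ : Field K) (_ : NumberField K) (_ : Algebra K F) (d' : K),
      algebraMap K F d' = d ∧ Module.finrank ℚ K = 2 ∧
      ∀ g : F →+* F, g d = d → ∀ k, g (algebraMap K F k) = algebraMap K F k := by
  have hi : IsIntegral ℚ d := Algebra.IsIntegral.isIntegral d
  refine ⟨ℚ⟮d⟯, inferInstance, inferInstance, inferInstance, AdjoinSimple.gen ℚ d, rfl, ?_,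
    fun g hg k => ?_⟩
  · rw [adjoin.finrank hi]
    refine le_antisymm ?_ ((minpoly.two_le_natDegree_iff hi).2 fun ⟨r, hr⟩ => hd r hr)
    refine Polynomial.natDegree_le_of_degree_le ((minpoly.min ℚ d
      (Polynomial.monic_X_pow_sub_C (D : ℚ) two_ne_zero) (by simp [h])).trans ?_)
    exact (Polynomial.degree_X_pow_sub_C two_pos _).le
  · have h1 : ℚ⟮d⟯ ≤ (g.eqLocusField (RingHom.id F)).toIntermediateField
        fun x => SubfieldClass.ratCast_mem _ x := adjoin_simple_le_iff.2 hg
    exact h1 k.2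

theorem shift (π : Equiv.Perm (ZMod 3)) : Equiv.Perm.sign π = 1 → ∃ a, ∀ i, π i = i + a := by
  revert π
  decide

end TwA

open TwA in
theorem tw : TwSt := by
  intro L _ _ e δ h3 hsq he
  obtain ⟨F, _, _, j, m, hG, hm, gen, res⟩ := exF he.all
  obtain ⟨b, hb⟩ := he.det
  obtain ⟨d', hd'⟩ : ∃ d', d' = (Matrix.of fun i k : ZMod 3 => m i (b k)).det := ⟨_, rfl⟩
  have j1 : j d' = δ := by
    rw [hd', hb, RingHom.map_det]
    exact congrArg _ (Matrix.ext fun i k => hm i _)
  have d0 : d' ≠ 0 := fun h => he.im.ne' (by rw [← j1, h, map_zero, Complex.zero_im])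
  obtain ⟨K, _, _, _, d, hd, rK, fix⟩ := exK d' (discr L)
    (j.injective (by rw [map_pow, j1, he.sq, map_intCast]))
    fun r h => he.im.ne' (by rw [← j1, ← h, map_ratCast, Complex.ratCast_im])
  let _ : Algebra L F := (m 0).toAlgebra
  have mi : ∀ a a', (∀ x, m a x = m a' x) → a = a' := fun a a' h =>
    he.inj (RingHom.ext fun x => by rw [← hm, ← hm, h])
  have key : ∀ g : F ≃ₐ[K] F, ∃ a, ∀ i x, g (m i x) = m (i + a) x := fun g => by
    choose π hπ using fun i => he.all (j.comp ((g : F →+* F).comp (m i)))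
    have h1 : ∀ i x, g (m i x) = m (π i) x := fun i x =>
      j.injective ((DFunLike.congr_fun (hπ i) x).trans (hm _ _).symm)
    have h2 : Function.Injective π := fun i i' h =>
      mi _ _ fun x => g.injective (by rw [h1, h1, h])
    let π' := Equiv.ofBijective π h2.bijective_of_finite
    have h4 : g d' = (Equiv.Perm.sign π' : ℤ) * d' := by
      rw [hd', ← Matrix.det_permute, AlgEquiv.map_det]
      exact congrArg _ (Matrix.ext fun i k => h1 i _)
    rw [← hd, g.commutes, hd, eq_comm, mul_eq_right₀ d0, Int.cast_eq_one, Units.val_eq_one] at h4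
    obtain ⟨a, ha⟩ := shift π' h4
    exact ⟨a, fun i x => ha i ▸ h1 i x⟩
  choose s hs using key
  have mul : ∀ g h, s (g * h) = s g + s h := fun g h => mi _ _ fun x => by
    rw [← zero_add (s (g * h)), ← hs, AlgEquiv.mul_apply, hs, hs, zero_add, add_comm]
  have inj : ∀ g, s g = 0 → g = 1 := fun g h => AlgEquiv.ext <|
    gen (g : F →+* F) fun i x => (hs g i x).trans (by rw [h, add_zero])
  have res' : ∀ σ a, Sh e σ a → ∃ g, s g = a ∧ ∀ x, σ (j x) = j (g x) := fun σ a h => by
    obtain ⟨g, hg⟩ := res σ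
    have h1 : g d' = d' := j.injective (by rw [← hg, j1, he.fix σ a h])
    refine ⟨AlgEquiv.ofRingEquiv (f := g) (fix (g : F →+* F) h1), mi _ _ fun x => ?_, hg⟩
    rw [← zero_add (s _), ← hs]
    exact j.injective (by rw [hm, ← zero_add a, ← h, ← hm, hg]; rfl)
  have gK : IsGalois K F := IsGalois.tower_top_of_isGalois ℚ K F
  have gL : IsGalois L F := IsGalois.tower_top_of_isGalois ℚ L F
  let s' : (F ≃ₐ[K] F) →* Multiplicative (ZMod 3) :=
    MonoidHom.mk' (fun g => Multiplicative.ofAdd (s g)) fun g h => congrArg _ (mul g h)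
  have si : Function.Injective s' := (injective_iff_map_eq_one s').2 inj
  have rF : Module.finrank K F = 3 := by
    obtain ⟨σ, hσ⟩ := he.ex
    obtain ⟨g, hg, -⟩ := res' σ 1 hσ
    rw [← IsGalois.card_aut_eq_finrank, Nat.card_eq_of_bijective s' ⟨si, fun a =>
      ⟨g ^ a.toAdd.val, by
        rw [map_pow]
        exact Multiplicative.toAdd.injective (by simp [s', hg])⟩⟩]
    simp
  have rL : Module.finrank L F = 2 := by
    have h1 := Module.finrank_mul_finrank ℚ K F
    have h2 := Module.finrank_mul_finrank ℚ L F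
    rw [rK, rF] at h1
    rw [h3, ← h1] at h2
    omega
  exact ⟨K, F, _, inferInstance, _, inferInstance, _, _, j, d, m, s,
    { hd := by rw [hd, j1]
      hm := hm
      m0 := fun _ => rfl
      rK := rK
      rF := rF
      rL := rL
      ab := { gK with is_comm := ⟨fun g h => si (by rw [map_mul, map_mul, mul_comm])⟩ }
      gal := gL
      unr := fun Q _ => unr hsq rF rL Q
      act := hs
      mul := mul
      inj := inj
      res := res' }⟩

end Pool.Agent.C17
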