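import Pool.Agent.Lib.MP_02f36d_nt.C17.Gal
import Pool.Agent.Lib.MP_02f36d_nt.C17.Tw
import Pool.Agent.Lib.MP_02f36d_nt.C17.Eul
import Pool.Agent.Lib.MP_02f36d_nt.C17.Tr
import Pool.Agent.Lib.MP_02f36d_nt.C17.Cm
import Pool.Agent.Lib.MP_02f36d_nt.C17.Kron
import Pool.Agent.Lib.MP_02f36d_nt.C17.Id
import Pool.Agent.Lib.MP_02f36d_nt.C17.Heeg
import Pool.Agent.Lib.MP_02f36d_nt.C17.Four
import Pool.Agent.Lib.MP_02f36d_nt.C17.Nt
import Pool.Agent.Lib.MP_02f36d_nt.C17.Up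
import Pool.Agent.Lib.MP_02f36d_nt.C17.Root

/-! The pointwise theorem. -/

namespace Pool.Agent.C17

theorem hstmt : HStmt :=
  hst gal unit tw eul sev tr cmS kron idS heeg four tor iso nt up root

end Pool.Agent.C17
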