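import Pool.Agent.Lib.MP_02f36d_nt.C17.Defs
import Pool.Agent.Lib.MP_ca56d1_nt.AR.Defs
import Pool.Agent.Lib.MP_d6ddbd_nt.G.Defs
import Pool.Agent.Lib.MP_9177b7_ag.CM.Defs

/-! Statements of the steps of the pointwise theorem. -/

open NumberField IsDedekindDomain WeierstrassCurve Filter Topology UpperHalfPlane
open scoped Pointwise Classical
open Pool.Agent.Lib.MP_9177b7_ag.CM (IsLat sp jL jH)
open Pool.Agent.Lib.MP_d6ddbd_nt.G (Pt act)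
open Pool.Agent.Stark (Pr Lfun)
open Pool.Agent.Stark.AR (UnrO fr)

noncomputable section

namespace Pool.Agent.C17

section Defs

variable {L : Type} [Field L] [NumberField L]

/-- `σ` shifts the three embeddings by `a`. -/
def Sh (e : ZMod 3 → L →+* ℂ) (σ : ℂ ≃+* ℂ) (a : ZMod 3) : Prop :=
  ∀ i x, σ (e i x) = e (i + a) x

/-- The three complex embeddings and the square root of the discriminant. -/
structure Emb (e : ZMod 3 → L →+* ℂ) (δ : ℂ) : Prop where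
  sq : δ ^ 2 = discr L
  im : 0 < δ.im
  mod4 : discr L % 4 = 1
  big : discr L < -4
  inj : Function.Injective e
  all : ∀ φ : L →+* ℂ, ∃ i, φ = e i
  cj : ∀ i x, starRingEnd ℂ (e i x) = e (-i) x
  sh : ∀ σ : ℂ ≃+* ℂ, σ δ = δ → ∃ a, Sh e σ a
  fix : ∀ σ a, Sh e σ a → σ δ = δ
  ex : ∃ σ, Sh e σ 1
  det : ∃ b : ZMod 3 → 𝓞 L, δ = (Matrix.of fun i j : ZMod 3 => e i (b j)).det
  mem : ∀ x : ℂ, (∀ σ : ℂ ≃+* ℂ, (∀ y, σ (e 0 y) = e 0 y) → σ x = x) → ∃ y, e 0 y = x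

/-- A fundamental unit of norm one. -/
def Fu (e : ZMod 3 → L →+* ℂ) (ε : L) : Prop :=
  ¬ IsSquare ε ∧ (∃ r : ℝ, 0 < r ∧ e 0 ε = r ∧ Real.log r = Units.regulator L) ∧ ∏ i, e i ε = 1

/-- The Galois closure `F` and the quadratic resolvent `K`. -/
structure Tw (e : ZMod 3 → L →+* ℂ) (δ : ℂ) {K F : Type} [Field K] [NumberField K] [Field F]
    [NumberField F] [Algebra K F] [Algebra L F] (j : F →+* ℂ) (d : K) (m : ZMod 3 → L →+* F)
    (s : (F ≃ₐ[K] F) → ZMod 3) : Prop where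
  hd : j (algebraMap K F d) = δ
  hm : ∀ i x, j (m i x) = e i x
  m0 : ∀ x, m 0 x = algebraMap L F x
  rK : Module.finrank ℚ K = 2
  rF : Module.finrank K F = 3
  rL : Module.finrank L F = 2
  ab : IsAbelianGalois K F
  gal : IsGalois L F
  unr : UnrO F (∅ : Finset (Pr K))
  act : ∀ g i x, g (m i x) = m (i + s g) x
  mul : ∀ g h, s (g * h) = s g + s h
  inj : ∀ g, s g = 0 → g = 1
  res : ∀ σ a, Sh e σ a → ∃ g, s g = a ∧ ∀ x, σ (j x) = j (g x)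

/-- The cube root of unity attached to a residue. -/
def w3 (k : ZMod 3) : ℂ := Complex.exp (2 * Real.pi * Complex.I * (k.val : ℂ) / 3)

/-- The generator of the quadratic order. -/
def om (δ : ℂ) : ℂ := (1 + δ) / 2

/-- Lattices with multiplication by the quadratic order. -/
def Stb (δ : ℂ) (Λ : Submodule ℤ ℂ) : Prop := IsLat Λ ∧ om δ • Λ ≤ Λ

/-- The index in the quadratic order. -/
def idx (δ : ℂ) (Λ : Submodule ℤ ℂ) : ℕ :=
  Λ.toAddSubgroup.relIndex (sp 1 (om δ)).toAddSubgroup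

/-- The cubic class character on lattices. -/
structure Lc (e : ZMod 3 → L →+* ℂ) (δ : ℂ) (χ : Submodule ℤ ℂ → ZMod 3) : Prop where
  smul : ∀ Λ (c : ℂ), Stb δ Λ → c ≠ 0 → χ (c • Λ) = χ Λ
  mul : ∀ Λ Λ', Stb δ Λ → Stb δ Λ' → χ (Λ * Λ') = χ Λ + χ Λ'
  stb : ∀ Λ Λ', Stb δ Λ → Stb δ Λ' → Stb δ (Λ * Λ')
  inv : ∀ Λ, Stb δ Λ → ∃ Λ', Stb δ Λ' ∧ Λ * Λ' = sp 1 (om δ)
  frob : ∃ J : Set ℂ, J.Finite ∧ (∀ x ∈ J, IsAlgebraic ℚ x) ∧
    ∀ (l : ℕ) (r : ℤ) (φ : ℂ ≃+* ℂ) (a : ZMod 3) (A : Subring ℂ) (P : AddSubgroup ℂ), l.Prime →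
      (l : ℤ) ∣ r ^ 2 - r + (1 - discr L) / 4 → Sh e φ a → (∀ x ∈ A, ∀ y ∈ P, x * y ∈ P) →
      (∀ x ∈ A, ∀ y ∈ A, x * y ∈ P → x ∈ P ∨ y ∈ P) → (∀ x ∈ J, x ∈ A) → (l : ℂ) ∈ P →
      (∀ x ∈ J, φ x - x ^ l ∈ P) → (∀ x ∈ J, ∀ y ∈ J, x - y ∈ P → x = y) →
      χ (sp l (om δ - r)) = a ∨ χ (sp l (om δ - r)) = -a
  sum : ∀ s : ℝ, 1 < s → Summable fun Λ : {Λ // Stb δ Λ ∧ Λ ≤ sp 1 (om δ)} =>
    (idx δ Λ.1 : ℝ) ^ (-s)
  zeta : ∀ s : ℝ, 1 < s → dedekindZeta L s = riemannZeta s *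
    ∑' Λ : {Λ // Stb δ Λ ∧ Λ ≤ sp 1 (om δ)}, w3 (χ Λ.1) * (idx δ Λ.1 : ℂ) ^ (-(s : ℂ))
  sev : ∃ r : ℤ, (17 : ℤ) ∣ r ^ 2 - r + (1 - discr L) / 4 ∧ ¬ (17 : ℤ) ∣ 2 * r - 1 ∧
    χ (sp 17 (om δ - r)) ≠ 0

/-- The reciprocity law for singular moduli. -/
def Cm (e : ZMod 3 → L →+* ℂ) (δ : ℂ) (χ : Submodule ℤ ℂ → ZMod 3) : Prop :=
  ∃ s : ZMod 3, s ≠ 0 ∧ ∀ σ a, Sh e σ a → ∀ Λ Λ', Stb δ Λ → Stb δ Λ' → σ (jL Λ) = jL Λ' →
    χ Λ' = χ Λ + s * a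

/-- The Epstein zeta function. -/
def Ep (τ : ℍ) (s : ℝ) : ℝ :=
  ∑' v : {v : ℤ × ℤ // v ≠ 0}, τ.im ^ s * ‖(v.1.1 : ℂ) * τ + v.1.2‖ ^ (-(2 * s))

/-- The logarithm of `y ^ 6 |Δ|`. -/
def lF (τ : ℍ) : ℝ := Real.log (τ.im ^ 6 * ‖ModularForm.discriminant τ‖)

/-- A system of representatives of the lattice classes. -/
def Reps (δ : ℂ) {I : Type} (z : I → ℍ) : Prop :=
  (∀ i, Stb δ (sp (z i) 1)) ∧ (Function.Injective fun i => jH (z i)) ∧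
    ∀ Λ, Stb δ Λ → ∃ i, jH (z i) = jL Λ

variable (L) in
/-- The limit formula for the character. -/
def Lim (δ : ℂ) (χ : Submodule ℤ ℂ → ZMod 3) : Prop :=
  ∀ (I : Type) [Fintype I] (z : I → ℍ), Reps δ z → ∀ k : ZMod 3, k ≠ 0 →
    ∑ i with χ (sp (z i) 1) = 0, lF (z i) - ∑ i with χ (sp (z i) 1) = k, lF (z i) =
      -12 * classNumber L * Units.regulator L

/-- The function that defines the descent by four. -/
def tt : Pt → ℂ
  | .zero => 1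
  | .some x y _ => if x = 17 ∧ y = 136 then 1 / 272 else (x ^ 2 + 94 * x + 289 - 16 * y) / 16

/-- Heegner points with their cubic character. -/
structure Hd (e : ZMod 3 → L →+* ℂ) {I : Type} [Fintype I] (y : I → Pt) (ψ : I → ZMod 3) :
    Prop where
  gal : ∀ σ a, Sh e σ a → ∃ π : I ≃ I, ∀ i, act σ (y i) = y (π i) ∧ ψ (π i) = ψ i + a
  comm : ∀ σ σ' a a', Sh e σ a → Sh e σ' a' → ∀ i, act σ (act σ' (y i)) = act σ' (act σ (y i))
  abs : ∃ (u v : ZMod 3) (κ : ℝ), u ≠ v ∧ ∀ k, Real.log ‖∏ i with ψ i = k, tt (y i)‖ =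
    κ + 3 * classNumber L * Units.regulator L *
      ((if k = u then 1 else 0) - (if k = v then 1 else 0))

/-- A point of infinite order defined over the real embedding. -/
def Nt (e : ZMod 3 → L →+* ℂ) : Prop :=
  ∃ P : Pt, ¬ IsOfFinAddOrder P ∧ ∀ σ : ℂ ≃+* ℂ, (∀ y, σ (e 0 y) = e 0 y) → act σ P = P

end Defs

/-- G1: the embeddings. -/
def GalSt : Prop := ∀ (L : Type) [Field L] [NumberField L], Module.finrank ℚ L = 3 →
  discr L < 0 → Squarefree (discr L) → ∃ (e : ZMod 3 → L →+* ℂ) (δ : ℂ), Emb e δ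

/-- G1: the fundamental unit. -/
def UnitSt : Prop := ∀ (L : Type) [Field L] [NumberField L] (e : ZMod 3 → L →+* ℂ) (δ : ℂ),
  Module.finrank ℚ L = 3 → Emb e δ → ∃ ε, Fu e ε

/-- G2: the tower. -/
def TwSt : Prop := ∀ (L : Type) [Field L] [NumberField L] (e : ZMod 3 → L →+* ℂ) (δ : ℂ),
  Module.finrank ℚ L = 3 → Squarefree (discr L) → Emb e δ →
    ∃ (K F : Type) (_ : Field K) (_ : NumberField K) (_ : Field F) (_ : NumberField F)
      (_ : Algebra K F) (_ : Algebra L F) (j : F →+* ℂ) (d : K) (m : ZMod 3 → L →+* F)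
      (s : (F ≃ₐ[K] F) → ZMod 3), Tw e δ j d m s

/-- E: the factorisation of the zeta function. -/
def EulSt : Prop := ∀ (L K F : Type) [Field L] [NumberField L] [Field K] [NumberField K] [Field F]
  [NumberField F] [Algebra K F] [Algebra L F] (e : ZMod 3 → L →+* ℂ) (δ : ℂ) (j : F →+* ℂ) (d : K)
  (m : ZMod 3 → L →+* F) (s : (F ≃ₐ[K] F) → ZMod 3), Module.finrank ℚ L = 3 →
    Squarefree (discr L) → Emb e δ → Tw e δ j d m s → ∀ t : ℝ, 1 < t →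
      dedekindZeta L t = riemannZeta t *
        Lfun (∅ : Finset (Pr K)) (fun P => w3 (s (StarkStmt.frob K F P))) t

/-- E: the prime seventeen. -/
def SevSt : Prop := ∀ (L K F : Type) [Field L] [NumberField L] [Field K] [NumberField K] [Field F]
  [NumberField F] [Algebra K F] [Algebra L F] (e : ZMod 3 → L →+* ℂ) (δ : ℂ) (j : F →+* ℂ) (d : K)
  (m : ZMod 3 → L →+* F) (s : (F ≃ₐ[K] F) → ZMod 3), Fam L → Emb e δ → Tw e δ j d m s →
    ¬ (17 : ℤ) ∣ discr L ∧ ∃ q : Pr K, Ideal.absNorm q.asIdeal = 17 ∧ fr K F q ≠ 1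

/-- Tr: from ideals to lattices. -/
def TrSt : Prop := TwSt → EulSt → SevSt → ∀ (L : Type) [Field L] [NumberField L]
  (e : ZMod 3 → L →+* ℂ) (δ : ℂ), Fam L → Emb e δ → ∃ χ, Lc e δ χ

/-- Cm: complex multiplication. -/
def CmSt : Prop := ∀ (L : Type) [Field L] [NumberField L] (e : ZMod 3 → L →+* ℂ) (δ : ℂ) χ,
  Emb e δ → Lc e δ χ → Cm e δ χ

/-- Kr: the first limit formula of Kronecker, for differences. -/
def KronSt : Prop :=
  (∀ (τ : ℍ) (s : ℝ), 1 < s → Summable fun v : {v : ℤ × ℤ // v ≠ 0} =>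
    τ.im ^ s * ‖(v.1.1 : ℂ) * τ + v.1.2‖ ^ (-(2 * s))) ∧
  (∀ τ : ℍ, Tendsto (fun s : ℝ => (s - 1) * Ep τ s) (𝓝[>] 1) (𝓝 Real.pi)) ∧
  ∀ τ τ' : ℍ, Tendsto (fun s : ℝ => Ep τ s - Ep τ' s) (𝓝[>] 1)
    (𝓝 (-(Real.pi / 6) * (lF τ - lF τ')))

/-- Id: the limit formula for the character. -/
def IdSt : Prop := KronSt → ∀ (L : Type) [Field L] [NumberField L] (e : ZMod 3 → L →+* ℂ) (δ : ℂ) χ,
  Module.finrank ℚ L = 3 → Emb e δ → Lc e δ χ → Lim L δ χ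

/-- Hg: Heegner points. -/
def HeegSt : Prop := ∀ (L : Type) [Field L] [NumberField L] (e : ZMod 3 → L →+* ℂ) (δ : ℂ) χ,
  Squarefree (discr L) → Emb e δ → Lc e δ χ → Cm e δ χ → Lim L δ χ →
    ∃ (I : Type) (_ : Fintype I) (y : I → Pt) (ψ : I → ZMod 3), Hd e y ψ

/-- F4: the descent by four. -/
def FourSt : Prop :=
  (∀ P, tt P ≠ 0) ∧ (∀ σ P, tt (act σ P) = σ (tt P)) ∧
  ∀ P Q : Pt, ∃ c : ℂ, c ≠ 0 ∧ tt P * tt Q = tt (P + Q) * c ^ 4 ∧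
    ∀ σ, act σ P = P → act σ Q = Q → σ c = c

/-- F4: an automorphism of order three fixes the two-power torsion. -/
def TorSt : Prop := ∀ (σ : ℂ ≃+* ℂ) (k : ℕ) (R : Pt), 2 ^ k • R = 0 →
  act σ (act σ (act σ R)) = R → act σ R = R

/-- F4: transfer along the isogeny of degree two. -/
def IsoSt : Prop := ∀ (L : Type) [Field L] [NumberField L] (e : ZMod 3 → L →+* ℂ) (δ : ℂ),
  Emb e δ → Nt e → Infinite (EL L).toAffine.Point

/-- Nt: the point of infinite order. -/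
def NtSt : Prop := FourSt → TorSt → ∀ (L : Type) [Field L] [NumberField L]
  (e : ZMod 3 → L →+* ℂ) (δ : ℂ) (ε : L) (I : Type) [Fintype I] (y : I → Pt) (ψ : I → ZMod 3),
    Odd (classNumber L) → Emb e δ → Fu e ε → Hd e y ψ → Nt e

/-- Up: the descent by two over `L`. -/
def UpSt : Prop := ∀ (L : Type) [Field L] [NumberField L], Module.finrank ℚ L = 3 → discr L < 0 →
  (Ideal.span {(17 : 𝓞 L)}).IsPrime → Odd (classNumber L) → Infinite (EL L).toAffine.Point →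
    Module.finrank ℤ (EL L).toAffine.Point = 1

/-- Rt: the root number. -/
def RootSt : Prop := ∀ (L : Type) [Field L] [NumberField L], Module.finrank ℚ L = 3 → discr L < 0 →
  (Ideal.span {(17 : 𝓞 L)}).IsPrime →
  (∀ v : HeightOneSpectrum (𝓞 L),
    ¬ ((EL L).minimal (v.valuation L).valuationSubring).HasAdditiveReduction
      (v.valuation L).valuationSubring) ∧
  Odd ({v : HeightOneSpectrum (𝓞 L) |
      ((EL L).minimal (v.valuation L).valuationSubring).HasSplitMultiplicativeReduction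
        (v.valuation L).valuationSubring}.ncard + Fintype.card (InfinitePlace L))

theorem hst (h1 : GalSt) (h2 : UnitSt) (h3 : TwSt) (h4 : EulSt) (h5 : SevSt) (h6 : TrSt)
    (h7 : CmSt) (h8 : KronSt) (h9 : IdSt) (h10 : HeegSt) (h11 : FourSt) (h12 : TorSt)
    (h13 : IsoSt) (h14 : NtSt) (h15 : UpSt) (h16 : RootSt) : HStmt := by
  intro L _ _ hF
  obtain ⟨a1, a2, a3, a4, a5⟩ := id hF
  obtain ⟨e, δ, he⟩ := h1 L a1 a2 a3
  obtain ⟨ε, hε⟩ := h2 L e δ a1 he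
  obtain ⟨χ, hχ⟩ := h6 h3 h4 h5 L e δ hF he
  obtain ⟨I, _, y, ψ, hy⟩ := h10 L e δ χ a3 he hχ (h7 L e δ χ he hχ) (h9 h8 L e δ χ a1 he hχ)
  have hN := h14 h11 h12 L e δ ε I y ψ a5 he hε hy
  exact ⟨(h16 L a1 a2 a4).1, (h16 L a1 a2 a4).2, h15 L a1 a2 a4 a5 (h13 L e δ he hN)⟩

end Pool.Agent.C17
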