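import Pool.Agent.Lib.MP_02f36d_nt.C17.St
import Pool.Agent.Lib.MP_9177b7_ag.CM.Lat
import Pool.Agent.Lib.MP_9177b7_ag.CM.Ideal

/-! Ideals of an imaginary quadratic field as lattices. -/

set_option autoImplicit false

open NumberField IsDedekindDomain
open scoped Pointwise
open Pool.Agent.Lib.MP_9177b7_ag.CM
open Pool.Agent.Stark (Pr)

noncomputable section

namespace Pool.Agent.C17.Tr

theorem int_of_sq {t : ℚ} {D n : ℤ} (hD : Squarefree D) (h : t ^ 2 * D = n) : ∃ m : ℤ, t = m := by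
  have h0 : (t.den : ℚ) ≠ 0 := Nat.cast_ne_zero.2 t.den_nz
  have h1 : t.num ^ 2 * D = n * (t.den : ℤ) ^ 2 := by
    have : (t.num : ℚ) ^ 2 * D = n * (t.den : ℚ) ^ 2 := by
      rw [← h, ← Rat.mul_den_eq_num t]
      ring
    exact_mod_cast this
  have h2 : IsCoprime ((t.den : ℤ) ^ 2) (t.num ^ 2) :=
    (Int.isCoprime_iff_gcd_eq_one.2 (by
      rw [Int.gcd_comm]
      exact t.reduced)).pow
  have h3 : (t.den : ℤ) * t.den ∣ D := by
    rw [← sq]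
    exact h2.dvd_of_dvd_mul_left ⟨n, by rw [h1, mul_comm]⟩
  have h4 : t.den = 1 := by
    have := Int.isUnit_iff.1 (hD _ h3)
    omega
  exact ⟨t.num, (Rat.coe_int_num_of_den_eq_one h4).symm⟩

theorem int_of_integral {t : ℚ} (h : IsIntegral ℤ (t : ℂ)) : ∃ m : ℤ, t = m := by
  have h1 : IsIntegral ℤ t := (isIntegral_algebraMap_iff (algebraMap ℚ ℂ).injective).1 h
  obtain ⟨m, hm⟩ := IsIntegrallyClosed.isIntegral_iff.1 h1
  exact ⟨m, hm.symm⟩

variable {K : Type} [Field K] [NumberField K]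

/-- The embedding of the ring of integers. -/
def ph (ι : K →+* ℂ) : 𝓞 K →+* ℂ := ι.comp (algebraMap (𝓞 K) K)

omit [NumberField K] in
theorem ph_inj (ι : K →+* ℂ) : Function.Injective (ph ι) :=
  ι.injective.comp RingOfIntegers.coe_injective

/-- The data of the maximal order. -/
structure Od (ι : K →+* ℂ) (δ : ℂ) (c : ℤ) (ω : 𝓞 K) : Prop where
  im : (om δ).im ≠ 0
  w : ph ι ω = om δ
  eq : ω ^ 2 = ω - c
  gen : ∀ x : 𝓞 K, ∃ a b : ℤ, x = a + b * ω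

theorem exists_od {ι : K →+* ℂ} {δ : ℂ} {D : ℤ} {d : K} (h2 : Module.finrank ℚ K = 2)
    (hd : ι d = δ) (hs : δ ^ 2 = D) (hi : 0 < δ.im) (h4 : D % 4 = 1) (hD : Squarefree D) :
    ∃ ω, Od ι δ ((1 - D) / 4) ω := by
  obtain ⟨c, hc⟩ : ∃ c : ℤ, 1 - D = 4 * c := ⟨(1 - D) / 4, by omega⟩
  have hc' : (1 - D) / 4 = c := by omega
  have hcC : (D : ℂ) = 1 - 4 * c := by
    rw [show D = 1 - 4 * c by omega]
    push_cast
    rfl
  have e1 : om δ ^ 2 = om δ - c := by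
    rw [om]
    linear_combination (1 / 4) * hs + (1 / 4) * hcC
  have e2 : ι ((1 + d) / 2) = om δ := by rw [map_div₀, map_add, map_one, map_ofNat, hd, om]
  have e3 : ((1 + d) / 2) ^ 2 = (1 + d) / 2 - c := ι.injective (by
    rw [map_pow, map_sub, map_intCast, e2, e1])
  have hw : IsIntegral ℤ ((1 + d) / 2) := by
    refine ⟨Polynomial.X ^ 2 - Polynomial.X + Polynomial.C c, by monicity!, ?_⟩
    simp only [Polynomial.eval₂_add, Polynomial.eval₂_sub, Polynomial.eval₂_pow,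
      Polynomial.eval₂_X, Polynomial.eval₂_C, e3]
    simp
  have re0 : δ.re = 0 := by
    have := congrArg Complex.im hs
    rw [sq, Complex.mul_im, Complex.intCast_im] at this
    have h5 : δ.re * δ.im = 0 := by linarith
    exact (mul_eq_zero.1 h5).resolve_right hi.ne'
  have cj : starRingEnd ℂ δ = -δ := Complex.ext (by simp [re0]) (by simp)
  have li : LinearIndependent ℚ ![(1 : K), d] := by
    refine LinearIndependent.pair_iff.2 fun s t h => ?_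
    have h5 := congrArg ι h
    rw [map_add, Rat.smul_def, Rat.smul_def, map_mul, map_mul, map_ratCast, map_ratCast, map_one,
      hd, map_zero] at h5
    have h6 := congrArg Complex.im h5
    have h7 := congrArg Complex.re h5
    simp [re0, hi.ne'] at h6 h7
    exact ⟨h7, h6⟩
  refine ⟨⟨_, hw⟩, ?_, e2, RingOfIntegers.coe_injective ?_, fun x => ?_⟩
  · rw [om]
    simpa using hi.ne'
  · rw [hc', map_pow, map_sub, map_intCast]
    exact e3
  have hsp : (x : K) ∈ Submodule.span ℚ (Set.range ![(1 : K), d]) := by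
    rw [li.span_eq_top_of_card_eq_finrank (by simp [h2])]
    trivial
  rw [Matrix.range_cons_cons_empty, Submodule.mem_span_pair] at hsp
  obtain ⟨u, v, huv⟩ := hsp
  have z1 : ι x = u + v * δ := by
    rw [← huv, map_add, Rat.smul_def, Rat.smul_def, map_mul, map_mul, map_ratCast, map_ratCast,
      map_one, hd, mul_one]
  have i1 : IsIntegral ℤ ((u : ℂ) + v * δ) := z1 ▸ x.2.map ι.toIntAlgHom
  have i2 : IsIntegral ℤ ((u : ℂ) - v * δ) := by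
    have := i1.map (starRingEnd ℂ).toIntAlgHom
    simpa [cj, sub_eq_add_neg] using this
  obtain ⟨A, hA⟩ := int_of_integral (t := 2 * u) (by
    rw [show ((2 * u : ℚ) : ℂ) = (u + v * δ) + (u - v * δ) by push_cast; ring]
    exact i1.add i2)
  obtain ⟨N, hN⟩ := int_of_integral (t := u ^ 2 - v ^ 2 * D) (by
    rw [show ((u ^ 2 - v ^ 2 * D : ℚ) : ℂ) = (u + v * δ) * (u - v * δ) by
      push_cast; linear_combination (v : ℂ) ^ 2 * hs]
    exact i1.mul i2)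
  obtain ⟨B, hB⟩ := int_of_sq (t := 2 * v) (n := A ^ 2 - 4 * N) hD (by
    push_cast
    rw [← hA, ← hN]
    ring)
  have h5 : A ^ 2 - B ^ 2 * D = 4 * N := by
    have : (A : ℚ) ^ 2 - (B : ℚ) ^ 2 * D = 4 * N := by
      rw [← hA, ← hB, ← hN]
      ring
    exact_mod_cast this
  obtain ⟨k, hk⟩ : Even (A - B) := by
    have h6 : Even ((A - B) * (A + B)) :=
      ⟨2 * N - 2 * c * B ^ 2, by rw [show D = 1 - 4 * c by omega] at h5; linear_combination h5⟩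
    rcases Int.even_mul.1 h6 with h | h
    · exact h
    · rw [show A - B = A + B - 2 * B by ring]
      exact h.sub (even_two_mul B)
  refine ⟨k, B, RingOfIntegers.coe_injective (ι.injective ?_)⟩
  have a1 : (2 * u : ℂ) = A := by exact_mod_cast congrArg (Rat.cast : ℚ → ℂ) hA
  have a2 : (2 * v : ℂ) = B := by exact_mod_cast congrArg (Rat.cast : ℚ → ℂ) hB
  have a3 : (A : ℂ) - B = k + k := by exact_mod_cast congrArg (Int.cast : ℤ → ℂ) hk
  rw [map_add, map_mul, map_intCast, map_intCast, map_add, map_mul, map_intCast, map_intCast]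
  change ι x = k + B * ι ((1 + d) / 2)
  rw [z1, e2, om]
  linear_combination (1 / 2) * a1 + (δ / 2) * a2 + (1 / 2) * a3

/-- The lattice of an ideal. -/
def lat (ι : K →+* ℂ) (I : Ideal (𝓞 K)) : Submodule ℤ ℂ :=
  (I.restrictScalars ℤ).map (ph ι).toIntAlgHom.toLinearMap

variable {ι : K →+* ℂ} {δ : ℂ} {c : ℤ} {ω : 𝓞 K}

omit [NumberField K]

theorem mem_lat {I : Ideal (𝓞 K)} {z : ℂ} : z ∈ lat ι I ↔ ∃ x ∈ I, ph ι x = z := Iff.rfl

theorem ph_mem {I : Ideal (𝓞 K)} {x : 𝓞 K} : ph ι x ∈ lat ι I ↔ x ∈ I :=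
  ⟨fun ⟨_, hy, e⟩ => ph_inj ι e ▸ hy, fun h => ⟨x, h, rfl⟩⟩

theorem lat_inj {I J : Ideal (𝓞 K)} (h : lat ι I = lat ι J) : I = J :=
  Ideal.ext fun x => by rw [← ph_mem (ι := ι), h, ph_mem]

theorem lat_mul (I J : Ideal (𝓞 K)) : lat ι (I * J) = lat ι I * lat ι J := by
  rw [lat, Ideal.restrictScalars_mul, Submodule.map_mul]
  rfl

theorem lat_span (x : 𝓞 K) (I : Ideal (𝓞 K)) :
    lat ι (I * Ideal.span {x}) = ph ι x • lat ι I := by
  ext z
  rw [Idl.mem_sm, mem_lat]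
  constructor
  · rintro ⟨y, hy, rfl⟩
    obtain ⟨w, hw, rfl⟩ := Ideal.mem_mul_span_singleton.1 hy
    exact ⟨_, ph_mem.2 hw, by rw [map_mul, mul_comm]⟩
  · rintro ⟨_, ⟨w, hw, rfl⟩, rfl⟩
    exact ⟨w * x, Ideal.mem_mul_span_singleton.2 ⟨w, hw, rfl⟩, by rw [map_mul, mul_comm]; rfl⟩

theorem Od.top (h : Od ι δ c ω) : lat ι ⊤ = sp 1 (om δ) := by
  ext z
  rw [Idl.mem_O, mem_lat]
  constructor
  · rintro ⟨x, -, rfl⟩
    obtain ⟨a, b, rfl⟩ := h.gen x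
    exact ⟨a, b, by rw [map_add, map_mul, map_intCast, map_intCast, h.w]⟩
  · rintro ⟨a, b, rfl⟩
    exact ⟨a + b * ω, trivial, by rw [map_add, map_mul, map_intCast, map_intCast, h.w]⟩

theorem Od.le (h : Od ι δ c ω) (I : Ideal (𝓞 K)) : lat ι I ≤ sp 1 (om δ) := by
  rw [← h.top]
  rintro _ ⟨x, -, rfl⟩
  exact ⟨x, trivial, rfl⟩

theorem Od.isLat (h : Od ι δ c ω) : IsLat (sp 1 (om δ)) := by
  refine Lat.isLat_sp (LinearIndependent.pair_iff.2 fun s t hst => ?_)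
  have h1 := congrArg Complex.im hst
  have h2 := congrArg Complex.re hst
  simp [h.im] at h1 h2
  subst h1
  simpa using h2

theorem stb_smul {Λ : Submodule ℤ ℂ} {a : ℂ} (h : Stb δ Λ) (ha : a ≠ 0) : Stb δ (a • Λ) := by
  refine ⟨Lat.l2 _ _ h.1 ha, fun z hz => ?_⟩
  obtain ⟨_, hy, rfl⟩ := Idl.mem_sm.1 hz
  obtain ⟨x, hx, rfl⟩ := Idl.mem_sm.1 hy
  exact Idl.mem_sm.2 ⟨_, h.2 (Idl.mem_sm.2 ⟨x, hx, rfl⟩), by ring⟩

theorem Od.stb (h : Od ι δ c ω) {I : Ideal (𝓞 K)} (hI : I ≠ ⊥) : Stb δ (lat ι I) := by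
  obtain ⟨x, hx, x0⟩ := Submodule.exists_mem_ne_zero_of_ne_bot hI
  refine ⟨Lat.l5 _ _ _ (Lat.l2 _ (ph ι x) h.isLat ((map_ne_zero_iff _ (ph_inj ι)).2 x0)) h.isLat
    (fun z hz => ?_) (h.le I), fun z hz => ?_⟩
  · rw [← h.top] at hz
    obtain ⟨_, ⟨y, -, rfl⟩, rfl⟩ := Idl.mem_sm.1 hz
    exact ⟨x * y, I.mul_mem_right y hx, map_mul (ph ι) x y⟩
  · obtain ⟨_, ⟨y, hy, rfl⟩, rfl⟩ := Idl.mem_sm.1 hz
    exact ⟨ω * y, I.mul_mem_left ω hy, (map_mul (ph ι) ω y).trans (by rw [h.w]; rfl)⟩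

theorem Od.surj (h : Od ι δ c ω) {Λ : Submodule ℤ ℂ} (h1 : om δ • Λ ≤ Λ) (h2 : Λ ≤ sp 1 (om δ)) :
    ∃ I, lat ι I = Λ := by
  refine ⟨⟨⟨⟨{x | ph ι x ∈ Λ}, fun {x y} hx hy => ?_⟩, ?_⟩, fun a x hx => ?_⟩, ?_⟩
  · change ph ι (x + y) ∈ Λ
    rw [map_add]
    exact Λ.add_mem hx hy
  · change ph ι 0 ∈ Λ
    rw [map_zero]
    exact Λ.zero_mem
  · change ph ι (a * x) ∈ Λ
    rw [map_mul]
    exact Idl.Cl.mul (fun y hy => h1 (Idl.mem_sm.2 ⟨y, hy, rfl⟩)) (h.le ⊤ ⟨a, trivial, rfl⟩) hx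
  · ext z
    constructor
    · rintro ⟨x, hx, rfl⟩
      exact hx
    · intro hz
      have h3 := h2 hz
      rw [← h.top] at h3
      obtain ⟨x, -, rfl⟩ := h3
      exact ⟨x, hz, rfl⟩

theorem ne_bot {I : Ideal (𝓞 K)} (h : IsLat (lat ι I)) : I ≠ ⊥ := by
  rintro rfl
  obtain ⟨P, hP⟩ := h
  obtain ⟨x, hx, e⟩ := mem_lat.1 (hP ▸ P.ω₁_mem_lattice)
  rw [Ideal.mem_bot.1 hx, map_zero] at e
  exact P.indep.ne_zero 0 e.symm

theorem Od.rep (h : Od ι δ c ω) {Λ : Submodule ℤ ℂ} (hΛ : Stb δ Λ) :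
    ∃ (a : ℂ) (I : Ideal (𝓞 K)), a ≠ 0 ∧ I ≠ ⊥ ∧ Λ = a • lat ι I := by
  obtain ⟨P, hP⟩ := hΛ.1
  have e : Λ = sp P.ω₁ P.ω₂ := hP.symm
  have w0 : P.ω₁ ≠ 0 := P.indep.ne_zero 0
  have h1 := hΛ.2 (Idl.mem_sm.2 ⟨P.ω₁, hP ▸ P.ω₁_mem_lattice, rfl⟩)
  rw [e] at h1
  obtain ⟨a, b, hab⟩ := Idl.mem_sp.1 h1
  have b0 : (b : ℂ) ≠ 0 := fun hb => h.im (by
    rw [hb, zero_mul, add_zero] at hab
    rw [← mul_right_cancel₀ w0 hab, Complex.intCast_im])
  have c0 : b / P.ω₁ ≠ 0 := div_ne_zero b0 w0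
  have h2 := stb_smul hΛ c0
  obtain ⟨I, hI⟩ := h.surj h2.2 (by
    rw [e, Lat.smul_sp]
    refine Lat.sp_le (Idl.mem_O.2 ⟨b, 0, by field_simp; simp⟩) (Idl.mem_O.2 ⟨-a, 1, ?_⟩)
    field_simp
    push_cast
    linear_combination -hab)
  exact ⟨_, I, inv_ne_zero c0, ne_bot (hI ▸ h2.1), by rw [hI, smul_smul, inv_mul_cancel₀ c0,
    one_smul]⟩

variable [NumberField K]

theorem Od.idx (h : Od ι δ c ω) (I : Ideal (𝓞 K)) : idx δ (lat ι I) = Ideal.absNorm I := by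
  have := AddSubgroup.relIndex_map_map_of_injective (f := (ph ι).toAddMonoidHom) I.toAddSubgroup ⊤
    (ph_inj ι)
  rw [AddSubgroup.relIndex_top_right] at this
  rw [C17.idx, ← h.top, Ideal.absNorm_eq_index, ← this]
  rfl

/-- Primes of degree one. -/
theorem Od.prime (h : Od ι δ c ω) (q : Pr K) {l : ℕ} (hl : l.Prime) (h1 : (l : 𝓞 K) ∈ q.asIdeal)
    {r : ℤ} (h2 : ω - r ∈ q.asIdeal) :
    lat ι q.asIdeal = sp l (om δ - r) ∧ Ideal.absNorm q.asIdeal = l := by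
  have := q.isPrime
  have : Fact l.Prime := ⟨hl⟩
  have : CharP (𝓞 K ⧸ q.asIdeal) l := (CharP.charP_iff_prime_eq_zero hl).2 (by
    rw [← map_natCast (Ideal.Quotient.mk q.asIdeal)]
    exact Ideal.Quotient.eq_zero_iff_mem.2 h1)
  have k : ∀ a b : ℤ, Ideal.Quotient.mk q.asIdeal (a + b * ω) = ((a + b * r : ℤ) : _) := fun a b => by
    rw [← map_intCast (Ideal.Quotient.mk q.asIdeal), Ideal.Quotient.eq,
      show (a + b * ω - ((a + b * r : ℤ) : 𝓞 K)) = b * (ω - r) by push_cast; ring]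
    exact q.asIdeal.mul_mem_left _ h2
  constructor
  · refine le_antisymm ?_ (Lat.sp_le ⟨l, h1, map_natCast (ph ι) l⟩
      ⟨ω - r, h2, (map_sub (ph ι) _ _).trans (by rw [h.w, map_intCast])⟩)
    rintro _ ⟨x, hx, rfl⟩
    obtain ⟨a, b, rfl⟩ := h.gen x
    have h3 := Ideal.Quotient.eq_zero_iff_mem.2 hx
    rw [k, CharP.intCast_eq_zero_iff _ l] at h3
    obtain ⟨m, hm⟩ := h3
    refine Idl.mem_sp.2 ⟨m, b, ?_⟩
    change _ = ph ι (a + b * ω)
    have h4 : (a : ℂ) + b * r = l * m := by exact_mod_cast congrArg (Int.cast : ℤ → ℂ) hm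
    rw [map_add, map_mul, map_intCast, map_intCast, h.w]
    linear_combination -h4
  · have hb : Function.Bijective (ZMod.castHom (dvd_refl l) (𝓞 K ⧸ q.asIdeal)) := by
      refine ⟨RingHom.injective _, fun y => ?_⟩
      obtain ⟨x, rfl⟩ := Ideal.Quotient.mk_surjective y
      obtain ⟨a, b, rfl⟩ := h.gen x
      exact ⟨((a + b * r : ℤ) : ZMod l), by rw [map_intCast, k]⟩
    rw [Ideal.absNorm_apply, Submodule.cardQuot_apply, ← Nat.card_eq_of_bijective _ hb,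
      Nat.card_zmod]

theorem Od.root (h : Od ι δ c ω) (q : Pr K) {l : ℕ} (hl : l.Prime)
    (h1 : Ideal.absNorm q.asIdeal = l) :
    ∃ r : ℤ, (l : ℤ) ∣ r ^ 2 - r + c ∧ (l : 𝓞 K) ∈ q.asIdeal ∧ ω - r ∈ q.asIdeal := by
  have := q.isPrime
  have : Fact l.Prime := ⟨hl⟩
  have h2 : (l : 𝓞 K) ∈ q.asIdeal := h1 ▸ Ideal.absNorm_mem q.asIdeal
  have : CharP (𝓞 K ⧸ q.asIdeal) l := (CharP.charP_iff_prime_eq_zero hl).2 (by
    rw [← map_natCast (Ideal.Quotient.mk q.asIdeal)]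
    exact Ideal.Quotient.eq_zero_iff_mem.2 h2)
  have hb : Function.Bijective (ZMod.castHom (dvd_refl l) (𝓞 K ⧸ q.asIdeal)) :=
    (RingHom.injective _).bijective_of_nat_card_le (by
      rw [Nat.card_zmod, ← h1, Ideal.absNorm_apply, Submodule.cardQuot_apply])
  obtain ⟨y, hy⟩ := hb.2 (Ideal.Quotient.mk _ ω)
  obtain ⟨r, rfl⟩ := ZMod.intCast_surjective y
  rw [map_intCast] at hy
  refine ⟨r, ?_, h2, Ideal.Quotient.eq.1 (hy.symm.trans (map_intCast _ r).symm)⟩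
  rw [← CharP.intCast_eq_zero_iff (𝓞 K ⧸ q.asIdeal) l]
  have h3 := congrArg (Ideal.Quotient.mk q.asIdeal) h.eq
  rw [map_pow, map_sub, map_intCast, ← hy] at h3
  push_cast
  linear_combination h3

omit [NumberField K] in
theorem Od.exists_prime (h : Od ι δ c ω) {l : ℕ} (hl : l.Prime) {r : ℤ}
    (hr : (l : ℤ) ∣ r ^ 2 - r + c) : ∃ q : Pr K, (l : 𝓞 K) ∈ q.asIdeal ∧ ω - r ∈ q.asIdeal := by
  obtain ⟨m, hm⟩ := hr
  have e1 : om δ ^ 2 = om δ - c := by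
    have := congrArg (ph ι) h.eq
    rwa [map_pow, map_sub, map_intCast, h.w] at this
  have e2 : (r : ℂ) ^ 2 - r + c = l * m := by exact_mod_cast congrArg (Int.cast : ℤ → ℂ) hm
  obtain ⟨I, hI⟩ := h.surj (Λ := sp l (om δ - r)) (by
    rw [Lat.smul_sp]
    refine Lat.sp_le (Idl.mem_sp.2 ⟨r, l, by push_cast; ring⟩) (Idl.mem_sp.2 ⟨-m, 1 - r, ?_⟩)
    push_cast
    linear_combination e2 - e1) (Lat.sp_le (Idl.mem_O.2 ⟨l, 0, by simp⟩)
      (Idl.mem_O.2 ⟨-r, 1, by push_cast; ring⟩))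
  have h1 : I ≠ ⊤ := fun e => by
    have h2 : ph ι 1 ∈ lat ι I := ph_mem.2 (e ▸ trivial)
    rw [hI, map_one] at h2
    obtain ⟨a, b, hab⟩ := Idl.mem_sp.1 h2
    obtain ⟨h3, h4⟩ := Idl.indep h.im (a := a * l - b * r - 1) (b := b) (by
      push_cast
      linear_combination hab)
    rw [h4] at h3
    have h5 : (l : ℤ) ∣ 1 := ⟨a, by linear_combination -h3⟩
    exact hl.one_lt.ne' (Nat.dvd_one.1 (by exact_mod_cast h5))
  obtain ⟨M, hM, hle⟩ := Ideal.exists_le_maximal I h1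
  have h6 : (l : 𝓞 K) ∈ M := hle (ph_mem.1 (by rw [hI, map_natCast]; exact Lat.left_mem _ _))
  have h7 : (l : 𝓞 K) ≠ 0 := fun e => hl.ne_zero (by
    have := congrArg (ph ι) e
    rwa [map_natCast, map_zero, Nat.cast_eq_zero] at this)
  exact ⟨⟨M, hM.isPrime, fun e => h7 (Ideal.mem_bot.1 (e ▸ h6))⟩, h6, hle (ph_mem.1 (by
    rw [hI, map_sub, map_intCast, h.w]
    exact Lat.right_mem _ _))⟩

end Pool.Agent.C17.Tr
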