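import Pool.Agent.Lib.MP_02f36d_nt.C17.St
import Pool.Agent.Lib.MP_02f36d_nt.C17.A1

/-! The rank is one as soon as there are infinitely many points. -/

namespace Pool.Agent.C17

open scoped Classical

theorem up : UpSt := by
  intro L _ _ h3 hd h17 hh h
  obtain ⟨h1, h2, h4⟩ := a1 h3 hd h17 hh
  refine le_antisymm h2 (Nat.pos_of_ne_zero fun h0 => not_finite_iff_infinite.2 h ?_)
  refine Finite.of_surjective (Subtype.val : AddCommGroup.torsion (EL L).toAffine.Point → _)
    fun P => ⟨⟨P, ?_⟩, rfl⟩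
  obtain ⟨k, hk⟩ := Module.finrank_eq_zero_iff.1 h0 P
  exact isOfFinAddOrder_iff_zsmul_eq_zero.2 ⟨k, hk⟩

end Pool.Agent.C17
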